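import Pool.Agent.TH703.Cone.Exist
import Pool.Agent.TH703.Cone.Trans
import Pool.Agent.TH703.Cone.Div

/-!
# MP_65ff7c_an, part A: fibres, Fubini and volumes
-/

set_option autoImplicit false

namespace Pool.Agent.H1.CN

open MeasureTheory Set Metric Pool.Agent.TH703.Cone
open scoped ENNReal

variable {b : ℕ}

theorem meas_toLp : Measurable (fun p : ℂ × B b => (WithLp.toLp 2 p : W b)) :=
  (WithLp.volume_preserving_toLp (U := ℂ) (V := B b)).measurable

theorem fib_meas {S : Set (W b)} (hS : MeasurableSet S) (x : ℂ) : MeasurableSet (fib S x) := by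
  have : fib S x = (fun y : B b => (WithLp.toLp 2 (x, y) : W b)) ⁻¹' S := rfl
  rw [this]
  exact hS.preimage (meas_toLp.comp (measurable_const.prodMk measurable_id))

theorem lint_W (f : W b → ℝ≥0∞) (hf : Measurable f) :
    ∫⁻ z, f z = ∫⁻ x : ℂ, ∫⁻ y : B b, f (WithLp.toLp 2 (x, y)) := by
  have h := (WithLp.volume_preserving_toLp (U := ℂ) (V := B b)).lintegral_comp hf
  rw [← h, Measure.volume_eq_prod]
  exact lintegral_prod (fun p : ℂ × B b => f (WithLp.toLp 2 p)) (hf.comp meas_toLp).aemeasurable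

theorem lint_fib {S : Set (W b)} (hS : MeasurableSet S) {f : ℂ → ℝ≥0∞} (hf : Measurable f) :
    ∫⁻ z in S, f z.fst = ∫⁻ x, f x * volume (fib S x) := by
  have hfst : Measurable (fun z : W b => z.fst) := by
    have : (fun z : W b => z.fst) = fun z => (WithLp.ofLp z).1 := rfl
    rw [this]
    exact measurable_fst.comp (WithLp.volume_preserving_ofLp (U := ℂ) (V := B b)).measurable
  have hF : Measurable (S.indicator fun z : W b => f z.fst) := (hf.comp hfst).indicator hS
  rw [← lintegral_indicator hS, lint_W _ hF]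
  refine lintegral_congr fun x => ?_
  have : (fun y : B b => S.indicator (fun z : W b => f z.fst) (WithLp.toLp 2 (x, y))) =
      (fib S x).indicator (fun _ => f x) := by
    ext y
    by_cases h : (WithLp.toLp 2 (x, y) : W b) ∈ S
    · rw [indicator_of_mem h, indicator_of_mem (show y ∈ fib S x from h)]
      rfl
    · rw [indicator_of_notMem h, indicator_of_notMem (show y ∉ fib S x from h)]
  rw [this, lintegral_indicator (fib_meas hS x), setLIntegral_const]

theorem vol_fib {S : Set (W b)} (hS : MeasurableSet S) :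
    volume S = ∫⁻ x, volume (fib S x) := by
  have h := lint_fib hS (f := fun _ => 1) measurable_const
  simpa using h

theorem mem_Om {ε : ℝ} {z : W b} : z ∈ Om b ε ↔ ‖z.fst‖ + ‖z.snd‖ / ε < 1 := Iff.rfl

theorem isOpen_Om (b : ℕ) (ε : ℝ) : IsOpen (Om b ε) := by
  have h : Continuous (fun z : W b => ‖z.fst‖ + ‖z.snd‖ / ε) := by fun_prop
  exact isOpen_lt h continuous_const

theorem fib_Om {ε : ℝ} (hε : 0 < ε) (x : ℂ) : fib (Om b ε) x = ball (0 : B b) (ε * (1 - ‖x‖)) := by
  ext y
  simp only [fib, mem_setOf_eq, mem_ball, dist_zero_right]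
  change ‖x‖ + ‖y‖ / ε < 1 ↔ _
  rw [← lt_sub_iff_add_lt', div_lt_iff₀ hε, mul_comm]

theorem vol_ball {ε s : ℝ} (hs : 0 < s) :
    volume (ball (0 : B b) (ε * s)) = ENNReal.ofReal (s ^ b * vb b ε) := by
  rw [mul_comm ε s, Measure.addHaar_ball_mul_of_pos _ _ hs]
  rw [finrank_euclideanSpace, Fintype.card_fin, ENNReal.ofReal_mul (by positivity), vb,
    ofReal_measureReal (measure_ball_lt_top).ne]

theorem vb_pos {ε : ℝ} (hε : 0 < ε) : 0 < vb b ε := by
  unfold vb
  exact ENNReal.toReal_pos (measure_ball_pos _ _ hε).ne' measure_ball_lt_top.ne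

/-- volume of the fibres of the body -/
theorem vol_fib_Om {ε : ℝ} (hε : 0 < ε) (x : ℂ) :
    volume (fib (Om b ε) x) = (ball (0 : ℂ) 1).indicator
      (fun x => ENNReal.ofReal (vb b ε) * ENNReal.ofReal ((1 - ‖x‖) ^ b)) x := by
  rw [fib_Om hε]
  by_cases h : x ∈ ball (0 : ℂ) 1
  · rw [indicator_of_mem h]
    rw [mem_ball_zero_iff] at h
    rw [vol_ball (by linarith), ← ENNReal.ofReal_mul (vb_pos hε).le, mul_comm]
  · rw [indicator_of_notMem h]
    rw [mem_ball_zero_iff, not_lt] at h
    rw [ball_eq_empty.2 (mul_nonpos_of_nonneg_of_nonpos hε.le (by linarith)), measure_empty]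

/-- **T7a.** -/
theorem t7a : S_T7a := by
  intro b ε _ hε f hf
  rw [lint_fib (isOpen_Om b ε).measurableSet hf]
  simp_rw [vol_fib_Om hε]
  have : ∀ x : ℂ, f x * (ball (0 : ℂ) 1).indicator
      (fun x => ENNReal.ofReal (vb b ε) * ENNReal.ofReal ((1 - ‖x‖) ^ b)) x =
      (ball (0 : ℂ) 1).indicator (fun x => ENNReal.ofReal (vb b ε) *
        (f x * ENNReal.ofReal ((1 - ‖x‖) ^ b))) x := by
    intro x
    by_cases h : x ∈ ball (0 : ℂ) 1
    · rw [indicator_of_mem h, indicator_of_mem h]; ring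
    · rw [indicator_of_notMem h, indicator_of_notMem h, mul_zero]
  simp_rw [this]
  rw [lintegral_indicator measurableSet_ball, lintegral_const_mul]
  fun_prop

/-- radial integrals in the plane -/
theorem radial (g : ℝ → ℝ≥0∞) (hg : Measurable g) :
    ∫⁻ x : ℂ, g ‖x‖ =
      ENNReal.ofReal (2 * Real.pi) * ∫⁻ s in Ioi (0 : ℝ), ENNReal.ofReal s * g s := by
  rw [← Complex.lintegral_comp_polarCoord_symm]
  have e1 : polarCoord.target = Ioi (0 : ℝ) ×ˢ Ioo (-Real.pi) Real.pi := rfl
  simp_rw [Complex.norm_polarCoord_symm, smul_eq_mul]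
  rw [e1, Measure.volume_eq_prod, ← Measure.prod_restrict, lintegral_prod]
  · have e2 : ∀ x : ℝ, ∫⁻ _y : ℝ in Ioo (-Real.pi) Real.pi, ENNReal.ofReal x * g |x| =
        ENNReal.ofReal x * g |x| * ENNReal.ofReal (Real.pi - -Real.pi) := by
      intro x
      rw [lintegral_const, Measure.restrict_apply MeasurableSet.univ, univ_inter, Real.volume_Ioo]
    refine (lintegral_congr fun x => e2 x).trans ?_
    rw [lintegral_mul_const']
    · rw [mul_comm]
      congr 1
      · congr 1; ring
      · refine setLIntegral_congr_fun measurableSet_Ioi fun s hs => ?_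
        rw [abs_of_pos (mem_Ioi.1 hs)]
    · exact ENNReal.ofReal_ne_top
  · fun_prop

/-- the primitive of `s (1 - s)^b` -/
theorem prim (b : ℕ) (r : ℝ) : ∫ s in (0 : ℝ)..r, s * (1 - s) ^ b =
    (1 - (1 - r) ^ (b + 1) * (1 + (b + 1) * r)) / ((b + 1) * (b + 2)) := by
  have h : ∀ x : ℝ, HasDerivAt (fun r : ℝ =>
      (1 - (1 - r) ^ (b + 1) * (1 + (b + 1) * r)) / ((b + 1) * (b + 2))) (x * (1 - x) ^ b) x := by
    intro x
    have h1 : HasDerivAt (fun r : ℝ => (1 - r) ^ (b + 1)) (((b + 1 : ℕ) : ℝ) * (1 - x) ^ b * (-1)) x := by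
      have := ((hasDerivAt_id' x).const_sub 1).fun_pow (b + 1)
      simpa using this
    have h2 : HasDerivAt (fun r : ℝ => 1 + ((b : ℝ) + 1) * r) ((b : ℝ) + 1) x := by
      have := ((hasDerivAt_id x).const_mul ((b : ℝ) + 1)).const_add 1
      simpa using this
    have h3 := ((h1.mul h2).const_sub 1).div_const (((b : ℝ) + 1) * (b + 2))
    refine h3.congr_deriv ?_
    have : ((b : ℝ) + 1) ≠ 0 := by positivity
    have : ((b : ℝ) + 2) ≠ 0 := by positivity
    push_cast
    field_simp
    ring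
  rw [intervalIntegral.integral_eq_sub_of_hasDerivAt (fun x _ => h x)]
  · simp
  · exact (by fun_prop : Continuous fun s : ℝ => s * (1 - s) ^ b).intervalIntegrable _ _

/-- **T7b.** -/
theorem t7b : S_T7b := by
  intro b ε r hb hε hr0 hr1
  have hm : MeasurableSet {x : ℂ | ‖x‖ < r} := by
    have : {x : ℂ | ‖x‖ < r} = ball 0 r := by ext x; simp
    rw [this]; exact measurableSet_ball
  have e1 : volume {z : W b | z ∈ Om b ε ∧ ‖z.fst‖ < r} =
      ∫⁻ z in Om b ε, ({x : ℂ | ‖x‖ < r}).indicator (fun _ => 1) z.fst := by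
    have : (fun z : W b => ({x : ℂ | ‖x‖ < r}).indicator (fun _ => (1 : ℝ≥0∞)) z.fst) =
        ({z : W b | ‖z.fst‖ < r}).indicator (fun _ => 1) := by
      ext z
      by_cases h : ‖z.fst‖ < r
      · rw [indicator_of_mem (show z.fst ∈ {x : ℂ | ‖x‖ < r} from h),
          indicator_of_mem (show z ∈ {z : W b | ‖z.fst‖ < r} from h)]
      · rw [indicator_of_notMem (show z.fst ∉ {x : ℂ | ‖x‖ < r} from h),
          indicator_of_notMem (show z ∉ {z : W b | ‖z.fst‖ < r} from h)]
    have ho : IsOpen {z : W b | ‖z.fst‖ < r} :=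
      isOpen_lt (by fun_prop : Continuous fun z : W b => ‖z.fst‖) continuous_const
    rw [this, lintegral_indicator ho.measurableSet, setLIntegral_one,
      Measure.restrict_apply ho.measurableSet]
    congr 1
    ext z
    exact and_comm
  rw [e1, t7a b ε hb hε _ (measurable_const.indicator hm), ENNReal.ofReal_mul (vb_pos hε).le]
  congr 1
  have e2 : ∫⁻ x in ball (0 : ℂ) 1, ({x : ℂ | ‖x‖ < r}).indicator (fun _ => (1 : ℝ≥0∞)) x *
      ENNReal.ofReal ((1 - ‖x‖) ^ b) =
      ∫⁻ x : ℂ, (Iio r).indicator (fun s : ℝ => ENNReal.ofReal ((1 - s) ^ b)) ‖x‖ := by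
    rw [← lintegral_indicator measurableSet_ball]
    refine lintegral_congr fun x => ?_
    by_cases h : ‖x‖ < r
    · rw [indicator_of_mem (show x ∈ ball (0 : ℂ) 1 by rw [mem_ball_zero_iff]; linarith),
        indicator_of_mem (show x ∈ {x : ℂ | ‖x‖ < r} from h),
        indicator_of_mem (show ‖x‖ ∈ Iio r from h), one_mul]
    · rw [indicator_of_notMem (show ‖x‖ ∉ Iio r from h)]
      by_cases h2 : x ∈ ball (0 : ℂ) 1
      · rw [indicator_of_mem h2, indicator_of_notMem (show x ∉ {x : ℂ | ‖x‖ < r} from h), zero_mul]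
      · rw [indicator_of_notMem h2]
  rw [e2, radial _ (Measurable.indicator (by fun_prop) measurableSet_Iio),
    ENNReal.ofReal_mul (p := 2 * Real.pi) (by positivity)]
  congr 1
  have e3 : ∫⁻ s in Ioi (0 : ℝ), ENNReal.ofReal s *
      (Iio r).indicator (fun s : ℝ => ENNReal.ofReal ((1 - s) ^ b)) s =
      ∫⁻ s in Ioc (0 : ℝ) r, ENNReal.ofReal (s * (1 - s) ^ b) := by
    rw [← lintegral_indicator measurableSet_Ioi, setLIntegral_congr Ioo_ae_eq_Ioc.symm,
      ← lintegral_indicator measurableSet_Ioo]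
    refine lintegral_congr fun s => ?_
    by_cases h : s ∈ Ioo 0 r
    · rw [indicator_of_mem (show s ∈ Ioi 0 from h.1), indicator_of_mem (show s ∈ Iio r from h.2),
        indicator_of_mem h, ENNReal.ofReal_mul h.1.le]
    · rw [indicator_of_notMem h]
      by_cases h1 : s ∈ Ioi 0
      · rw [indicator_of_mem h1, indicator_of_notMem (show s ∉ Iio r from fun h2 => h ⟨h1, h2⟩),
          mul_zero]
      · rw [indicator_of_notMem h1]
  have e4 : ENNReal.ofReal (∫ s in (0 : ℝ)..r, s * (1 - s) ^ b) =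
      ∫⁻ s in Ioc (0 : ℝ) r, ENNReal.ofReal (s * (1 - s) ^ b) := by
    rw [intervalIntegral.integral_of_le hr0]
    apply ofReal_integral_eq_lintegral_ofReal
    · exact ((by fun_prop : Continuous fun s : ℝ => s * (1 - s) ^ b).integrableOn_Icc).mono_set
        Ioc_subset_Icc_self
    · refine (ae_restrict_iff' measurableSet_Ioc).2 ?_
      refine Filter.Eventually.of_forall fun s hs => ?_
      have h1 : 0 ≤ 1 - s := by have := hs.2; linarith
      have h2 := hs.1
      change (0 : ℝ) ≤ s * (1 - s) ^ b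
      positivity
  rw [e3, ← prim, e4]

end Pool.Agent.H1.CN
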