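import Pool.Agent.H1.CN.A

/-!
# MP_65ff7c_an, part B: the fibres are almost full or almost empty
-/

set_option autoImplicit false

namespace Pool.Agent.H1.CN

open MeasureTheory Set Metric Pool.Agent.TH703.Cone
open scoped ENNReal

variable {b : ℕ}

theorem norm_comb_le {E : Type*} [NormedAddCommGroup E] [NormedSpace ℝ E] {s t : ℝ} (hs : 0 ≤ s)
    (ht : 0 ≤ t) (x y : E) : ‖s • x + t • y‖ ≤ s * ‖x‖ + t * ‖y‖ := by
  refine (norm_add_le _ _).trans ?_
  rw [norm_smul, norm_smul, Real.norm_of_nonneg hs, Real.norm_of_nonneg ht]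

theorem convex_Om (b : ℕ) {ε : ℝ} (hε : 0 < ε) : Convex ℝ (Om b ε) := by
  intro z hz w hw s t hs ht hst
  have h1 : ‖(s • z + t • w).fst‖ ≤ s * ‖z.fst‖ + t * ‖w.fst‖ := norm_comb_le hs ht _ _
  have h2 : ‖(s • z + t • w).snd‖ ≤ s * ‖z.snd‖ + t * ‖w.snd‖ := norm_comb_le hs ht _ _
  rw [mem_Om] at hz hw ⊢
  have h3 : ‖(s • z + t • w).snd‖ / ε ≤ s * (‖z.snd‖ / ε) + t * (‖w.snd‖ / ε) := by
    rw [div_le_iff₀ hε]
    have : (s * (‖z.snd‖ / ε) + t * (‖w.snd‖ / ε)) * ε = s * ‖z.snd‖ + t * ‖w.snd‖ := by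
      field_simp
    rw [this]; exact h2
  rcases hs.eq_or_lt with h | h
  · subst h
    have : t = 1 := by linarith
    subst this
    nlinarith
  · nlinarith [mul_le_mul_of_nonneg_left hw.le ht, mul_lt_mul_of_pos_left hz h]

theorem norm_W_le (z : W b) : ‖z‖ ≤ ‖z.fst‖ + ‖z.snd‖ := by
  rw [WithLp.prod_norm_eq_of_L2]
  rw [Real.sqrt_le_iff]
  have := norm_nonneg z.fst
  have := norm_nonneg z.snd
  exact ⟨by positivity, by nlinarith⟩

theorem norm_fst_le (z : W b) : ‖z.fst‖ ≤ ‖z‖ := by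
  rw [WithLp.prod_norm_eq_of_L2]
  apply Real.le_sqrt_of_sq_le
  nlinarith [sq_nonneg ‖z.snd‖]

theorem norm_snd_le (z : W b) : ‖z.snd‖ ≤ ‖z‖ := by
  rw [WithLp.prod_norm_eq_of_L2]
  apply Real.le_sqrt_of_sq_le
  nlinarith [sq_nonneg ‖z.fst‖]

theorem fst_lt_of_mem {ε : ℝ} (hε : 0 < ε) {z : W b} (hz : z ∈ Om b ε) : ‖z.fst‖ < 1 := by
  rw [mem_Om] at hz
  have : 0 ≤ ‖z.snd‖ / ε := by positivity
  linarith

theorem snd_lt_of_mem {ε : ℝ} (hε : 0 < ε) {z : W b} (hz : z ∈ Om b ε) : ‖z.snd‖ < ε := by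
  rw [mem_Om] at hz
  have h : ‖z.snd‖ / ε < 1 := by linarith [norm_nonneg z.fst]
  rwa [div_lt_one hε] at h

theorem bdd_Om (b : ℕ) {ε : ℝ} (hε : 0 < ε) : Bornology.IsBounded (Om b ε) := by
  refine (isBounded_ball (x := (0 : W b)) (r := 1 + ε)).subset fun z hz => ?_
  rw [mem_ball_zero_iff]
  have h1 := fst_lt_of_mem hε hz
  have h2 := snd_lt_of_mem hε hz
  have h3 := norm_W_le z
  linarith

/-- vertical vectors -/
def vv (v : B b) : W b := WithLp.toLp 2 (0, v)

theorem add_vv (z : W b) (v : B b) : z + vv v = WithLp.toLp 2 (z.fst, z.snd + v) := by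
  apply WithLp.ofLp_injective
  unfold vv
  exact Prod.ext (by simp) (by simp)

theorem norm_vv (v : B b) : ‖vv v‖ = ‖v‖ := by
  unfold vv
  rw [WithLp.prod_norm_eq_of_L2]
  simp

theorem meas_vv : Measurable (vv : B b → W b) :=
  meas_toLp.comp (measurable_const.prodMk measurable_id)

theorem meas_fst : Measurable (fun z : W b => z.fst) := by
  have : (fun z : W b => z.fst) = fun z => (WithLp.ofLp z).1 := rfl
  rw [this]
  exact measurable_fst.comp (WithLp.volume_preserving_ofLp (U := ℂ) (V := B b)).measurable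

theorem meas_fib_vol {S : Set (W b)} (hS : MeasurableSet S) :
    Measurable (fun x : ℂ => volume (fib S x)) :=
  measurable_measure_prodMk_left (ν := (volume : Measure (B b))) (hS.preimage meas_toLp)

/-- the general identity behind T5 -/
theorem prod_fib {A C : Set (W b)} (hA : MeasurableSet A) (hC : MeasurableSet C) :
    ∫⁻ x : ℂ, volume (fib A x) * volume (fib C x) =
      ∫⁻ v : B b, volume {z : W b | z ∈ A ∧ z + vv v ∈ C} := by
  have h1 : ∫⁻ x : ℂ, volume (fib A x) * volume (fib C x) =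
      ∫⁻ z in A, volume (fib C z.fst) := by
    rw [lint_fib hA (meas_fib_vol hC)]
    exact lintegral_congr fun x => mul_comm _ _
  have hadd : Measurable (fun p : W b × B b => p.1 + vv p.2) :=
    measurable_fst.add (meas_vv.comp measurable_snd)
  have h2 : ∀ z : W b, volume (fib C z.fst) =
      ∫⁻ v : B b, C.indicator (fun _ => (1 : ℝ≥0∞)) (z + vv v) := by
    intro z
    have e1 : ∫⁻ v : B b, C.indicator (fun _ => (1 : ℝ≥0∞)) (z + vv v) =
        ∫⁻ v : B b, (fib C z.fst).indicator (fun _ => (1 : ℝ≥0∞)) (z.snd + v) := by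
      refine lintegral_congr fun v => ?_
      rw [add_vv]
      rfl
    rw [e1, lintegral_add_left_eq_self (fun y => (fib C z.fst).indicator (fun _ => (1 : ℝ≥0∞)) y),
      lintegral_indicator_const (fib_meas hC _), one_mul]
  rw [h1]
  simp_rw [h2]
  rw [lintegral_lintegral_swap]
  · refine lintegral_congr fun v => ?_
    have hm : MeasurableSet {z : W b | z + vv v ∈ C} := (measurable_id.add_const (vv v)) hC
    have e1 : (fun z : W b => C.indicator (fun _ => (1 : ℝ≥0∞)) (z + vv v)) =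
        ({z : W b | z + vv v ∈ C}).indicator 1 := rfl
    rw [e1, lintegral_indicator_one hm, Measure.restrict_apply hm]
    congr 1
    ext z
    exact and_comm
  · exact ((measurable_const.indicator hC).comp hadd).aemeasurable

/-- **T5.** -/
theorem t5 : S_T5 := by
  intro b ε P A hb hε hA hAΩ hP hPLE
  have hCm : MeasurableSet (Om b ε \ A) := (isOpen_Om b ε).measurableSet.diff hA
  have hbd : Bornology.IsBounded (Om b ε) := bdd_Om b hε
  have h1 : ∀ v : B b, volume {z : W b | z ∈ A ∧ z + vv v ∈ Om b ε \ A} ≤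
      (ball (0 : B b) (ε * 2)).indicator (fun _ => ENNReal.ofReal (ε * 2 * P)) v := by
    intro v
    by_cases hv : v ∈ ball (0 : B b) (ε * 2)
    · rw [indicator_of_mem hv]
      refine (t1 (W b) (Om b ε) A P (vv v) (isOpen_Om b ε) (convex_Om b hε) hbd hA hAΩ hP
        hPLE).trans ?_
      rw [norm_vv]
      rw [mem_ball_zero_iff] at hv
      exact ENNReal.ofReal_le_ofReal (mul_le_mul_of_nonneg_right hv.le hP)
    · rw [indicator_of_notMem hv]
      have : {z : W b | z ∈ A ∧ z + vv v ∈ Om b ε \ A} = ∅ := by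
        rw [eq_empty_iff_forall_notMem]
        rintro z ⟨hz1, hz2, -⟩
        apply hv
        have h3 := hAΩ hz1
        rw [mem_Om] at h3
        rw [add_vv, mem_Om] at hz2
        change ‖z.fst‖ + ‖z.snd + v‖ / ε < 1 at hz2
        rw [mem_ball_zero_iff]
        have h4 : ‖z.snd‖ / ε < 1 := by linarith [norm_nonneg z.fst]
        have h5 : ‖z.snd + v‖ / ε < 1 := by linarith [norm_nonneg z.fst]
        rw [div_lt_one hε] at h4 h5
        calc ‖v‖ = ‖(z.snd + v) - z.snd‖ := by rw [add_sub_cancel_left]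
          _ ≤ ‖z.snd + v‖ + ‖z.snd‖ := norm_sub_le _ _
          _ < ε * 2 := by linarith
      rw [this, measure_empty]
  rw [prod_fib hA hCm]
  refine (lintegral_mono h1).trans ?_
  rw [lintegral_indicator measurableSet_ball, setLIntegral_const, vol_ball (by norm_num),
    ← ENNReal.ofReal_mul (by positivity)]
  apply ENNReal.ofReal_le_ofReal
  rw [pow_succ]
  nlinarith

end Pool.Agent.H1.CN
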