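import Mathlib

/-!
# MP_65ff7c_an: a C¹ step function
-/

set_option autoImplicit false

namespace Pool.Agent.H1.CN

open MeasureTheory Set

/-- derivative of the step -/
noncomputable def stp' (t : ℝ) : ℝ := 6 * max 0 (t * (1 - t))

/-- a C¹ step -/
noncomputable def stp (t : ℝ) : ℝ := ∫ s in (0 : ℝ)..t, stp' s

theorem cont_stp' : Continuous stp' := by
  unfold stp'; fun_prop

theorem stp'_nonneg (t : ℝ) : 0 ≤ stp' t := by
  unfold stp'; positivity

theorem stp'_le (t : ℝ) : stp' t ≤ 3 / 2 := by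
  unfold stp'
  have : max 0 (t * (1 - t)) ≤ 1 / 4 := max_le (by norm_num) (by nlinarith [sq_nonneg (t - 1 / 2)])
  linarith

theorem stp'_zero {t : ℝ} (h : t ≤ 0 ∨ 1 ≤ t) : stp' t = 0 := by
  unfold stp'
  rw [max_eq_left, mul_zero]
  rcases h with h | h
  · nlinarith
  · nlinarith

theorem hasDeriv_stp (t : ℝ) : HasDerivAt stp (stp' t) t :=
  intervalIntegral.integral_hasDerivAt_right (cont_stp'.intervalIntegrable _ _)
    cont_stp'.stronglyMeasurable.stronglyMeasurableAtFilter cont_stp'.continuousAt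

theorem contDiff_stp : ContDiff ℝ 1 stp := by
  rw [contDiff_one_iff_deriv]
  refine ⟨fun t => (hasDeriv_stp t).differentiableAt, ?_⟩
  have : deriv stp = stp' := funext fun t => (hasDeriv_stp t).deriv
  rw [this]
  exact cont_stp'

theorem stp_of_nonpos {t : ℝ} (h : t ≤ 0) : stp t = 0 := by
  unfold stp
  rw [intervalIntegral.integral_symm]
  have : ∫ s in t..0, stp' s = ∫ s in t..0, (0 : ℝ) := by
    apply intervalIntegral.integral_congr
    intro s hs
    rw [uIcc_of_le h] at hs
    exact stp'_zero (Or.inl hs.2)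
  rw [this]; simp

theorem stp_one : stp 1 = 1 := by
  unfold stp
  have : ∫ s in (0 : ℝ)..1, stp' s = ∫ s in (0 : ℝ)..1, (6 * s - 6 * s ^ 2) := by
    apply intervalIntegral.integral_congr
    intro s hs
    rw [uIcc_of_le zero_le_one] at hs
    simp only [stp']
    rw [max_eq_right (mul_nonneg hs.1 (by linarith [hs.2]))]
    ring
  rw [this]
  have h : ∀ x : ℝ, HasDerivAt (fun s : ℝ => 3 * s ^ 2 - 2 * s ^ 3) (6 * x - 6 * x ^ 2) x := by
    intro x
    have h1 := (hasDerivAt_pow 2 x).const_mul 3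
    have h2 := (hasDerivAt_pow 3 x).const_mul 2
    refine (h1.sub h2).congr_deriv ?_
    push_cast
    ring
  rw [intervalIntegral.integral_eq_sub_of_hasDerivAt (fun x _ => h x)
    ((by fun_prop : Continuous fun s : ℝ => 6 * s - 6 * s ^ 2).intervalIntegrable _ _)]
  norm_num

theorem stp_of_one_le {t : ℝ} (h : 1 ≤ t) : stp t = 1 := by
  have h1 : stp t = stp 1 + ∫ s in (1 : ℝ)..t, stp' s :=
    (intervalIntegral.integral_add_adjacent_intervals (cont_stp'.intervalIntegrable _ _)
      (cont_stp'.intervalIntegrable _ _)).symm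
  have : ∫ s in (1 : ℝ)..t, stp' s = ∫ s in (1 : ℝ)..t, (0 : ℝ) := by
    apply intervalIntegral.integral_congr
    intro s hs
    rw [uIcc_of_le h] at hs
    exact stp'_zero (Or.inr hs.1)
  rw [h1, this, stp_one]; simp

theorem mono_stp : Monotone stp := by
  apply monotone_of_deriv_nonneg (fun t => (hasDeriv_stp t).differentiableAt)
  intro t
  rw [(hasDeriv_stp t).deriv]
  exact stp'_nonneg t

theorem stp_nonneg (t : ℝ) : 0 ≤ stp t := by
  rcases le_total t 0 with h | h
  · rw [stp_of_nonpos h]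
  · rw [← stp_of_nonpos le_rfl]; exact mono_stp h

theorem stp_le_one (t : ℝ) : stp t ≤ 1 := by
  rcases le_total t 1 with h | h
  · rw [← stp_one]; exact mono_stp h
  · rw [stp_of_one_le h]

end Pool.Agent.H1.CN
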