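import Pool.Agent.H1.CN.B
import Pool.Agent.H1.CN.S

/-!
# MP_65ff7c_an, part C: the perimeter of the cylinders
-/

set_option autoImplicit false

namespace Pool.Agent.H1.CN

open MeasureTheory Set Metric Pool.Agent.TH703.Cone Filter Topology
open scoped ENNReal InnerProductSpace

variable {b : ℕ}

/-- first projection -/
noncomputable def fstL (b : ℕ) : W b →L[ℝ] ℂ :=
  (ContinuousLinearMap.fst ℝ ℂ (B b)).comp
    (WithLp.prodContinuousLinearEquiv 2 ℝ ℂ (B b)).toContinuousLinearMap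

/-- second projection -/
noncomputable def sndL (b : ℕ) : W b →L[ℝ] B b :=
  (ContinuousLinearMap.snd ℝ ℂ (B b)).comp
    (WithLp.prodContinuousLinearEquiv 2 ℝ ℂ (B b)).toContinuousLinearMap

theorem fstL_apply (z : W b) : fstL b z = z.fst := rfl

theorem sndL_apply (z : W b) : sndL b z = z.snd := rfl

/-- the integral over the body of a radial function -/
theorem lint_Om_radial {ε : ℝ} (hb : 1 ≤ b) (hε : 0 < ε) (D : ℝ → ℝ) (hD : Continuous D) :
    ∫⁻ z in Om b ε, ENNReal.ofReal (D ‖z.fst‖) = ENNReal.ofReal (vb b ε) *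
      (ENNReal.ofReal (2 * Real.pi) * ∫⁻ s in Ioo (0 : ℝ) 1,
        ENNReal.ofReal s * (ENNReal.ofReal (D s) * ENNReal.ofReal ((1 - s) ^ b))) := by
  rw [t7a b ε hb hε (fun x => ENNReal.ofReal (D ‖x‖)) (by fun_prop)]
  congr 1
  have e2 : ∫⁻ x in ball (0 : ℂ) 1, ENNReal.ofReal (D ‖x‖) * ENNReal.ofReal ((1 - ‖x‖) ^ b) =
      ∫⁻ x : ℂ, (Iio (1 : ℝ)).indicator
        (fun s : ℝ => ENNReal.ofReal (D s) * ENNReal.ofReal ((1 - s) ^ b)) ‖x‖ := by
    rw [← lintegral_indicator measurableSet_ball]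
    refine lintegral_congr fun x => ?_
    by_cases h : ‖x‖ < 1
    · rw [indicator_of_mem (show x ∈ ball (0 : ℂ) 1 by rw [mem_ball_zero_iff]; linarith),
        indicator_of_mem (show ‖x‖ ∈ Iio (1 : ℝ) from h)]
    · rw [indicator_of_notMem (show ‖x‖ ∉ Iio (1 : ℝ) from h),
        indicator_of_notMem (show x ∉ ball (0 : ℂ) 1 by rwa [mem_ball_zero_iff])]
  rw [e2, radial _ (Measurable.indicator (by fun_prop) measurableSet_Iio)]
  congr 1
  rw [← lintegral_indicator measurableSet_Ioi, ← lintegral_indicator measurableSet_Ioo]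
  refine lintegral_congr fun s => ?_
  by_cases h : s ∈ Ioo (0 : ℝ) 1
  · rw [indicator_of_mem (show s ∈ Ioi 0 from h.1), indicator_of_mem (show s ∈ Iio (1 : ℝ) from h.2),
      indicator_of_mem h]
  · rw [indicator_of_notMem h]
    by_cases h1 : s ∈ Ioi 0
    · rw [indicator_of_mem h1, indicator_of_notMem (show s ∉ Iio (1 : ℝ) from fun h2 => h ⟨h1, h2⟩),
        mul_zero]
    · rw [indicator_of_notMem h1]

/-- the radial derivative of the cutoff -/
noncomputable def Dr (r a s : ℝ) : ℝ := stp' ((r ^ 2 - s ^ 2) / (r ^ 2 - a ^ 2)) * (2 * s / (r ^ 2 - a ^ 2))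

theorem cont_Dr (r a : ℝ) : Continuous (Dr r a) := by
  unfold Dr
  exact (cont_stp'.comp (by fun_prop)).mul (by fun_prop)

theorem int_Dr {r a : ℝ} (ha : 0 ≤ a) (har : a < r) (hr : r < 1) :
    ∫ s in (0 : ℝ)..1, Dr r a s = 1 := by
  have hp : 0 < r ^ 2 - a ^ 2 := by nlinarith
  have h : ∀ x : ℝ, HasDerivAt (fun s : ℝ => - stp ((r ^ 2 - s ^ 2) / (r ^ 2 - a ^ 2))) (Dr r a x) x := by
    intro x
    have h1 : HasDerivAt (fun s : ℝ => (r ^ 2 - s ^ 2) / (r ^ 2 - a ^ 2)) (-(2 * x) / (r ^ 2 - a ^ 2)) x := by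
      have := ((hasDerivAt_pow 2 x).const_sub (r ^ 2)).div_const (r ^ 2 - a ^ 2)
      simpa using this
    have h2 := ((hasDeriv_stp _).comp x h1).neg
    refine h2.congr_deriv ?_
    unfold Dr
    ring
  rw [intervalIntegral.integral_eq_sub_of_hasDerivAt (fun x _ => h x)
    ((cont_Dr r a).intervalIntegrable _ _)]
  rw [stp_of_nonpos (t := (r ^ 2 - 1 ^ 2) / (r ^ 2 - a ^ 2))
    (div_nonpos_of_nonpos_of_nonneg (by nlinarith) hp.le),
    stp_of_one_le (t := (r ^ 2 - 0 ^ 2) / (r ^ 2 - a ^ 2)) (by rw [le_div_iff₀ hp]; nlinarith)]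
  norm_num

theorem Dr_bound {r a s : ℝ} (ha : 0 ≤ a) (har : a < r) (hr : r < 1) (hs0 : 0 < s) (hs1 : s < 1) :
    s * (Dr r a s * (1 - s) ^ b) ≤ r * (1 - a) ^ b * Dr r a s := by
  have hp : 0 < r ^ 2 - a ^ 2 := by nlinarith
  have hD : 0 ≤ Dr r a s := by
    unfold Dr
    have := stp'_nonneg ((r ^ 2 - s ^ 2) / (r ^ 2 - a ^ 2))
    positivity
  by_cases h : a < s ∧ s < r
  · have h1 : (1 - s) ^ b ≤ (1 - a) ^ b := pow_le_pow_left₀ (by linarith) (by linarith) b
    have h2 : s * (1 - s) ^ b ≤ r * (1 - a) ^ b :=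
      mul_le_mul h.2.le h1 (by have : 0 ≤ 1 - s := by linarith
                               positivity) (by linarith)
    calc s * (Dr r a s * (1 - s) ^ b) = (s * (1 - s) ^ b) * Dr r a s := by ring
      _ ≤ _ := mul_le_mul_of_nonneg_right h2 hD
  · have : Dr r a s = 0 := by
      unfold Dr
      rw [stp'_zero, zero_mul]
      rcases not_and_or.1 h with h | h
      · right
        rw [le_div_iff₀ hp]
        nlinarith
      · left
        exact div_nonpos_of_nonpos_of_nonneg (by nlinarith) hp.le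
    rw [this]; simp

theorem int_Om_Dr {ε r a : ℝ} (hb : 1 ≤ b) (hε : 0 < ε) (ha : 0 ≤ a) (har : a < r) (hr : r < 1) :
    ∫ z in Om b ε, Dr r a ‖z.fst‖ ≤ vb b ε * (2 * Real.pi * (r * (1 - a) ^ b)) := by
  have hD0 : ∀ s, 0 ≤ s → 0 ≤ Dr r a s := by
    intro s hs
    have hp : 0 < r ^ 2 - a ^ 2 := by nlinarith
    unfold Dr
    have := stp'_nonneg ((r ^ 2 - s ^ 2) / (r ^ 2 - a ^ 2))
    positivity
  have h1a : 0 ≤ 1 - a := by linarith
  have hr0 : 0 ≤ r := by linarith
  rw [integral_eq_lintegral_of_nonneg_ae (Eventually.of_forall fun z => hD0 _ (norm_nonneg _))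
    (((cont_Dr r a).comp (by fun_prop : Continuous fun z : W b => ‖z.fst‖)).aestronglyMeasurable)]
  rw [lint_Om_radial hb hε _ (cont_Dr r a)]
  apply ENNReal.toReal_le_of_le_ofReal
  · have := (vb_pos (b := b) hε).le
    have := Real.pi_pos
    positivity
  rw [ENNReal.ofReal_mul (vb_pos hε).le, ENNReal.ofReal_mul (p := 2 * Real.pi) (by positivity)]
  gcongr
  calc ∫⁻ s in Ioo (0 : ℝ) 1, ENNReal.ofReal s * (ENNReal.ofReal (Dr r a s) *
        ENNReal.ofReal ((1 - s) ^ b))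
      ≤ ∫⁻ s in Ioo (0 : ℝ) 1, ENNReal.ofReal (r * (1 - a) ^ b) * ENNReal.ofReal (Dr r a s) := by
        refine setLIntegral_mono' measurableSet_Ioo fun s hs => ?_
        rw [← ENNReal.ofReal_mul (hD0 s hs.1.le), ← ENNReal.ofReal_mul hs.1.le,
          ← ENNReal.ofReal_mul (by positivity)]
        exact ENNReal.ofReal_le_ofReal (Dr_bound ha har hr hs.1 hs.2)
    _ = ENNReal.ofReal (r * (1 - a) ^ b) * ∫⁻ s in Ioo (0 : ℝ) 1, ENNReal.ofReal (Dr r a s) := by
        rw [lintegral_const_mul _ (by have := (cont_Dr r a); fun_prop)]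
    _ = ENNReal.ofReal (r * (1 - a) ^ b) * ENNReal.ofReal (∫ s in (0 : ℝ)..1, Dr r a s) := by
        congr 1
        rw [intervalIntegral.integral_of_le zero_le_one, ← setLIntegral_congr Ioo_ae_eq_Ioc.symm]
        symm
        apply ofReal_integral_eq_lintegral_ofReal
        · exact ((cont_Dr r a).integrableOn_Icc).mono_set Ioc_subset_Icc_self
        · refine (ae_restrict_iff' measurableSet_Ioc).2 (Eventually.of_forall fun s hs => ?_)
          exact hD0 s hs.1.le
    _ = ENNReal.ofReal (r * (1 - a) ^ b) := by rw [int_Dr ha har hr]; simp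

/-- the cutoff -/
noncomputable def chi (r a : ℝ) (z : W b) : ℝ := stp ((r ^ 2 - ‖z.fst‖ ^ 2) / (r ^ 2 - a ^ 2))

/-- the derivative of the argument of the cutoff -/
noncomputable def dtau (r a : ℝ) (z : W b) : W b →L[ℝ] ℝ :=
  (r ^ 2 - a ^ 2)⁻¹ • (-((2 : ℕ) • ((innerSL ℝ z.fst).comp (fstL b) : W b →L[ℝ] ℝ)))

theorem hasFDeriv_tau (r a : ℝ) (z : W b) :
    HasFDerivAt (fun z : W b => (r ^ 2 - ‖z.fst‖ ^ 2) / (r ^ 2 - a ^ 2)) (dtau r a z) z := by
  have h1 := ((fstL b).hasFDerivAt (x := z)).norm_sq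
  have h2 := ((h1.const_sub (r ^ 2)).const_mul (r ^ 2 - a ^ 2)⁻¹)
  have : (fun z : W b => (r ^ 2 - ‖z.fst‖ ^ 2) / (r ^ 2 - a ^ 2)) =
      fun z : W b => (r ^ 2 - a ^ 2)⁻¹ * (r ^ 2 - ‖fstL b z‖ ^ 2) := by
    funext z
    rw [div_eq_inv_mul]; rfl
  rw [this]
  exact h2

theorem hasFDeriv_chi (r a : ℝ) (z : W b) :
    HasFDerivAt (chi (b := b) r a)
      (stp' ((r ^ 2 - ‖z.fst‖ ^ 2) / (r ^ 2 - a ^ 2)) • dtau r a z) z :=
  HasDerivAt.comp_hasFDerivAt z (hasDeriv_stp _) (hasFDeriv_tau r a z)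

theorem contDiff_chi (r a : ℝ) : ContDiff ℝ 1 (chi (b := b) r a) := by
  have h1 : ContDiff ℝ 1 (fun z : W b => (r ^ 2 - a ^ 2)⁻¹ * (r ^ 2 - ‖fstL b z‖ ^ 2)) := by
    have : ContDiff ℝ 1 (fun z : W b => ‖fstL b z‖ ^ 2) := (fstL b).contDiff.norm_sq ℝ
    exact contDiff_const.mul (contDiff_const.sub this)
  have h2 : chi (b := b) r a = fun z => stp ((r ^ 2 - a ^ 2)⁻¹ * (r ^ 2 - ‖fstL b z‖ ^ 2)) := by
    funext z
    unfold chi
    rw [div_eq_inv_mul]; rfl
  rw [h2]
  exact contDiff_stp.comp h1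

theorem chi_bound {ε r a : ℝ} (ha : 0 ≤ a) (har : a < r) {φ : W b → W b} (hφ : Tst (Om b ε) φ)
    (z : W b) : - fderiv ℝ (chi (b := b) r a) z (φ z) ≤
      (Om b ε).indicator (fun z => Dr r a ‖z.fst‖) z := by
  have hp : 0 < r ^ 2 - a ^ 2 := by nlinarith
  by_cases hz : z ∈ Om b ε
  · rw [indicator_of_mem hz, (hasFDeriv_chi r a z).fderiv]
    have e1 : (stp' ((r ^ 2 - ‖z.fst‖ ^ 2) / (r ^ 2 - a ^ 2)) • dtau r a z) (φ z) =
        - (stp' ((r ^ 2 - ‖z.fst‖ ^ 2) / (r ^ 2 - a ^ 2)) *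
          ((r ^ 2 - a ^ 2)⁻¹ * (2 * ⟪z.fst, (φ z).fst⟫_ℝ))) := by
      simp [dtau, fstL_apply]
      left; left; ring
    rw [e1, neg_neg]
    unfold Dr
    have h1 : ⟪z.fst, (φ z).fst⟫_ℝ ≤ ‖z.fst‖ := by
      refine (real_inner_le_norm _ _).trans ?_
      have : ‖(φ z).fst‖ ≤ 1 := (norm_fst_le _).trans (hφ.le z)
      nlinarith [norm_nonneg z.fst]
    have h2 := stp'_nonneg ((r ^ 2 - ‖z.fst‖ ^ 2) / (r ^ 2 - a ^ 2))
    apply mul_le_mul_of_nonneg_left _ h2
    rw [div_eq_inv_mul]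
    apply mul_le_mul_of_nonneg_left _ (inv_nonneg.2 hp.le)
    linarith
  · rw [indicator_of_notMem hz]
    have : φ z = 0 := by
      by_contra h
      exact hz (hφ.sub (subset_tsupport _ h))
    rw [this, map_zero, neg_zero]

/-- **T3.** -/
theorem t3 : S_T3 := by
  intro b ε r hb hε hr0 hr1 φ hφ
  have hcyl : MeasurableSet {z : W b | ‖z.fst‖ < r} :=
    (isOpen_lt (by fun_prop : Continuous fun z : W b => ‖z.fst‖) continuous_const).measurableSet
  have hOm := (isOpen_Om b ε).measurableSet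
  have hOmfin : volume (Om b ε) ≠ ⊤ := (bdd_Om b hε).measure_lt_top.ne
  have hdi := Div.integrable_dv hφ.c1 hφ.cs
  have e1 : ∫ z in {z : W b | z ∈ Om b ε ∧ ‖z.fst‖ < r}, dv φ z =
      ∫ z, ({z : W b | ‖z.fst‖ < r}).indicator (dv φ) z := by
    have hm : MeasurableSet {z : W b | z ∈ Om b ε ∧ ‖z.fst‖ < r} := hOm.inter hcyl
    rw [← integral_indicator hm]
    congr 1
    funext z
    by_cases h : ‖z.fst‖ < r
    · rw [indicator_of_mem (show z ∈ {z : W b | ‖z.fst‖ < r} from h)]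
      by_cases h2 : z ∈ Om b ε
      · rw [indicator_of_mem (show z ∈ {z : W b | z ∈ Om b ε ∧ ‖z.fst‖ < r} from ⟨h2, h⟩)]
      · rw [indicator_of_notMem (show z ∉ {z : W b | z ∈ Om b ε ∧ ‖z.fst‖ < r} from fun h3 => h2 h3.1),
          Div.dv_eq_zero_of_notMem fun h3 => h2 (hφ.sub h3)]
    · rw [indicator_of_notMem (show z ∉ {z : W b | ‖z.fst‖ < r} from h),
        indicator_of_notMem (show z ∉ {z : W b | z ∈ Om b ε ∧ ‖z.fst‖ < r} from fun h3 => h h3.2)]
  rw [e1]
  have hlim : Tendsto (fun a : ℝ => ∫ z, chi (b := b) r a z * dv φ z) (𝓝[<] r)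
      (𝓝 (∫ z, ({z : W b | ‖z.fst‖ < r}).indicator (dv φ) z)) := by
    apply tendsto_integral_filter_of_dominated_convergence (fun z => |dv φ z|)
    · refine Eventually.of_forall fun a => ?_
      exact ((contDiff_chi r a).continuous.mul (Div.continuous_dv hφ.c1)).aestronglyMeasurable
    · refine Eventually.of_forall fun a => Eventually.of_forall fun z => ?_
      have h0 : 0 ≤ chi (b := b) r a z := stp_nonneg _
      rw [Real.norm_eq_abs, abs_mul, abs_of_nonneg h0]
      have : chi (b := b) r a z ≤ 1 := stp_le_one _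
      nlinarith [abs_nonneg (dv φ z)]
    · exact hdi.abs
    · refine Eventually.of_forall fun z => ?_
      by_cases h : ‖z.fst‖ < r
      · rw [indicator_of_mem (show z ∈ {z : W b | ‖z.fst‖ < r} from h)]
        apply tendsto_const_nhds.congr'
        have h2 : ∀ᶠ a in 𝓝[<] r, ‖z.fst‖ < a := by
          apply mem_nhdsWithin_of_mem_nhds
          exact lt_mem_nhds h
        filter_upwards [h2, self_mem_nhdsWithin] with a ha har
        have har' : a < r := har
        have h0 := norm_nonneg z.fst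
        have hp : 0 < r ^ 2 - a ^ 2 := by nlinarith
        unfold chi
        rw [stp_of_one_le, one_mul]
        rw [le_div_iff₀ hp]
        nlinarith
      · rw [indicator_of_notMem (show z ∉ {z : W b | ‖z.fst‖ < r} from h)]
        apply tendsto_const_nhds.congr'
        have h2 : ∀ᶠ a in 𝓝[<] r, 0 < a := by
          apply mem_nhdsWithin_of_mem_nhds
          exact lt_mem_nhds hr0
        filter_upwards [h2, self_mem_nhdsWithin] with a ha har
        have har' : a < r := har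
        have hp : 0 < r ^ 2 - a ^ 2 := by nlinarith
        rw [not_lt] at h
        unfold chi
        rw [stp_of_nonpos, zero_mul]
        exact div_nonpos_of_nonpos_of_nonneg (by nlinarith) hp.le
  have hlim2 : Tendsto (fun a : ℝ => vb b ε * (2 * Real.pi * (r * (1 - a) ^ b))) (𝓝[<] r)
      (𝓝 (vb b ε * (2 * Real.pi * (r * (1 - r) ^ b)))) := by
    apply tendsto_nhdsWithin_of_tendsto_nhds
    exact (by fun_prop : Continuous fun a : ℝ => vb b ε * (2 * Real.pi * (r * (1 - a) ^ b))).tendsto r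
  have hfin : ∫ z, ({z : W b | ‖z.fst‖ < r}).indicator (dv φ) z ≤
      vb b ε * (2 * Real.pi * (r * (1 - r) ^ b)) := by
    refine le_of_tendsto_of_tendsto hlim hlim2 ?_
    have h2 : ∀ᶠ a in 𝓝[<] r, 0 < a := by
      apply mem_nhdsWithin_of_mem_nhds
      exact lt_mem_nhds hr0
    filter_upwards [h2, self_mem_nhdsWithin] with a ha har
    rw [Div.integral_mul_dv (contDiff_chi r a) hφ.c1 hφ.cs, ← integral_neg]
    refine le_trans ?_ (int_Om_Dr hb hε ha.le har hr1)
    rw [← integral_indicator hOm]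
    apply integral_mono
    · apply Integrable.neg
      apply Continuous.integrable_of_hasCompactSupport
      · exact ((contDiff_chi r a).continuous_fderiv (by norm_num)).clm_apply hφ.c1.continuous
      · refine hφ.cs.mono ?_
        intro x hx
        rw [Function.mem_support] at hx ⊢
        intro h
        rw [h, map_zero] at hx
        exact hx rfl
    · rw [integrable_indicator_iff hOm]
      have hc : Continuous (fun z : W b => Dr r a ‖z.fst‖) := (cont_Dr r a).comp (by fun_prop)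
      exact (hc.continuousOn.integrableOn_compact (bdd_Om b hε).isCompact_closure).mono_set
        subset_closure
    · intro z
      exact chi_bound ha.le har hφ z
  calc _ ≤ _ := hfin
    _ = _ := by ring

end Pool.Agent.H1.CN
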