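import Pool.Agent.H1.CN.C

/-!
# MP_65ff7c_an, part D: the rotational field
-/

set_option autoImplicit false

namespace Pool.Agent.H1.CN

open MeasureTheory Set Metric Pool.Agent.TH703.Cone Filter Topology
open scoped ENNReal InnerProductSpace

variable {b : ℕ}

/-- odd step -/
noncomputable def gg (s : ℝ) : ℝ := 2 * stp ((s + 1) / 2) - 1

/-- its derivative -/
noncomputable def gg' (s : ℝ) : ℝ := stp' ((s + 1) / 2)

theorem hasDeriv_gg (s : ℝ) : HasDerivAt gg (gg' s) s := by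
  have h1 : HasDerivAt (fun s : ℝ => (s + 1) / 2) (1 / 2) s := ((hasDerivAt_id' s).add_const 1).div_const 2
  have h2 := (((hasDeriv_stp _).comp s h1).const_mul 2).sub_const 1
  refine h2.congr_deriv ?_
  unfold gg'
  ring

theorem contDiff_gg : ContDiff ℝ 1 gg := by
  unfold gg
  exact (contDiff_const.mul (contDiff_stp.comp (by fun_prop))).sub contDiff_const

theorem cont_gg' : Continuous gg' := cont_stp'.comp (by fun_prop)

theorem abs_gg (s : ℝ) : |gg s| ≤ 1 := by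
  unfold gg
  rw [abs_le]
  have := stp_nonneg ((s + 1) / 2)
  have := stp_le_one ((s + 1) / 2)
  constructor <;> linarith

theorem gg'_nonneg (s : ℝ) : 0 ≤ gg' s := stp'_nonneg _

theorem gg'_le (s : ℝ) : gg' s ≤ 3 / 2 := stp'_le _

theorem gg'_zero {s : ℝ} (h : 1 ≤ |s|) : gg' s = 0 := by
  apply stp'_zero
  rcases le_abs.1 h with h | h
  · right; linarith
  · left; linarith

theorem gg_one {s : ℝ} (h : 1 ≤ s) : gg s = 1 := by
  unfold gg
  rw [stp_of_one_le (by linarith)]; norm_num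

theorem gg_neg_one {s : ℝ} (h : s ≤ -1) : gg s = -1 := by
  unfold gg
  rw [stp_of_nonpos (by linarith)]; norm_num

/-- the rotation generator -/
noncomputable def JJ (b : ℕ) : W b →L[ℝ] W b :=
  ((WithLp.prodContinuousLinearEquiv 2 ℝ ℂ (B b)).symm.toContinuousLinearMap.comp
    (ContinuousLinearMap.inl ℝ ℂ (B b))).comp
      (((ContinuousLinearMap.mul ℝ ℂ) Complex.I).comp (fstL b))

theorem JJ_apply (z : W b) : JJ b z = WithLp.toLp 2 (Complex.I * z.fst, 0) := rfl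

theorem norm_JJ (z : W b) : ‖JJ b z‖ = ‖z.fst‖ := by
  rw [JJ_apply, WithLp.prod_norm_eq_of_L2]
  simp

theorem inner_JJ (z : W b) : ⟪z, JJ b z⟫_ℝ = 0 := by
  rw [JJ_apply, WithLp.prod_inner_apply]
  simp
  ring

theorem dv_JJ (z : W b) : dv (JJ b) z = 0 := by
  rw [Div.dv_eq_sum (stdOrthonormalBasis ℝ (W b))]
  apply Finset.sum_eq_zero
  intro i _
  rw [(JJ b).fderiv]
  exact inner_JJ _

/-- rotation -/
noncomputable def rot (t : ℝ) (z : W b) : W b :=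
  WithLp.toLp 2 (Complex.exp (t * Complex.I) * z.fst, z.snd)

theorem rot_zero (z : W b) : rot 0 z = z := by
  apply WithLp.ofLp_injective
  unfold rot
  exact Prod.ext (by simp) (by simp)

theorem hasDeriv_rot (z : W b) : HasDerivAt (fun t : ℝ => rot t z) (JJ b z) 0 := by
  have h1 : HasDerivAt (fun t : ℝ => Complex.exp (t * Complex.I) * z.fst)
      (Complex.I * z.fst) 0 := by
    have h2 : HasDerivAt (fun t : ℝ => ((t : ℂ) * Complex.I)) (1 * Complex.I) 0 :=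
      (Complex.ofRealCLM.hasDerivAt).mul_const Complex.I
    have h3 := (h2.cexp).mul_const z.fst
    simpa using h3
  have h2 : HasDerivAt (fun _ : ℝ => z.snd) 0 0 := hasDerivAt_const _ _
  have h3 := (WithLp.prodContinuousLinearEquiv 2 ℝ ℂ (B b)).symm.toContinuousLinearMap.hasFDerivAt.comp_hasDerivAt
    (0 : ℝ) (h1.prodMk h2)
  exact h3

/-- the cutoff for the rotational field -/
noncomputable def zet (ε r₀ R₁ k : ℝ) (z : W b) : ℝ :=
  stp (k * (‖z.fst‖ ^ 2 - r₀ ^ 2)) * stp (k * (R₁ ^ 2 - ‖z.fst‖ ^ 2)) *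
    stp (k * ((1 - ‖z.fst‖) ^ 2 - ‖z.snd‖ ^ 2 / ε ^ 2) - 1)

/-- the scalar factor -/
noncomputable def GG (ε r₀ R₁ k σ : ℝ) (u : ℂ) (z : W b) : ℝ :=
  zet ε r₀ R₁ k z / ‖z.fst‖ * gg ((z.fst * u).im / (σ * ‖z.fst‖))

theorem zet_nonneg (ε r₀ R₁ k : ℝ) (z : W b) : 0 ≤ zet ε r₀ R₁ k z :=
  mul_nonneg (mul_nonneg (stp_nonneg _) (stp_nonneg _)) (stp_nonneg _)

theorem zet_le_one (ε r₀ R₁ k : ℝ) (z : W b) : zet ε r₀ R₁ k z ≤ 1 :=
  mul_le_one₀ (mul_le_one₀ (stp_le_one _) (stp_nonneg _) (stp_le_one _)) (stp_nonneg _) (stp_le_one _)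

theorem rot_fst (t : ℝ) (z : W b) : (rot t z).fst = Complex.exp (t * Complex.I) * z.fst := rfl

theorem rot_snd (t : ℝ) (z : W b) : (rot t z).snd = z.snd := rfl

theorem norm_rot_fst (t : ℝ) (z : W b) : ‖(rot t z).fst‖ = ‖z.fst‖ := by
  rw [rot_fst, norm_mul, Complex.norm_exp_ofReal_mul_I, one_mul]

theorem zet_rot (ε r₀ R₁ k t : ℝ) (z : W b) : zet ε r₀ R₁ k (rot t z) = zet ε r₀ R₁ k z := by
  unfold zet
  rw [norm_rot_fst, rot_snd]

/-- the angular density -/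
noncomputable def HH (σ : ℝ) (u x : ℂ) : ℝ :=
  gg' ((x * u).im / (σ * ‖x‖)) * ((x * u).re / (σ * ‖x‖ ^ 2))

theorem hasDeriv_GG_rot (ε r₀ R₁ k σ : ℝ) (u : ℂ) (z : W b) :
    HasDerivAt (fun t : ℝ => GG ε r₀ R₁ k σ u (rot t z))
      (zet ε r₀ R₁ k z * HH σ u z.fst) 0 := by
  have e : (fun t : ℝ => GG ε r₀ R₁ k σ u (rot t z)) = fun t : ℝ =>
      zet ε r₀ R₁ k z / ‖z.fst‖ * gg ((Complex.exp (t * Complex.I) * (z.fst * u)).im / (σ * ‖z.fst‖)) := by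
    funext t
    unfold GG
    rw [zet_rot, norm_rot_fst, rot_fst, mul_assoc]
  rw [e]
  have h1 : HasDerivAt (fun t : ℝ => Complex.exp (t * Complex.I) * (z.fst * u))
      (Complex.I * (z.fst * u)) 0 := by
    have h2 : HasDerivAt (fun t : ℝ => ((t : ℂ) * Complex.I)) (1 * Complex.I) 0 :=
      (Complex.ofRealCLM.hasDerivAt).mul_const Complex.I
    have h3 := (h2.cexp).mul_const (z.fst * u)
    simpa using h3
  have h2 : HasDerivAt (fun t : ℝ => (Complex.exp (t * Complex.I) * (z.fst * u)).im)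
      (z.fst * u).re 0 := by
    have h4 := Complex.imCLM.hasFDerivAt.comp_hasDerivAt (0 : ℝ) h1
    have e2 : Complex.imCLM (Complex.I * (z.fst * u)) = (z.fst * u).re := by simp
    rw [e2] at h4
    exact h4
  have h3 := ((hasDeriv_gg ((Complex.exp ((0 : ℝ) * Complex.I) * (z.fst * u)).im /
    (σ * ‖z.fst‖))).comp (0 : ℝ) (h2.div_const (σ * ‖z.fst‖))).const_mul (zet ε r₀ R₁ k z / ‖z.fst‖)
  refine h3.congr_deriv ?_
  unfold HH
  simp
  ring

theorem zet_zero_of {ε r₀ R₁ k : ℝ} (hr₀ : 0 < r₀) (hR : r₀ < R₁) (hR1 : R₁ < 1) (hk : 0 < k)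
    {z : W b}
    (h : ¬ (r₀ ≤ ‖z.fst‖ ∧ ‖z.fst‖ ≤ R₁ ∧ 1 ≤ k * ((1 - ‖z.fst‖) ^ 2 - ‖z.snd‖ ^ 2 / ε ^ 2))) :
    zet ε r₀ R₁ k z = 0 := by
  have h0 := norm_nonneg z.fst
  unfold zet
  rcases not_and_or.1 h with h | h
  · rw [stp_of_nonpos (t := k * (‖z.fst‖ ^ 2 - r₀ ^ 2)), zero_mul, zero_mul]
    rw [not_le] at h
    exact mul_nonpos_of_nonneg_of_nonpos hk.le (by nlinarith)
  rcases not_and_or.1 h with h | h
  · rw [stp_of_nonpos (t := k * (R₁ ^ 2 - ‖z.fst‖ ^ 2)), mul_zero, zero_mul]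
    rw [not_le] at h
    exact mul_nonpos_of_nonneg_of_nonpos hk.le (by nlinarith)
  · rw [stp_of_nonpos (t := k * ((1 - ‖z.fst‖) ^ 2 - ‖z.snd‖ ^ 2 / ε ^ 2) - 1), mul_zero]
    rw [not_le] at h
    linarith

/-- the closed set containing the support -/
def Ks (b : ℕ) (ε r₀ R₁ k : ℝ) : Set (W b) :=
  {z | r₀ ≤ ‖z.fst‖ ∧ ‖z.fst‖ ≤ R₁ ∧ 1 ≤ k * ((1 - ‖z.fst‖) ^ 2 - ‖z.snd‖ ^ 2 / ε ^ 2)}

theorem cont_fst_norm : Continuous fun z : W b => ‖z.fst‖ := by fun_prop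

theorem cont_snd_norm : Continuous fun z : W b => ‖z.snd‖ := by fun_prop

theorem Ks_closed (b : ℕ) (ε r₀ R₁ k : ℝ) : IsClosed (Ks b ε r₀ R₁ k) := by
  have h1 := cont_fst_norm (b := b)
  have h2 := cont_snd_norm (b := b)
  have h3 : Continuous fun z : W b => k * ((1 - ‖z.fst‖) ^ 2 - ‖z.snd‖ ^ 2 / ε ^ 2) := by fun_prop
  have e : Ks b ε r₀ R₁ k = {z : W b | r₀ ≤ ‖z.fst‖} ∩ ({z : W b | ‖z.fst‖ ≤ R₁} ∩
    {z : W b | 1 ≤ k * ((1 - ‖z.fst‖) ^ 2 - ‖z.snd‖ ^ 2 / ε ^ 2)}) := rfl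
  rw [e]
  exact (isClosed_le continuous_const h1).inter ((isClosed_le h1 continuous_const).inter
    (isClosed_le continuous_const h3))

theorem Ks_sub {ε r₀ R₁ k : ℝ} (hR1 : R₁ < 1) (hk : 0 < k) :
    Ks b ε r₀ R₁ k ⊆ Om b ε := by
  rintro z ⟨_, h2, h3⟩
  rw [mem_Om]
  have h4 : 0 < (1 - ‖z.fst‖) ^ 2 - ‖z.snd‖ ^ 2 / ε ^ 2 := by
    by_contra hcon
    rw [not_lt] at hcon
    have := mul_nonpos_of_nonneg_of_nonpos hk.le hcon
    linarith
  have h5 : (‖z.snd‖ / ε) ^ 2 < (1 - ‖z.fst‖) ^ 2 := by rw [div_pow]; linarith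
  have h6 : ‖z.snd‖ / ε < 1 - ‖z.fst‖ := lt_of_pow_lt_pow_left₀ 2 (by linarith) h5
  linarith

theorem contDiff_GG {ε r₀ R₁ k σ : ℝ} {u : ℂ} (hσ : 0 < σ) (hr₀ : 0 < r₀) (hR : r₀ < R₁)
    (hR1 : R₁ < 1) (hk : 0 < k) : ContDiff ℝ 1 (GG (b := b) ε r₀ R₁ k σ u) := by
  rw [contDiff_iff_contDiffAt]
  intro z
  by_cases hz : z.fst = 0
  · have : GG (b := b) ε r₀ R₁ k σ u =ᶠ[𝓝 z] fun _ => 0 := by
      have h1 : ∀ᶠ w : W b in 𝓝 z, ‖w.fst‖ < r₀ := by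
        have := (cont_fst_norm (b := b)).tendsto z
        rw [hz, norm_zero] at this
        exact this.eventually (gt_mem_nhds hr₀)
      filter_upwards [h1] with w hw
      unfold GG
      rw [zet_zero_of hr₀ hR hR1 hk (fun h => absurd h.1 (not_le.2 hw))]
      simp
    exact contDiffAt_const.congr_of_eventuallyEq this
  · have hf : ContDiffAt ℝ 1 (fun z : W b => z.fst) z := (fstL b).contDiff.contDiffAt
    have hs : ContDiffAt ℝ 1 (fun z : W b => z.snd) z := (sndL b).contDiff.contDiffAt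
    have hn : ContDiffAt ℝ 1 (fun z : W b => ‖z.fst‖) z := hf.norm ℝ hz
    have hn0 : ‖z.fst‖ ≠ 0 := norm_ne_zero_iff.2 hz
    have hm : ContDiffAt ℝ 1 (fun z : W b => ‖z.snd‖ ^ 2) z := hs.norm_sq ℝ
    have him : ContDiffAt ℝ 1 (fun z : W b => (z.fst * u).im) z :=
      Complex.imCLM.contDiff.contDiffAt.comp z (hf.mul contDiffAt_const)
    have hz1 : ContDiffAt ℝ 1 (zet (b := b) ε r₀ R₁ k) z := by
      unfold zet
      refine ((contDiff_stp.contDiffAt.comp z ?_).mul (contDiff_stp.contDiffAt.comp z ?_)).mul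
        (contDiff_stp.contDiffAt.comp z ?_)
      · exact contDiffAt_const.mul ((hn.pow 2).sub contDiffAt_const)
      · exact contDiffAt_const.mul (contDiffAt_const.sub (hn.pow 2))
      · exact (contDiffAt_const.mul (((contDiffAt_const.sub hn).pow 2).sub
          (hm.div_const _))).sub contDiffAt_const
    unfold GG
    refine (hz1.div hn hn0).mul (contDiff_gg.contDiffAt.comp z ?_)
    exact him.div (contDiffAt_const.mul hn) (mul_ne_zero hσ.ne' hn0)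

/-- the field -/
noncomputable def PH (ε r₀ R₁ k σ : ℝ) (u : ℂ) (z : W b) : W b :=
  GG ε r₀ R₁ k σ u z • JJ b z

theorem tst_PH {ε r₀ R₁ k σ : ℝ} {u : ℂ} (hε : 0 < ε) (hσ : 0 < σ) (hr₀ : 0 < r₀) (hR : r₀ < R₁)
    (hR1 : R₁ < 1) (hk : 0 < k) : Tst (Om b ε) (PH (b := b) ε r₀ R₁ k σ u) := by
  have hsup : tsupport (PH (b := b) ε r₀ R₁ k σ u) ⊆ Ks b ε r₀ R₁ k := by
    refine closure_minimal ?_ (Ks_closed b ε r₀ R₁ k)
    intro z hz
    by_contra hcon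
    apply hz
    unfold PH GG
    rw [zet_zero_of hr₀ hR hR1 hk hcon]
    simp
  have hsub := hsup.trans (Ks_sub (b := b) (r₀ := r₀) hR1 hk)
  refine ⟨(contDiff_GG hσ hr₀ hR hR1 hk).smul (JJ b).contDiff, ?_, hsub, ?_⟩
  · exact Metric.isCompact_of_isClosed_isBounded (isClosed_tsupport _) ((bdd_Om b hε).subset hsub)
  · intro z
    unfold PH GG
    rw [norm_smul, norm_JJ, Real.norm_eq_abs, abs_mul, abs_div, abs_norm,
      abs_of_nonneg (zet_nonneg _ _ _ _ _)]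
    have h1 := zet_le_one ε r₀ R₁ k z
    have h0 := zet_nonneg ε r₀ R₁ k z
    have h2 := abs_gg ((z.fst * u).im / (σ * ‖z.fst‖))
    have h3 := abs_nonneg (gg ((z.fst * u).im / (σ * ‖z.fst‖)))
    by_cases hz : ‖z.fst‖ = 0
    · rw [hz]; simp
    · calc zet ε r₀ R₁ k z / ‖z.fst‖ * |gg ((z.fst * u).im / (σ * ‖z.fst‖))| * ‖z.fst‖
          = zet ε r₀ R₁ k z * |gg ((z.fst * u).im / (σ * ‖z.fst‖))| := by
            field_simp
        _ ≤ 1 := mul_le_one₀ h1 h3 h2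

theorem dv_PH {ε r₀ R₁ k σ : ℝ} {u : ℂ} (hσ : 0 < σ) (hr₀ : 0 < r₀) (hR : r₀ < R₁)
    (hR1 : R₁ < 1) (hk : 0 < k) (z : W b) :
    dv (PH (b := b) ε r₀ R₁ k σ u) z = zet ε r₀ R₁ k z * HH σ u z.fst := by
  have hG := (contDiff_GG (b := b) (ε := ε) (u := u) hσ hr₀ hR hR1 hk).differentiable (by norm_num) z
  unfold PH
  rw [Div.dv_smul hG (JJ b).differentiableAt, dv_JJ, mul_zero, zero_add]
  have hG' : HasFDerivAt (GG (b := b) ε r₀ R₁ k σ u)
      (fderiv ℝ (GG (b := b) ε r₀ R₁ k σ u) z) (rot 0 z) := by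
    rw [rot_zero]; exact hG.hasFDerivAt
  have h1 := hG'.comp_hasDerivAt (0 : ℝ) (hasDeriv_rot z)
  exact h1.unique (hasDeriv_GG_rot ε r₀ R₁ k σ u z)

end Pool.Agent.H1.CN
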