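import Pool.Agent.H1.CN.D

/-!
# MP_65ff7c_an, part E: the lower bound by the rotational field (T4)
-/

set_option autoImplicit false

namespace Pool.Agent.H1.CN

open MeasureTheory Set Metric Pool.Agent.TH703.Cone Filter Topology
open scoped ENNReal InnerProductSpace

variable {b : ℕ}

theorem HH_abs {σ r₀ : ℝ} {u x : ℂ} (hσ : 0 < σ) (hr₀ : 0 < r₀) (hu : ‖u‖ = 1) (hx : r₀ ≤ ‖x‖) :
    |HH σ u x| ≤ 3 / (2 * σ * r₀) := by
  have hx0 : 0 < ‖x‖ := lt_of_lt_of_le hr₀ hx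
  unfold HH
  rw [abs_mul, abs_of_nonneg (gg'_nonneg _), abs_div, abs_of_pos (by positivity : 0 < σ * ‖x‖ ^ 2)]
  have h1 : |(x * u).re| ≤ ‖x‖ := by
    refine (Complex.abs_re_le_norm _).trans ?_
    rw [norm_mul, hu, mul_one]
  calc gg' ((x * u).im / (σ * ‖x‖)) * (|(x * u).re| / (σ * ‖x‖ ^ 2))
      ≤ 3 / 2 * (‖x‖ / (σ * ‖x‖ ^ 2)) := by
        apply mul_le_mul (gg'_le _) _ (by positivity) (by norm_num)
        gcongr
    _ = 3 / (2 * σ * ‖x‖) := by field_simp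
    _ ≤ 3 / (2 * σ * r₀) := by gcongr

theorem HH_nonneg {σ : ℝ} {u x : ℂ} (hσ : 0 < σ) (h : 0 ≤ (x * u).re) : 0 ≤ HH σ u x :=
  mul_nonneg (gg'_nonneg _) (by positivity)

theorem HH_zero {σ r₀ R₁ : ℝ} {u x : ℂ} (hσ : 0 < σ) (hr₀ : 0 < r₀) (h0 : r₀ ≤ ‖x‖)
    (h1 : ‖x‖ ≤ R₁) (hp : x ∉ Wp u σ r₀ R₁) (hn : -x ∉ Wp u σ r₀ R₁) : HH σ u x = 0 := by
  have hx0 : 0 < ‖x‖ := lt_of_lt_of_le hr₀ h0
  unfold HH
  by_cases hi : |(x * u).im| ≤ σ * ‖x‖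
  · have h2 : ¬ 0 < (x * u).re := fun h => hp ⟨h0, h1, h, hi⟩
    have h3 : ¬ (x * u).re < 0 := fun h => hn ⟨by rwa [norm_neg], by rwa [norm_neg],
      by rw [neg_mul, Complex.neg_re]; linarith,
      by rw [neg_mul, Complex.neg_im, abs_neg, norm_neg]; exact hi⟩
    have h4 : (x * u).re = 0 := by linarith
    rw [h4, zero_div, mul_zero]
  · rw [gg'_zero, zero_mul]
    rw [abs_div, abs_of_pos (by positivity : 0 < σ * ‖x‖), le_div_iff₀ (by positivity), one_mul]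
    exact (not_le.1 hi).le

/-- the measurable wedge in the body -/
theorem meas_Wp (u : ℂ) (σ r₀ R₁ : ℝ) : MeasurableSet (Wp u σ r₀ R₁) := by
  have e : Wp u σ r₀ R₁ = {x : ℂ | r₀ ≤ ‖x‖} ∩ ({x : ℂ | ‖x‖ ≤ R₁} ∩
      ({x : ℂ | 0 < (x * u).re} ∩ {x : ℂ | |(x * u).im| ≤ σ * ‖x‖})) := rfl
  rw [e]
  refine MeasurableSet.inter ?_ (MeasurableSet.inter ?_ (MeasurableSet.inter ?_ ?_))
  · exact measurableSet_le measurable_const (by fun_prop)
  · exact measurableSet_le (by fun_prop) measurable_const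
  · exact measurableSet_lt measurable_const (by fun_prop)
  · exact measurableSet_le (by fun_prop) (by fun_prop)

theorem HH_meas (σ : ℝ) (u : ℂ) : Measurable (HH σ u) := by
  unfold HH
  exact (cont_gg'.measurable.comp (by fun_prop)).mul (by fun_prop)

theorem step1 {ε P σ r₀ R₁ k : ℝ} {A : Set (W b)} {u : ℂ} (hε : 0 < ε) (hA : MeasurableSet A)
    (hAΩ : A ⊆ Om b ε) (hP : PLE (Om b ε) A P) (hu : ‖u‖ = 1) (hσ : 0 < σ) (hr₀ : 0 < r₀)
    (hR : r₀ < R₁) (hR1 : R₁ < 1) (hk : 0 < k) :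
    ∫ z in {z : W b | z ∈ Om b ε ∧ z.fst ∈ Wp u σ r₀ R₁}, zet ε r₀ R₁ k z * HH σ u z.fst ≤
      P + 3 / (2 * σ * r₀) *
      (volume.real {z | z ∈ Om b ε \ A ∧ z.fst ∈ Wp u σ r₀ R₁} +
        volume.real {z | z ∈ A ∧ -z.fst ∈ Wp u σ r₀ R₁}) := by
  have hT := tst_PH (b := b) (u := u) hε hσ hr₀ hR hR1 hk
  have h1 := hP _ hT
  simp_rw [dv_PH hσ hr₀ hR hR1 hk] at h1
  set M : ℝ := 3 / (2 * σ * r₀) with hM
  have hM0 : 0 ≤ M := by positivity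
  have hOm := (isOpen_Om b ε).measurableSet
  have hOmfin : volume (Om b ε) ≠ ⊤ := (bdd_Om b hε).measure_lt_top.ne
  have hWp : MeasurableSet {z : W b | z.fst ∈ Wp u σ r₀ R₁} := meas_fst (meas_Wp u σ r₀ R₁)
  have hWn : MeasurableSet {z : W b | -z.fst ∈ Wp u σ r₀ R₁} :=
    (meas_fst.neg) (meas_Wp u σ r₀ R₁)
  have hS : MeasurableSet {z : W b | z ∈ Om b ε ∧ z.fst ∈ Wp u σ r₀ R₁} := hOm.inter hWp
  have hS1 : MeasurableSet {z : W b | z ∈ Om b ε \ A ∧ z.fst ∈ Wp u σ r₀ R₁} :=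
    (hOm.diff hA).inter hWp
  have hS2 : MeasurableSet {z : W b | z ∈ A ∧ -z.fst ∈ Wp u σ r₀ R₁} := hA.inter hWn
  set f : W b → ℝ := fun z => zet ε r₀ R₁ k z * HH σ u z.fst with hf
  have hfi : Integrable f := by
    have := Div.integrable_dv hT.c1 hT.cs
    exact this.congr (Eventually.of_forall fun z => dv_PH hσ hr₀ hR hR1 hk z)
  have hfb : ∀ z, |f z| ≤ M := by
    intro z
    by_cases hz : r₀ ≤ ‖z.fst‖
    · change |zet ε r₀ R₁ k z * HH σ u z.fst| ≤ M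
      rw [abs_mul, abs_of_nonneg (zet_nonneg _ _ _ _ _)]
      have h2 := zet_le_one ε r₀ R₁ k z
      have h3 := HH_abs (x := z.fst) hσ hr₀ hu hz
      have h4 := abs_nonneg (HH σ u z.fst)
      have h5 := zet_nonneg ε r₀ R₁ k z
      nlinarith
    · change |zet ε r₀ R₁ k z * HH σ u z.fst| ≤ M
      rw [zet_zero_of hr₀ hR hR1 hk (fun h => hz h.1), zero_mul, abs_zero]
      exact hM0
  have hpt : ∀ z, ({z : W b | z ∈ Om b ε ∧ z.fst ∈ Wp u σ r₀ R₁}).indicator f z ≤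
      A.indicator f z + (({z | z ∈ Om b ε \ A ∧ z.fst ∈ Wp u σ r₀ R₁}).indicator (fun _ => M) z +
        ({z | z ∈ A ∧ -z.fst ∈ Wp u σ r₀ R₁}).indicator (fun _ => M) z) := by
    intro z
    have hi0 : ∀ S : Set (W b), 0 ≤ S.indicator (fun _ => M) z := fun S =>
      indicator_nonneg (fun _ _ => hM0) z
    by_cases hzΩ : z ∈ Om b ε
    · by_cases hzA : z ∈ A
      · rw [indicator_of_mem hzA]
        by_cases hzp : z.fst ∈ Wp u σ r₀ R₁
        · rw [indicator_of_mem (show z ∈ {z : W b | z ∈ Om b ε ∧ z.fst ∈ Wp u σ r₀ R₁} from ⟨hzΩ, hzp⟩)]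
          linarith [hi0 {z | z ∈ Om b ε \ A ∧ z.fst ∈ Wp u σ r₀ R₁}, hi0 {z | z ∈ A ∧ -z.fst ∈ Wp u σ r₀ R₁}]
        · rw [indicator_of_notMem (show z ∉ {z : W b | z ∈ Om b ε ∧ z.fst ∈ Wp u σ r₀ R₁} from fun h => hzp h.2)]
          by_cases hzn : -z.fst ∈ Wp u σ r₀ R₁
          · rw [indicator_of_mem (show z ∈ {z : W b | z ∈ A ∧ -z.fst ∈ Wp u σ r₀ R₁} from ⟨hzA, hzn⟩)]
            have := (abs_le.1 (hfb z)).1
            linarith [hi0 {z | z ∈ Om b ε \ A ∧ z.fst ∈ Wp u σ r₀ R₁}]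
          · have h0 : f z = 0 := by
              change zet ε r₀ R₁ k z * HH σ u z.fst = 0
              by_cases hr : r₀ ≤ ‖z.fst‖ ∧ ‖z.fst‖ ≤ R₁
              · rw [HH_zero hσ hr₀ hr.1 hr.2 hzp hzn, mul_zero]
              · rw [zet_zero_of hr₀ hR hR1 hk (fun h => hr ⟨h.1, h.2.1⟩), zero_mul]
            rw [h0]
            linarith [hi0 {z | z ∈ Om b ε \ A ∧ z.fst ∈ Wp u σ r₀ R₁}, hi0 {z | z ∈ A ∧ -z.fst ∈ Wp u σ r₀ R₁}]
      · rw [indicator_of_notMem hzA]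
        by_cases hzp : z.fst ∈ Wp u σ r₀ R₁
        · rw [indicator_of_mem (show z ∈ {z : W b | z ∈ Om b ε ∧ z.fst ∈ Wp u σ r₀ R₁} from ⟨hzΩ, hzp⟩),
            indicator_of_mem (show z ∈ {z : W b | z ∈ Om b ε \ A ∧ z.fst ∈ Wp u σ r₀ R₁} from ⟨⟨hzΩ, hzA⟩, hzp⟩)]
          have := (abs_le.1 (hfb z)).2
          linarith [hi0 {z | z ∈ A ∧ -z.fst ∈ Wp u σ r₀ R₁}]
        · rw [indicator_of_notMem (show z ∉ {z : W b | z ∈ Om b ε ∧ z.fst ∈ Wp u σ r₀ R₁} from fun h => hzp h.2)]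
          linarith [hi0 {z | z ∈ Om b ε \ A ∧ z.fst ∈ Wp u σ r₀ R₁}, hi0 {z | z ∈ A ∧ -z.fst ∈ Wp u σ r₀ R₁}]
    · rw [indicator_of_notMem (show z ∉ {z : W b | z ∈ Om b ε ∧ z.fst ∈ Wp u σ r₀ R₁} from fun h => hzΩ h.1),
        indicator_of_notMem (show z ∉ A from fun h => hzΩ (hAΩ h))]
      linarith [hi0 {z | z ∈ Om b ε \ A ∧ z.fst ∈ Wp u σ r₀ R₁}, hi0 {z | z ∈ A ∧ -z.fst ∈ Wp u σ r₀ R₁}]
  have hfin1 : volume {z : W b | z ∈ Om b ε \ A ∧ z.fst ∈ Wp u σ r₀ R₁} ≠ ⊤ :=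
    ne_top_of_le_ne_top hOmfin (measure_mono fun z hz => hz.1.1)
  have hfin2 : volume {z : W b | z ∈ A ∧ -z.fst ∈ Wp u σ r₀ R₁} ≠ ⊤ :=
    ne_top_of_le_ne_top hOmfin (measure_mono fun z hz => hAΩ hz.1)
  have hi1 : Integrable (({z : W b | z ∈ Om b ε \ A ∧ z.fst ∈ Wp u σ r₀ R₁}).indicator (fun _ => M)) :=
    (integrable_indicator_iff hS1).2 (integrableOn_const hfin1 (by simp))
  have hi2 : Integrable (({z : W b | z ∈ A ∧ -z.fst ∈ Wp u σ r₀ R₁}).indicator (fun _ => M)) :=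
    (integrable_indicator_iff hS2).2 (integrableOn_const hfin2 (by simp))
  have hi3 : Integrable (A.indicator f) := hfi.indicator hA
  have hint := integral_mono (hfi.indicator hS) (hi3.add (hi1.add hi2)) hpt
  rw [integral_indicator hS] at hint
  have e3 : ∫ z, (A.indicator f + (({z : W b | z ∈ Om b ε \ A ∧ z.fst ∈ Wp u σ r₀ R₁}).indicator (fun _ => M) +
      ({z : W b | z ∈ A ∧ -z.fst ∈ Wp u σ r₀ R₁}).indicator (fun _ => M))) z =
      (∫ z in A, f z) + M * (volume.real {z | z ∈ Om b ε \ A ∧ z.fst ∈ Wp u σ r₀ R₁} +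
        volume.real {z | z ∈ A ∧ -z.fst ∈ Wp u σ r₀ R₁}) := by
    rw [integral_add' hi3 (hi1.add hi2), integral_add' hi1 hi2, integral_indicator hA,
      integral_indicator_const _ hS1, integral_indicator_const _ hS2]
    simp only [smul_eq_mul]
    ring
  rw [e3] at hint
  linarith

theorem stp_lim {c : ℝ} (hc : 0 < c) (d : ℝ) :
    Tendsto (fun n : ℕ => stp (((n : ℝ) + 1) * c - d)) atTop (𝓝 1) := by
  apply tendsto_const_nhds.congr'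
  obtain ⟨N, hN⟩ := exists_nat_gt ((1 + d) / c)
  filter_upwards [eventually_ge_atTop N] with n hn
  rw [stp_of_one_le]
  have h1 : (N : ℝ) ≤ n := by exact_mod_cast hn
  rw [div_lt_iff₀ hc] at hN
  nlinarith

/-- limit of the cutoffs -/
theorem zet_lim {ε r₀ R₁ : ℝ} (hε : 0 < ε) (hr₀ : 0 < r₀) (hR : r₀ < R₁) {z : W b}
    (hz : z ∈ Om b ε) (h0 : r₀ ≤ ‖z.fst‖) (h1 : ‖z.fst‖ ≤ R₁) :
    Tendsto (fun n : ℕ => zet ε r₀ R₁ ((n : ℝ) + 1) z) atTop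
      (𝓝 ((Ioo r₀ R₁).indicator (fun _ => (1 : ℝ)) ‖z.fst‖)) := by
  have h3 : 0 < (1 - ‖z.fst‖) ^ 2 - ‖z.snd‖ ^ 2 / ε ^ 2 := by
    rw [mem_Om] at hz
    have h4 : ‖z.snd‖ / ε < 1 - ‖z.fst‖ := by linarith
    have h5 : 0 ≤ ‖z.snd‖ / ε := by positivity
    rw [← div_pow]
    nlinarith
  have hc := stp_lim h3 1
  by_cases hm : ‖z.fst‖ ∈ Ioo r₀ R₁
  · rw [indicator_of_mem hm]
    have ha := stp_lim (c := ‖z.fst‖ ^ 2 - r₀ ^ 2) (by nlinarith [hm.1]) 0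
    have hb := stp_lim (c := R₁ ^ 2 - ‖z.fst‖ ^ 2) (by nlinarith [hm.2]) 0
    simp only [sub_zero] at ha hb
    have := (ha.mul hb).mul hc
    simpa [zet] using this
  · rw [indicator_of_notMem hm]
    apply tendsto_const_nhds.congr
    intro n
    unfold zet
    rcases h0.eq_or_lt with h | h
    · rw [← h, sub_self, mul_zero, stp_of_nonpos le_rfl, zero_mul, zero_mul]
    · have h6 : ‖z.fst‖ = R₁ := by
        by_contra hne
        exact hm ⟨h, lt_of_le_of_ne h1 hne⟩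
      rw [h6, sub_self, mul_zero, stp_of_nonpos le_rfl, mul_zero, zero_mul]

theorem step2 {ε P σ r₀ R₁ : ℝ} {A : Set (W b)} {u : ℂ} (hε : 0 < ε) (hA : MeasurableSet A)
    (hAΩ : A ⊆ Om b ε) (hP : PLE (Om b ε) A P) (hu : ‖u‖ = 1) (hσ : 0 < σ) (hr₀ : 0 < r₀)
    (hR : r₀ < R₁) (hR1 : R₁ < 1) :
    ∫ z in {z : W b | z ∈ Om b ε ∧ z.fst ∈ Wp u σ r₀ R₁},
      (Ioo r₀ R₁).indicator (fun _ => (1 : ℝ)) ‖z.fst‖ * HH σ u z.fst ≤
      P + 3 / (2 * σ * r₀) *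
      (volume.real {z | z ∈ Om b ε \ A ∧ z.fst ∈ Wp u σ r₀ R₁} +
        volume.real {z | z ∈ A ∧ -z.fst ∈ Wp u σ r₀ R₁}) := by
  have hOm := (isOpen_Om b ε).measurableSet
  have hOmfin : volume (Om b ε) ≠ ⊤ := (bdd_Om b hε).measure_lt_top.ne
  have hWp : MeasurableSet {z : W b | z.fst ∈ Wp u σ r₀ R₁} := meas_fst (meas_Wp u σ r₀ R₁)
  have hS : MeasurableSet {z : W b | z ∈ Om b ε ∧ z.fst ∈ Wp u σ r₀ R₁} := hOm.inter hWp
  have hSfin : volume {z : W b | z ∈ Om b ε ∧ z.fst ∈ Wp u σ r₀ R₁} ≠ ⊤ :=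
    ne_top_of_le_ne_top hOmfin (measure_mono fun z hz => hz.1)
  have hM0 : 0 ≤ 3 / (2 * σ * r₀) := by positivity
  have hlim : Tendsto (fun n : ℕ => ∫ z in {z : W b | z ∈ Om b ε ∧ z.fst ∈ Wp u σ r₀ R₁},
      zet ε r₀ R₁ ((n : ℝ) + 1) z * HH σ u z.fst) atTop
      (𝓝 (∫ z in {z : W b | z ∈ Om b ε ∧ z.fst ∈ Wp u σ r₀ R₁},
        (Ioo r₀ R₁).indicator (fun _ => (1 : ℝ)) ‖z.fst‖ * HH σ u z.fst)) := by
    apply tendsto_integral_of_dominated_convergence (fun _ => 3 / (2 * σ * r₀))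
    · intro n
      have h1 : Measurable (zet (b := b) ε r₀ R₁ ((n : ℝ) + 1)) := by
        have hs : Measurable stp := contDiff_stp.continuous.measurable
        have h2 := (cont_fst_norm (b := b)).measurable
        have h3 := (cont_snd_norm (b := b)).measurable
        unfold zet
        exact ((hs.comp (by fun_prop)).mul (hs.comp (by fun_prop))).mul (hs.comp (by fun_prop))
      exact (h1.mul ((HH_meas σ u).comp meas_fst)).aestronglyMeasurable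
    · exact integrableOn_const hSfin (by simp)
    · intro n
      refine (ae_restrict_iff' hS).2 (Eventually.of_forall fun z hz => ?_)
      rw [Real.norm_eq_abs, abs_mul, abs_of_nonneg (zet_nonneg _ _ _ _ _)]
      have h2 := zet_le_one ε r₀ R₁ ((n : ℝ) + 1) z
      have h3 := HH_abs (x := z.fst) hσ hr₀ hu hz.2.1
      have h4 := abs_nonneg (HH σ u z.fst)
      have h5 := zet_nonneg ε r₀ R₁ ((n : ℝ) + 1) z
      nlinarith
    · refine (ae_restrict_iff' hS).2 (Eventually.of_forall fun z hz => ?_)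
      exact (zet_lim hε hr₀ hR hz.1 hz.2.1 hz.2.2.1).mul_const _
  refine le_of_tendsto' hlim fun n => ?_
  exact step1 hε hA hAΩ hP hu hσ hr₀ hR hR1 (by positivity)

end Pool.Agent.H1.CN
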