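import Pool.Agent.H1.CN.E

/-!
# MP_65ff7c_an, part F: computation of the main term (T4)
-/

set_option autoImplicit false

namespace Pool.Agent.H1.CN

open MeasureTheory Set Metric Pool.Agent.TH703.Cone Filter Topology
open scoped ENNReal InnerProductSpace

variable {b : ℕ}

open Classical in
/-- angular part -/
noncomputable def Th (σ θ : ℝ) : ℝ :=
  if 0 < Real.cos θ then gg' (Real.sin θ / σ) * (Real.cos θ / σ) else 0

open Classical in
/-- planar density -/
noncomputable def KK (b : ℕ) (σ r₀ R₁ : ℝ) (w : ℂ) : ℝ≥0∞ :=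
  ENNReal.ofReal ((Ioo r₀ R₁).indicator (fun s => (1 - s) ^ b) ‖w‖) *
    ENNReal.ofReal (if 0 < w.re then gg' (w.im / (σ * ‖w‖)) * (w.re / (σ * ‖w‖ ^ 2)) else 0)

theorem KK_meas (b : ℕ) (σ r₀ R₁ : ℝ) : Measurable (KK b σ r₀ R₁) := by
  have h1 : Measurable fun w : ℂ => ENNReal.ofReal ((Ioo r₀ R₁).indicator (fun s => (1 - s) ^ b) ‖w‖) := by
    refine ENNReal.measurable_ofReal.comp ?_
    exact (Measurable.indicator (by fun_prop) measurableSet_Ioo).comp measurable_norm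
  have h2 : Measurable fun w : ℂ => ENNReal.ofReal
      (if 0 < w.re then gg' (w.im / (σ * ‖w‖)) * (w.re / (σ * ‖w‖ ^ 2)) else 0) := by
    refine ENNReal.measurable_ofReal.comp ?_
    refine Measurable.ite (measurableSet_lt measurable_const Complex.measurable_re) ?_ measurable_const
    have h3 : Measurable fun w : ℂ => w.re := Complex.measurable_re
    have h4 : Measurable fun w : ℂ => w.im := Complex.measurable_im
    exact (cont_gg'.measurable.comp (by fun_prop)).mul (by fun_prop)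
  exact h1.mul h2

theorem int_Th {σ : ℝ} (hσ : 0 < σ) (hσ1 : σ ≤ 1 / 2) :
    ENNReal.ofReal 2 ≤ ∫⁻ θ in Ioo (-Real.pi) Real.pi, ENNReal.ofReal (Th σ θ) := by
  have hpi := Real.pi_pos
  have hc : Continuous fun θ : ℝ => gg' (Real.sin θ / σ) * (Real.cos θ / σ) :=
    (cont_gg'.comp (by fun_prop)).mul (by fun_prop)
  have h1 : ∀ θ : ℝ, HasDerivAt (fun θ => gg (Real.sin θ / σ))
      (gg' (Real.sin θ / σ) * (Real.cos θ / σ)) θ := fun θ =>
    (hasDeriv_gg _).comp θ ((Real.hasDerivAt_sin θ).div_const σ)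
  have h2 : ∫ θ in (-(Real.pi / 2))..(Real.pi / 2), gg' (Real.sin θ / σ) * (Real.cos θ / σ) = 2 := by
    rw [intervalIntegral.integral_eq_sub_of_hasDerivAt (fun x _ => h1 x) (hc.intervalIntegrable _ _)]
    rw [Real.sin_neg, Real.sin_pi_div_two, gg_one, gg_neg_one]
    · norm_num
    · rw [div_le_iff₀ hσ]; linarith
    · rw [le_div_iff₀ hσ]; linarith
  rw [← h2, intervalIntegral.integral_of_le (by linarith),
    ofReal_integral_eq_lintegral_ofReal]
  · rw [← setLIntegral_congr Ioo_ae_eq_Ioc]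
    calc ∫⁻ θ in Ioo (-(Real.pi / 2)) (Real.pi / 2),
          ENNReal.ofReal (gg' (Real.sin θ / σ) * (Real.cos θ / σ))
        = ∫⁻ θ in Ioo (-(Real.pi / 2)) (Real.pi / 2), ENNReal.ofReal (Th σ θ) := by
          refine setLIntegral_congr_fun measurableSet_Ioo fun θ hθ => ?_
          unfold Th
          rw [if_pos (Real.cos_pos_of_mem_Ioo hθ)]
      _ ≤ _ := lintegral_mono_set (Ioo_subset_Ioo (by linarith) (by linarith))
  · exact (hc.integrableOn_Icc).mono_set Ioc_subset_Icc_self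
  · refine (ae_restrict_iff' measurableSet_Ioc).2 (Eventually.of_forall fun θ hθ => ?_)
    have := Real.cos_nonneg_of_mem_Icc (Ioc_subset_Icc_self hθ)
    exact mul_nonneg (gg'_nonneg _) (by positivity)

theorem Th_meas (σ : ℝ) : Measurable (Th σ) := by
  unfold Th
  refine Measurable.ite (measurableSet_lt measurable_const (by fun_prop)) ?_ measurable_const
  exact (cont_gg'.measurable.comp (by fun_prop)).mul (by fun_prop)

theorem int_KK {σ r₀ R₁ : ℝ} (hσ : 0 < σ) (hσ1 : σ ≤ 1 / 2) (hr₀ : 0 < r₀) (hR : r₀ < R₁)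
    (hR1 : R₁ < 1) :
    ENNReal.ofReal (2 * ∫ s in r₀..R₁, (1 - s) ^ b) ≤ ∫⁻ w, KK b σ r₀ R₁ w := by
  rw [← Complex.lintegral_comp_polarCoord_symm]
  have e1 : polarCoord.target = Ioi (0 : ℝ) ×ˢ Ioo (-Real.pi) Real.pi := rfl
  have e2 : ∫⁻ p in polarCoord.target, ENNReal.ofReal p.1 • KK b σ r₀ R₁ (Complex.polarCoord.symm p) =
      ∫⁻ p in Ioi (0 : ℝ) ×ˢ Ioo (-Real.pi) Real.pi,
        ENNReal.ofReal ((Ioo r₀ R₁).indicator (fun s => (1 - s) ^ b) p.1) *
          ENNReal.ofReal (Th σ p.2) := by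
    rw [e1]
    refine setLIntegral_congr_fun (measurableSet_Ioi.prod measurableSet_Ioo) fun p hp => ?_
    have hp1 : 0 < p.1 := hp.1
    have hn : ‖Complex.polarCoord.symm p‖ = p.1 := by
      rw [Complex.norm_polarCoord_symm, abs_of_pos hp1]
    have hre : (Complex.polarCoord.symm p).re = p.1 * Real.cos p.2 := by
      rw [Complex.polarCoord_symm_apply]
      simp [-Complex.ofReal_cos, -Complex.ofReal_sin]
    have him : (Complex.polarCoord.symm p).im = p.1 * Real.sin p.2 := by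
      rw [Complex.polarCoord_symm_apply]
      simp [-Complex.ofReal_cos, -Complex.ofReal_sin]
    simp only [KK, smul_eq_mul]
    rw [hn, hre, him]
    unfold Th
    by_cases hc : 0 < Real.cos p.2
    · rw [if_pos hc, if_pos (mul_pos hp1 hc)]
      rw [← mul_assoc, mul_comm (ENNReal.ofReal p.1), mul_assoc, ← ENNReal.ofReal_mul hp1.le]
      congr 2
      have e3 : p.1 * Real.sin p.2 / (σ * p.1) = Real.sin p.2 / σ := by field_simp
      rw [e3]
      field_simp
    · rw [if_neg hc, if_neg (fun h => hc ((mul_pos_iff_of_pos_left hp1).1 h))]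
      simp
  rw [e2, Measure.volume_eq_prod, ← Measure.prod_restrict]
  have hm1 : Measurable fun s : ℝ => ENNReal.ofReal ((Ioo r₀ R₁).indicator (fun s => (1 - s) ^ b) s) :=
    ENNReal.measurable_ofReal.comp (Measurable.indicator (by fun_prop) measurableSet_Ioo)
  have hm2 : Measurable fun s : ℝ => ENNReal.ofReal (Th σ s) :=
    ENNReal.measurable_ofReal.comp (Th_meas σ)
  have e4 := lintegral_prod_mul (μ := volume.restrict (Ioi (0 : ℝ)))
    (ν := volume.restrict (Ioo (-Real.pi) Real.pi)) hm1.aemeasurable hm2.aemeasurable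
  rw [e4]
  have hI : 0 ≤ ∫ s in r₀..R₁, (1 - s) ^ b := by
    apply intervalIntegral.integral_nonneg hR.le
    intro s hs
    have : 0 ≤ 1 - s := by linarith [hs.2]
    positivity
  rw [mul_comm (2 : ℝ), ENNReal.ofReal_mul hI]
  refine mul_le_mul' ?_ (int_Th hσ hσ1)
  rw [intervalIntegral.integral_of_le hR.le, ofReal_integral_eq_lintegral_ofReal]
  · rw [← setLIntegral_congr Ioo_ae_eq_Ioc]
    calc ∫⁻ s in Ioo r₀ R₁, ENNReal.ofReal ((1 - s) ^ b)
        = ∫⁻ s in Ioo r₀ R₁, ENNReal.ofReal ((Ioo r₀ R₁).indicator (fun s => (1 - s) ^ b) s) := by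
          refine setLIntegral_congr_fun measurableSet_Ioo fun s hs => ?_
          rw [indicator_of_mem hs]
      _ ≤ _ := lintegral_mono_set fun s hs => lt_trans hr₀ hs.1
  · exact ((by fun_prop : Continuous fun s : ℝ => (1 - s) ^ b).integrableOn_Icc).mono_set
      Ioc_subset_Icc_self
  · refine (ae_restrict_iff' measurableSet_Ioc).2 (Eventually.of_forall fun s hs => ?_)
    have : 0 ≤ 1 - s := by linarith [hs.2]
    exact pow_nonneg this b

theorem step3 {ε σ r₀ R₁ : ℝ} {u : ℂ} (hb : 1 ≤ b) (hε : 0 < ε) (hu : ‖u‖ = 1) (hσ : 0 < σ)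
    (hσ1 : σ ≤ 1 / 2) (hr₀ : 0 < r₀) (hR : r₀ < R₁) (hR1 : R₁ < 1) :
    vb b ε * (2 * ∫ ρ in r₀..R₁, (1 - ρ) ^ b) ≤
      ∫ z in {z : W b | z ∈ Om b ε ∧ z.fst ∈ Wp u σ r₀ R₁},
        (Ioo r₀ R₁).indicator (fun _ => (1 : ℝ)) ‖z.fst‖ * HH σ u z.fst := by
  have hOm := (isOpen_Om b ε).measurableSet
  have hOmfin : volume (Om b ε) ≠ ⊤ := (bdd_Om b hε).measure_lt_top.ne
  have hWp : MeasurableSet {z : W b | z.fst ∈ Wp u σ r₀ R₁} := meas_fst (meas_Wp u σ r₀ R₁)
  have hS : MeasurableSet {z : W b | z ∈ Om b ε ∧ z.fst ∈ Wp u σ r₀ R₁} := hOm.inter hWp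
  have hSfin : volume {z : W b | z ∈ Om b ε ∧ z.fst ∈ Wp u σ r₀ R₁} ≠ ⊤ :=
    ne_top_of_le_ne_top hOmfin (measure_mono fun z hz => hz.1)
  have hM0 : 0 ≤ 3 / (2 * σ * r₀) := by positivity
  have hIm : Measurable fun x : ℂ => (Ioo r₀ R₁).indicator (fun _ => (1 : ℝ)) ‖x‖ * HH σ u x :=
    ((measurable_const.indicator measurableSet_Ioo).comp measurable_norm).mul (HH_meas σ u)
  have hnn : ∀ x ∈ Wp u σ r₀ R₁, 0 ≤ (Ioo r₀ R₁).indicator (fun _ => (1 : ℝ)) ‖x‖ * HH σ u x := by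
    intro x hx
    exact mul_nonneg (indicator_nonneg (fun _ _ => zero_le_one) _) (HH_nonneg hσ hx.2.2.1.le)
  rw [integral_eq_lintegral_of_nonneg_ae]
  rotate_left
  · exact (ae_restrict_iff' hS).2 (Eventually.of_forall fun z hz => hnn _ hz.2)
  · exact (hIm.comp meas_fst).aestronglyMeasurable
  -- finiteness
  have hfin : ∫⁻ z in {z : W b | z ∈ Om b ε ∧ z.fst ∈ Wp u σ r₀ R₁},
      ENNReal.ofReal ((Ioo r₀ R₁).indicator (fun _ => (1 : ℝ)) ‖z.fst‖ * HH σ u z.fst) ≠ ⊤ := by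
    refine ne_top_of_le_ne_top ?_ (setLIntegral_mono' hS (g := fun _ => ENNReal.ofReal (3 / (2 * σ * r₀))) ?_)
    · rw [setLIntegral_const]
      exact ENNReal.mul_ne_top ENNReal.ofReal_ne_top hSfin
    · intro z hz
      apply ENNReal.ofReal_le_ofReal
      have h1 := (le_abs_self _).trans (HH_abs (x := z.fst) hσ hr₀ hu hz.2.1)
      have h2 := HH_nonneg (x := z.fst) hσ hz.2.2.2.1.le
      by_cases hm : ‖z.fst‖ ∈ Ioo r₀ R₁
      · rw [indicator_of_mem hm, one_mul]; exact h1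
      · rw [indicator_of_notMem hm, zero_mul]; exact hM0
  have hI : 0 ≤ ∫ s in r₀..R₁, (1 - s) ^ b := by
    apply intervalIntegral.integral_nonneg hR.le
    intro s hs
    have : 0 ≤ 1 - s := by linarith [hs.2]
    positivity
  have hvb := (vb_pos (b := b) hε).le
  rw [← ENNReal.ofReal_le_iff_le_toReal hfin, ENNReal.ofReal_mul hvb]
  -- rewrite as an integral over the body
  set q : ℂ → ℝ≥0∞ := (Wp u σ r₀ R₁).indicator (fun x =>
    ENNReal.ofReal ((Ioo r₀ R₁).indicator (fun _ => (1 : ℝ)) ‖x‖ * HH σ u x)) with hq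
  have hqm : Measurable q :=
    (ENNReal.measurable_ofReal.comp hIm).indicator (meas_Wp u σ r₀ R₁)
  have e1 : ∫⁻ z in {z : W b | z ∈ Om b ε ∧ z.fst ∈ Wp u σ r₀ R₁},
      ENNReal.ofReal ((Ioo r₀ R₁).indicator (fun _ => (1 : ℝ)) ‖z.fst‖ * HH σ u z.fst) =
      ∫⁻ z in Om b ε, q z.fst := by
    rw [← lintegral_indicator hS, ← lintegral_indicator hOm]
    refine lintegral_congr fun z => ?_
    by_cases h1 : z ∈ Om b ε
    · rw [indicator_of_mem h1]
      by_cases h2 : z.fst ∈ Wp u σ r₀ R₁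
      · rw [indicator_of_mem (show z ∈ {z : W b | z ∈ Om b ε ∧ z.fst ∈ Wp u σ r₀ R₁} from ⟨h1, h2⟩), hq,
          indicator_of_mem h2]
      · rw [indicator_of_notMem (show z ∉ {z : W b | z ∈ Om b ε ∧ z.fst ∈ Wp u σ r₀ R₁} from fun h => h2 h.2),
          hq, indicator_of_notMem h2]
    · rw [indicator_of_notMem h1, indicator_of_notMem
        (show z ∉ {z : W b | z ∈ Om b ε ∧ z.fst ∈ Wp u σ r₀ R₁} from fun h => h1 h.1)]
  rw [e1, t7a b ε hb hε q hqm]
  refine mul_le_mul' le_rfl ((int_KK (b := b) hσ hσ1 hr₀ hR hR1).trans ?_)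
  obtain ⟨a, ha⟩ : ∃ a : Circle, (a : ℂ) = u := ⟨⟨u, mem_sphere_zero_iff_norm.2 hu⟩, rfl⟩
  have hmp := (rotation a).measurePreserving
  rw [← hmp.lintegral_comp (KK_meas b σ r₀ R₁), ← lintegral_indicator measurableSet_ball]
  refine lintegral_mono fun x => ?_
  rw [rotation_apply, ha, mul_comm u x]
  have hxu : ‖x * u‖ = ‖x‖ := by rw [norm_mul, hu, mul_one]
  unfold KK
  rw [hxu]
  by_cases hm : ‖x‖ ∈ Ioo r₀ R₁
  swap
  · rw [indicator_of_notMem hm]; simp
  have hx0 : 0 < ‖x‖ := lt_trans hr₀ hm.1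
  by_cases hre : 0 < (x * u).re
  swap
  · rw [if_neg hre]; simp
  by_cases him : |(x * u).im| ≤ σ * ‖x‖
  swap
  · rw [gg'_zero, zero_mul]
    · simp
    · rw [abs_div, abs_of_pos (by positivity : 0 < σ * ‖x‖), le_div_iff₀ (by positivity), one_mul]
      exact (not_le.1 him).le
  have hW : x ∈ Wp u σ r₀ R₁ := ⟨hm.1.le, hm.2.le, hre, him⟩
  have hbx : x ∈ ball (0 : ℂ) 1 := by rw [mem_ball_zero_iff]; exact hm.2.trans hR1
  rw [indicator_of_mem hbx, hq, indicator_of_mem hW, indicator_of_mem hm, indicator_of_mem hm,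
    if_pos hre, one_mul, mul_comm]
  exact le_rfl

/-- **T4.** -/
theorem t4 : S_T4 := by
  intro b ε P A u σ r₀ R₁ hb hε hA hAΩ hP hu hσ hσ1 hr₀ hR hR1
  exact (step3 hb hε hu hσ hσ1 hr₀ hR hR1).trans (step2 hε hA hAΩ hP hu hσ hr₀ hR hR1)

end Pool.Agent.H1.CN
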