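import Mathlib

/-!
# MP_65ff7c_an, part G1: the inradius of a convex set at its barycentre
-/

set_option autoImplicit false

namespace Pool.Agent.H1.CN

open MeasureTheory Set Metric Filter Topology
open scoped ENNReal RealInnerProductSpace

variable {E : Type*} [NormedAddCommGroup E] [InnerProductSpace ℝ E] [FiniteDimensional ℝ E]
  [MeasurableSpace E] [BorelSpace E]

theorem slab (N : ℕ) (hN : 0 < N) (n : E) (hn : ‖n‖ = 1) (a : ℝ) :
    (N : ℝ≥0∞) * volume {z : E | z ∈ ball (0 : E) 1 ∧ |⟪n, z⟫ - a| < 1 / (2 * N)} ≤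
      volume (ball (0 : E) 2) := by
  have hN' : (0 : ℝ) < N := by exact_mod_cast hN
  set T : Set E := {z : E | z ∈ ball (0 : E) 1 ∧ |⟪n, z⟫ - a| < 1 / (2 * N)} with hT
  have hTm : MeasurableSet T := by
    have hc : Continuous fun z : E => |⟪n, z⟫ - a| := by fun_prop
    exact measurableSet_ball.inter (measurableSet_lt hc.measurable measurable_const)
  have h1 : ∀ k : ℕ, volume ((fun z => z + (-((k : ℝ) / N) • n)) ⁻¹' T) = volume T := fun k =>
    measure_preimage_add_right _ _ _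
  have h2 : (N : ℝ≥0∞) * volume T =
      ∑ k ∈ Finset.range N, volume ((fun z => z + (-((k : ℝ) / N) • n)) ⁻¹' T) := by
    simp_rw [h1]
    rw [Finset.sum_const, Finset.card_range, nsmul_eq_mul]
  rw [h2, ← measure_biUnion_finset]
  · refine measure_mono ?_
    intro z hz
    simp only [mem_iUnion, Finset.mem_range] at hz
    obtain ⟨k, hk, hz1, hz2⟩ := hz
    rw [mem_ball_zero_iff] at hz1 ⊢
    have hk' : (k : ℝ) < N := by exact_mod_cast hk
    have h3 : ‖((k : ℝ) / N) • n‖ ≤ 1 := by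
      rw [norm_smul, hn, mul_one, Real.norm_of_nonneg (by positivity), div_le_one hN']
      exact hk'.le
    have h4 : z = (z + (-((k : ℝ) / N) • n)) + ((k : ℝ) / N) • n := by module
    calc ‖z‖ = ‖(z + (-((k : ℝ) / N) • n)) + ((k : ℝ) / N) • n‖ := by rw [← h4]
      _ ≤ ‖z + (-((k : ℝ) / N) • n)‖ + ‖((k : ℝ) / N) • n‖ := norm_add_le _ _
      _ < 2 := by linarith
  · intro k _ j _ hkj
    rw [Function.onFun, Set.disjoint_left]
    rintro z ⟨-, hz1⟩ ⟨-, hz2⟩
    apply hkj
    rw [inner_add_right, inner_smul_right, real_inner_self_eq_norm_sq, hn] at hz1 hz2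
    have h3 : |((k : ℝ) - j) / N| < 1 / N := by
      have e : ((k : ℝ) - j) / N = (⟪n, z⟫ + -((j : ℝ) / N) * 1 ^ 2 - a) -
          (⟪n, z⟫ + -((k : ℝ) / N) * 1 ^ 2 - a) := by ring
      rw [e]
      calc _ ≤ |⟪n, z⟫ + -((j : ℝ) / N) * 1 ^ 2 - a| + |⟪n, z⟫ + -((k : ℝ) / N) * 1 ^ 2 - a| :=
            abs_sub _ _
        _ < 1 / (2 * (N : ℝ)) + 1 / (2 * (N : ℝ)) := add_lt_add hz2 hz1
        _ = 1 / (N : ℝ) := by field_simp; norm_num
    rw [abs_div, abs_of_pos hN', div_lt_div_iff_of_pos_right hN'] at h3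
    have h4 : |(k : ℤ) - (j : ℤ)| < 1 := by exact_mod_cast h3
    have h5 := Int.abs_lt_one_iff.1 h4
    omega
  · intro k _
    exact (measurable_id.add_const _) hTm

/-- barycentre -/
noncomputable def bar (S : Set E) : E := (volume.real S)⁻¹ • ∫ z in S, z

theorem integrable_id_of_sub {S : Set E} (hS : S ⊆ ball 0 1) (hm : MeasurableSet S) :
    IntegrableOn (fun z : E => z) S := by
  have hfin : volume S ≠ ⊤ := ne_top_of_le_ne_top (measure_ball_lt_top).ne (measure_mono hS)
  refine Integrable.mono' (g := fun _ => (1 : ℝ)) (integrableOn_const hfin (by simp))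
    measurable_id.aestronglyMeasurable ?_
  refine (ae_restrict_iff' hm).2 (Eventually.of_forall fun z hz => ?_)
  exact (mem_ball_zero_iff.1 (hS hz)).le

theorem apply_bar {F : Type*} [NormedAddCommGroup F] [NormedSpace ℝ F] [CompleteSpace F]
    {S : Set E} (hS : S ⊆ ball 0 1) (hm : MeasurableSet S) (f : E →L[ℝ] F) :
    f (bar S) = (volume.real S)⁻¹ • ∫ z in S, f z := by
  unfold bar
  rw [map_smul, ← ContinuousLinearMap.integral_comp_comm f (integrable_id_of_sub hS hm)]

theorem inrad {S : Set E} (hSo : IsOpen S) (hSc : Convex ℝ S) (hS : S ⊆ ball 0 1) (hne : S.Nonempty)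
    (N : ℕ) (hN : 0 < N) (hv : volume.real (ball (0 : E) 2) < N * (4 / 5 * volume.real S)) :
    ball (bar S) (1 / (8 * N)) ⊆ S := by
  have hN' : (0 : ℝ) < N := by exact_mod_cast hN
  intro z' hz'
  by_contra hcon
  obtain ⟨f, hf⟩ := geometric_hahn_banach_open_point hSc hSo hcon
  set n := (InnerProductSpace.toDual ℝ E).symm f with hn
  have hfn : ∀ z, f z = ⟪n, z⟫ := fun z => by
    rw [hn, InnerProductSpace.toDual_symm_apply]
  obtain ⟨p, hp⟩ := hne
  have hn0 : n ≠ 0 := by
    intro h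
    have := hf p hp
    rw [hfn, hfn, h, inner_zero_left, inner_zero_left] at this
    exact lt_irrefl _ this
  have hnn : 0 < ‖n‖ := norm_pos_iff.2 hn0
  set n' : E := ‖n‖⁻¹ • n with hn'
  have hn'1 : ‖n'‖ = 1 := by
    rw [hn', norm_smul, norm_inv, norm_norm, inv_mul_cancel₀ hnn.ne']
  have hlt : ∀ z ∈ S, ⟪n', z⟫ < ⟪n', z'⟫ := by
    intro z hz
    rw [hn', inner_smul_left, inner_smul_left]
    have := hf z hz
    rw [hfn, hfn] at this
    simpa using mul_lt_mul_of_pos_left this (inv_pos.2 hnn)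
  set ρ : ℝ := 1 / (8 * N) with hρ
  have hρ0 : 0 < ρ := by positivity
  have hm := hSo.measurableSet
  have hfin : volume S ≠ ⊤ := ne_top_of_le_ne_top (measure_ball_lt_top).ne (measure_mono hS)
  set m := volume.real S with hmdef
  have hmpos : 0 < m := ENNReal.toReal_pos (hSo.measure_pos volume ⟨p, hp⟩).ne' hfin
  set a : ℝ := ⟪n', bar S⟫ with ha
  have hz'a : ⟪n', z'⟫ < a + ρ := by
    have h1 : ⟪n', z' - bar S⟫ ≤ ‖z' - bar S‖ := by
      have := real_inner_le_norm n' (z' - bar S)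
      rwa [hn'1, one_mul] at this
    have h2 : ‖z' - bar S‖ < ρ := by rw [← dist_eq_norm]; exact hz'
    rw [inner_sub_right] at h1
    linarith
  have hint : ∫ z in S, ⟪n', z⟫ = m * a := by
    have := apply_bar hS hm (innerSL ℝ n')
    simp only [innerSL_apply_apply, smul_eq_mul] at this
    rw [ha, this, ← hmdef]
    field_simp
  have hi1 : IntegrableOn (fun z : E => ⟪n', z⟫) S :=
    (integrable_id_of_sub hS hm).const_inner n'
  set S' : Set E := {z | z ∈ S ∧ ⟪n', z⟫ ≤ a - 4 * ρ} with hS'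
  have hcn : Continuous fun z : E => ⟪n', z⟫ := by fun_prop
  have hS'm : MeasurableSet S' := hm.inter (measurableSet_le hcn.measurable measurable_const)
  have hS'fin : volume S' ≠ ⊤ := ne_top_of_le_ne_top hfin (measure_mono fun z hz => hz.1)
  have hic : ∀ (c : ℝ) (T : Set E), volume T ≠ ⊤ → IntegrableOn (fun _ : E => c) T := fun c T hT =>
    integrableOn_const hT enorm_ne_top
  have hi2 : IntegrableOn (S'.indicator (fun _ => -(5 * ρ))) S :=
    ((integrable_indicator_iff hS'm).2 (hic _ _ hS'fin)).integrableOn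
  have hle : ∫ z in S, ⟪n', z⟫ ≤ ∫ z in S, ((a + ρ) + S'.indicator (fun _ => -(5 * ρ)) z) := by
    refine setIntegral_mono_on hi1 ((hic _ _ hfin).add hi2) hm ?_
    intro z hz
    by_cases hz2 : z ∈ S'
    · rw [indicator_of_mem hz2]
      linarith [hz2.2]
    · rw [indicator_of_notMem hz2]
      linarith [hlt z hz]
  have e9 : ∫ z in S, ((a + ρ) + S'.indicator (fun _ => -(5 * ρ)) z) =
      (∫ z in S, (a + ρ)) + ∫ z in S, S'.indicator (fun _ => -(5 * ρ)) z :=
    integral_add (hic _ _ hfin) hi2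
  rw [e9, setIntegral_const, setIntegral_indicator hS'm, setIntegral_const, hint] at hle
  have hSS : S ∩ S' = S' := inter_eq_right.2 fun z hz => hz.1
  rw [hSS] at hle
  simp only [smul_eq_mul] at hle
  have h5 : 5 * volume.real S' ≤ m := by
    have : 5 * volume.real S' * ρ ≤ m * ρ := by
      rw [← hmdef] at hle
      nlinarith
    exact le_of_mul_le_mul_right this hρ0
  have h6 : m ≤ volume.real S' + volume.real {z : E | z ∈ ball (0 : E) 1 ∧ |⟪n', z⟫ - a| < 1 / (2 * N)} := by
    rw [hmdef]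
    refine le_trans (measureReal_mono (s₂ := S' ∪ {z : E | z ∈ ball (0 : E) 1 ∧ |⟪n', z⟫ - a| < 1 / (2 * N)}) ?_ ?_)
      (measureReal_union_le _ _)
    · intro z hz
      by_cases h : ⟪n', z⟫ ≤ a - 4 * ρ
      · exact Or.inl ⟨hz, h⟩
      · right
        refine ⟨hS hz, ?_⟩
        have e : 1 / (2 * (N : ℝ)) = 4 * ρ := by rw [hρ]; field_simp; norm_num
        rw [e, abs_lt]
        constructor
        · linarith
        · linarith [hlt z hz]
    · refine ne_top_of_le_ne_top ?_ (measure_union_le _ _)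
      exact ENNReal.add_ne_top.2 ⟨hS'fin, ne_top_of_le_ne_top (measure_ball_lt_top (x := (0 : E)) (r := 1)).ne
        (measure_mono fun z hz => hz.1)⟩
  have h7 : (N : ℝ) * volume.real {z : E | z ∈ ball (0 : E) 1 ∧ |⟪n', z⟫ - a| < 1 / (2 * N)} ≤
      volume.real (ball (0 : E) 2) := by
    have := ENNReal.toReal_mono (measure_ball_lt_top (x := (0 : E)) (r := 2)).ne (slab N hN n' hn'1 a)
    rwa [ENNReal.toReal_mul, ENNReal.toReal_natCast] at this
  nlinarith

end Pool.Agent.H1.CN
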