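import Pool.Agent.H1.CN.G1
import Pool.Agent.H1.CN.C

/-!
# MP_65ff7c_an, part G2: second moments and strips
-/

set_option autoImplicit false

namespace Pool.Agent.H1.CN

open MeasureTheory Set Metric Pool.Agent.TH703.Cone Filter Topology
open scoped ENNReal RealInnerProductSpace

variable {b : ℕ}

/-- second moment in direction `e` -/
noncomputable def QQ (e : B b) : ℝ := ∫ z in Om b 1, ⟪z.snd, e⟫ ^ 2

theorem cont_snd : Continuous fun z : W b => z.snd := (sndL b).continuous

theorem intOn_of_cont {f : W b → ℝ} (hf : Continuous f) : IntegrableOn f (Om b 1) :=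
  (hf.continuousOn.integrableOn_compact (bdd_Om b one_pos).isCompact_closure).mono_set
    subset_closure

theorem QQ_isom (R : B b ≃ₗᵢ[ℝ] B b) (e : B b) : QQ (R e) = QQ e := by
  set T : W b ≃ₗᵢ[ℝ] W b := LinearIsometryEquiv.withLpProdCongr 2 (LinearIsometryEquiv.refl ℝ ℂ) R
    with hT
  have hTf : ∀ z : W b, (T z).fst = z.fst := fun z => rfl
  have hTs : ∀ z : W b, (T z).snd = R z.snd := fun z => rfl
  have h1 := T.measurePreserving.setIntegral_preimage_emb
    T.toHomeomorph.measurableEmbedding (fun z : W b => ⟪z.snd, R e⟫ ^ 2) (Om b 1)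
  unfold QQ
  rw [← h1]
  have h2 : T ⁻¹' (Om b 1) = Om b 1 := by
    ext z
    rw [mem_preimage, mem_Om, mem_Om, hTf, hTs, R.norm_map]
  rw [h2]
  simp_rw [hTs, R.inner_map_map]

theorem QQ_unit {e e' : B b} (h : ‖e‖ = ‖e'‖) : QQ e = QQ e' := by
  have h1 := Submodule.reflection_sub h
  rw [← h1, QQ_isom]

theorem QQ_smul (c : ℝ) (e : B b) : QQ (c • e) = c ^ 2 * QQ e := by
  unfold QQ
  rw [← integral_const_mul]
  congr 1
  funext z
  rw [inner_smul_right]
  ring

theorem secmom (hb : 1 ≤ b) (e : B b) : QQ e ≤ ‖e‖ ^ 2 * (volume.real (Om b 1) / b) := by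
  have hb' : (0 : ℝ) < b := by exact_mod_cast hb
  have hOm := (isOpen_Om b 1).measurableSet
  have hOmfin : volume (Om b 1) ≠ ⊤ := (bdd_Om b one_pos).measure_lt_top.ne
  have h0 : ∀ e₀ : B b, ‖e₀‖ = 1 → QQ e₀ ≤ volume.real (Om b 1) / b := by
    intro e₀ he₀
    set β := EuclideanSpace.basisFun (Fin b) ℝ with hβ
    have h1 : ∑ i, QQ (β i) = b * QQ e₀ := by
      have : ∀ i, QQ (β i) = QQ e₀ := fun i => QQ_unit (by rw [he₀, OrthonormalBasis.norm_eq_one])
      simp_rw [this]
      rw [Finset.sum_const, Finset.card_univ, Fintype.card_fin, nsmul_eq_mul]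
    have h2 : ∑ i, QQ (β i) = ∫ z in Om b 1, ‖z.snd‖ ^ 2 := by
      unfold QQ
      rw [← integral_finsetSum]
      · congr 1
        funext z
        exact OrthonormalBasis.sum_sq_inner_left β z.snd
      · intro i _
        exact intOn_of_cont ((cont_snd.inner continuous_const).pow 2)
    have h3 : ∫ z in Om b 1, ‖z.snd‖ ^ 2 ≤ volume.real (Om b 1) := by
      have : ∫ z in Om b 1, (1 : ℝ) = volume.real (Om b 1) := by
        rw [setIntegral_const]; simp
      rw [← this]
      refine setIntegral_mono_on (intOn_of_cont ((cont_snd.norm).pow 2))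
        (integrableOn_const hOmfin enorm_ne_top) hOm ?_
      intro z hz
      have := snd_lt_of_mem one_pos hz
      have := norm_nonneg z.snd
      nlinarith
    rw [le_div_iff₀ hb', mul_comm, ← h1, h2]
    exact h3
  by_cases he : e = 0
  · subst he
    unfold QQ
    simp
  · have hn : 0 < ‖e‖ := norm_pos_iff.2 he
    have h1 : e = ‖e‖ • (‖e‖⁻¹ • e) := by
      rw [smul_smul, mul_inv_cancel₀ hn.ne', one_smul]
    have h2 : QQ e = ‖e‖ ^ 2 * QQ (‖e‖⁻¹ • e) := by
      conv_lhs => rw [h1]
      rw [QQ_smul]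
    rw [h2]
    apply mul_le_mul_of_nonneg_left _ (by positivity)
    apply h0
    rw [norm_smul, norm_inv, norm_norm, inv_mul_cancel₀ hn.ne']

/-- the volume of the body -/
theorem vol_Om (hb : 1 ≤ b) {ε : ℝ} (hε : 0 < ε) :
    volume (Om b ε) = ENNReal.ofReal (vb b ε * (2 * Real.pi / ((b + 1) * (b + 2)))) := by
  have h := t7b b ε 1 hb hε zero_le_one le_rfl
  have e1 : {z : W b | z ∈ Om b ε ∧ ‖z.fst‖ < 1} = Om b ε := by
    ext z
    exact ⟨fun h => h.1, fun h => ⟨h, fst_lt_of_mem hε h⟩⟩
  rw [e1] at h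
  rw [h]
  congr 1
  rw [sub_self, zero_pow (by omega)]
  ring

theorem int_strip (b : ℕ) : ∫⁻ v in Ioo (-1 : ℝ) 1, ENNReal.ofReal ((1 - |v|) ^ b) =
    ENNReal.ofReal (2 / (b + 1)) := by
  have hc : Continuous fun v : ℝ => (1 - |v|) ^ b := by fun_prop
  have h1 : ∫ v in (-1 : ℝ)..1, (1 - |v|) ^ b = 2 / (b + 1) := by
    have hd : ∀ x : ℝ, HasDerivAt (fun s : ℝ => -(1 - s) ^ (b + 1) / (b + 1)) ((1 - x) ^ b) x := by
      intro x
      have h1 : HasDerivAt (fun r : ℝ => (1 - r) ^ (b + 1)) (((b + 1 : ℕ) : ℝ) * (1 - x) ^ b * (-1)) x := by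
        have := ((hasDerivAt_id' x).const_sub 1).fun_pow (b + 1)
        simpa using this
      refine (h1.neg.div_const ((b : ℝ) + 1)).congr_deriv ?_
      have : ((b : ℝ) + 1) ≠ 0 := by positivity
      push_cast
      field_simp
    have hd2 : ∀ x : ℝ, HasDerivAt (fun s : ℝ => (1 + s) ^ (b + 1) / (b + 1)) ((1 + x) ^ b) x := by
      intro x
      have h1 : HasDerivAt (fun r : ℝ => (1 + r) ^ (b + 1)) (((b + 1 : ℕ) : ℝ) * (1 + x) ^ b * 1) x := by
        have := ((hasDerivAt_id' x).const_add 1).fun_pow (b + 1)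
        simpa using this
      refine (h1.div_const ((b : ℝ) + 1)).congr_deriv ?_
      have : ((b : ℝ) + 1) ≠ 0 := by positivity
      push_cast
      field_simp
    rw [← intervalIntegral.integral_add_adjacent_intervals (b := 0) (hc.intervalIntegrable _ _)
      (hc.intervalIntegrable _ _)]
    have e1 : ∫ v in (-1 : ℝ)..0, (1 - |v|) ^ b = ∫ v in (-1 : ℝ)..0, (1 + v) ^ b := by
      apply intervalIntegral.integral_congr
      intro v hv
      rw [uIcc_of_le (by norm_num)] at hv
      simp only [abs_of_nonpos hv.2, sub_neg_eq_add]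
    have e2 : ∫ v in (0 : ℝ)..1, (1 - |v|) ^ b = ∫ v in (0 : ℝ)..1, (1 - v) ^ b := by
      apply intervalIntegral.integral_congr
      intro v hv
      rw [uIcc_of_le (by norm_num)] at hv
      simp only [abs_of_nonneg hv.1]
    rw [e1, e2, intervalIntegral.integral_eq_sub_of_hasDerivAt (fun x _ => hd x)
      ((by fun_prop : Continuous fun v : ℝ => (1 - v) ^ b).intervalIntegrable _ _),
      intervalIntegral.integral_eq_sub_of_hasDerivAt (fun x _ => hd2 x)
      ((by fun_prop : Continuous fun v : ℝ => (1 + v) ^ b).intervalIntegrable _ _)]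
    have : ((b : ℝ) + 1) ≠ 0 := by positivity
    simp
    ring
  rw [← h1, intervalIntegral.integral_of_le (by norm_num), setLIntegral_congr Ioo_ae_eq_Ioc]
  symm
  apply ofReal_integral_eq_lintegral_ofReal
  · exact (hc.integrableOn_Icc).mono_set Ioc_subset_Icc_self
  · refine (ae_restrict_iff' measurableSet_Ioc).2 (Eventually.of_forall fun v hv => ?_)
    have : 0 ≤ 1 - |v| := by
      have := abs_le.2 ⟨hv.1.le, hv.2⟩
      linarith
    exact pow_nonneg this b

theorem strip (hb : 1 ≤ b) {m : ℝ} (hm : 0 < m) :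
    volume {z : W b | z ∈ Om b 1 ∧ |z.fst.re| < m} ≤ ENNReal.ofReal (vb b 1 * (4 * m / (b + 1))) := by
  have hOm := (isOpen_Om b 1).measurableSet
  have hm1 : MeasurableSet {x : ℂ | |x.re| < m} :=
    measurableSet_lt (by have := Complex.measurable_re; fun_prop) measurable_const
  have hm2 : MeasurableSet {z : W b | |z.fst.re| < m} := meas_fst hm1
  have e1 : volume {z : W b | z ∈ Om b 1 ∧ |z.fst.re| < m} =
      ∫⁻ z in Om b 1, ({x : ℂ | |x.re| < m}).indicator (fun _ => 1) z.fst := by
    have : (fun z : W b => ({x : ℂ | |x.re| < m}).indicator (fun _ => (1 : ℝ≥0∞)) z.fst) =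
        ({z : W b | |z.fst.re| < m}).indicator (fun _ => 1) := rfl
    rw [this, lintegral_indicator hm2, setLIntegral_one, Measure.restrict_apply hm2]
    congr 1
    ext z
    exact and_comm
  rw [e1, t7a b 1 hb one_pos _ (measurable_const.indicator hm1), ENNReal.ofReal_mul (vb_pos one_pos).le]
  gcongr
  have e2 : ENNReal.ofReal (4 * m / (b + 1)) =
      ∫⁻ p : ℝ × ℝ, (Ioo (-m) m).indicator (fun _ => (1 : ℝ≥0∞)) p.1 *
        (Ioo (-1 : ℝ) 1).indicator (fun v => ENNReal.ofReal ((1 - |v|) ^ b)) p.2 := by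
    rw [Measure.volume_eq_prod, lintegral_prod_mul
      (measurable_const.indicator measurableSet_Ioo).aemeasurable
      (Measurable.indicator (by fun_prop) measurableSet_Ioo).aemeasurable,
      lintegral_indicator_const measurableSet_Ioo, lintegral_indicator measurableSet_Ioo,
      int_strip, Real.volume_Ioo, one_mul, ← ENNReal.ofReal_mul (by linarith)]
    congr 1
    ring
  rw [e2, ← Complex.volume_preserving_equiv_real_prod.lintegral_comp (by
    refine Measurable.mul ?_ ?_
    · exact (measurable_const.indicator measurableSet_Ioo).comp measurable_fst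
    · exact (Measurable.indicator (by fun_prop) measurableSet_Ioo).comp measurable_snd),
    ← lintegral_indicator measurableSet_ball]
  refine lintegral_mono fun x => ?_
  by_cases hx : x ∈ ball (0 : ℂ) 1
  swap
  · rw [indicator_of_notMem hx]; exact zero_le
  rw [indicator_of_mem hx]
  by_cases hr : |x.re| < m
  swap
  · rw [indicator_of_notMem (show x ∉ {x : ℂ | |x.re| < m} from hr), zero_mul]; exact zero_le
  have hxn : ‖x‖ < 1 := mem_ball_zero_iff.1 hx
  have hi : |x.im| ≤ ‖x‖ := Complex.abs_im_le_norm x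
  have h1 : (Complex.measurableEquivRealProd x).1 = x.re := rfl
  have h2 : (Complex.measurableEquivRealProd x).2 = x.im := rfl
  rw [indicator_of_mem (show x ∈ {x : ℂ | |x.re| < m} from hr), h1, h2,
    indicator_of_mem (show x.re ∈ Ioo (-m) m from abs_lt.1 hr),
    indicator_of_mem (show x.im ∈ Ioo (-1 : ℝ) 1 from abs_lt.1 (by linarith)), one_mul, one_mul]
  apply ENNReal.ofReal_le_ofReal
  exact pow_le_pow_left₀ (by linarith) (by linarith) b

end Pool.Agent.H1.CN
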