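import Pool.Agent.H1.CN.G2

/-!
# MP_65ff7c_an, part G3: geometry of cones (T6)
-/

set_option autoImplicit false

namespace Pool.Agent.H1.CN

open MeasureTheory Set Metric Pool.Agent.TH703.Cone Filter Topology
open scoped ENNReal RealInnerProductSpace

variable {b : ℕ}

/-- the real part of the first coordinate -/
noncomputable def reL (b : ℕ) : W b →L[ℝ] ℝ := Complex.reCLM.comp (fstL b)

theorem reL_apply (z : W b) : reL b z = z.fst.re := rfl

theorem null_re (b : ℕ) : volume {z : W b | z.fst.re = 0} = 0 := by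
  have h1 : {z : W b | z.fst.re = 0} = (LinearMap.ker (reL b).toLinearMap : Set (W b)) := by
    ext z
    rfl
  rw [h1]
  apply Measure.addHaar_submodule
  intro h
  have h2 : (WithLp.toLp 2 ((1 : ℂ), (0 : B b)) : W b) ∈ LinearMap.ker (reL b).toLinearMap := by
    rw [h]; trivial
  have h3 : (1 : ℂ).re = 0 := h2
  simp at h3

theorem Om_sub_ball (b : ℕ) : Om b 1 ⊆ ball 0 1 := by
  intro z hz
  rw [mem_Om, div_one] at hz
  rw [mem_ball_zero_iff]
  exact (norm_W_le z).trans_lt hz

/-- the half cone has volume at least half -/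
theorem half {c : ℝ} {G : Set (W b)}
    (h : ENNReal.ofReal c * volume (Om b 1) ≤ volume (Om b 1 ∩ G)) :
    ∃ s : ℝ, |s| = 1 ∧ c / 2 * volume.real (Om b 1) ≤
      volume.real (Om b 1 ∩ G ∩ {z | 0 < s * z.fst.re}) := by
  have hOmfin : volume (Om b 1) ≠ ⊤ := (bdd_Om b one_pos).measure_lt_top.ne
  have hf : ∀ S : Set (W b), volume (Om b 1 ∩ G ∩ S) ≠ ⊤ := fun S =>
    ne_top_of_le_ne_top hOmfin (measure_mono fun z hz => hz.1.1)
  have h1 : volume.real (Om b 1 ∩ G) ≤ volume.real (Om b 1 ∩ G ∩ {z | 0 < (1 : ℝ) * z.fst.re}) +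
      volume.real (Om b 1 ∩ G ∩ {z | 0 < (-1 : ℝ) * z.fst.re}) := by
    have h2 : volume.real (Om b 1 ∩ G) ≤ volume.real ((Om b 1 ∩ G ∩ {z | 0 < (1 : ℝ) * z.fst.re}) ∪
        (Om b 1 ∩ G ∩ {z | 0 < (-1 : ℝ) * z.fst.re})) + volume.real {z : W b | z.fst.re = 0} := by
      refine le_trans (measureReal_mono (s₂ := ((Om b 1 ∩ G ∩ {z | 0 < (1 : ℝ) * z.fst.re}) ∪
        (Om b 1 ∩ G ∩ {z | 0 < (-1 : ℝ) * z.fst.re})) ∪ {z : W b | z.fst.re = 0}) ?_ ?_)
        (measureReal_union_le _ _)
      · intro z hz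
        rcases lt_trichotomy z.fst.re 0 with h | h | h
        · exact Or.inl (Or.inr ⟨hz, by simp only [mem_ofPred_eq]; linarith⟩)
        · exact Or.inr h
        · exact Or.inl (Or.inl ⟨hz, by simp only [mem_ofPred_eq]; linarith⟩)
      · refine ne_top_of_le_ne_top ?_ (measure_union_le _ _)
        rw [null_re, add_zero]
        refine ne_top_of_le_ne_top ?_ (measure_union_le _ _)
        exact ENNReal.add_ne_top.2 ⟨hf _, hf _⟩
    have h3 : volume.real {z : W b | z.fst.re = 0} = 0 := by
      unfold Measure.real; rw [null_re]; rfl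
    rw [h3, add_zero] at h2
    exact h2.trans (measureReal_union_le _ _)
  have h4 : c * volume.real (Om b 1) ≤ volume.real (Om b 1 ∩ G) := by
    have hfin : volume (Om b 1 ∩ G) ≠ ⊤ := ne_top_of_le_ne_top hOmfin (measure_mono inter_subset_left)
    have h5 := ENNReal.toReal_mono hfin h
    rw [ENNReal.toReal_mul, ENNReal.toReal_ofReal'] at h5
    refine le_trans ?_ h5
    exact mul_le_mul_of_nonneg_right (le_max_left _ _) ENNReal.toReal_nonneg
  by_cases h5 : c / 2 * volume.real (Om b 1) ≤
      volume.real (Om b 1 ∩ G ∩ {z | 0 < (1 : ℝ) * z.fst.re})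
  · exact ⟨1, by norm_num, h5⟩
  · refine ⟨-1, by norm_num, ?_⟩
    rw [not_le] at h5
    linarith

/-- the estimates for the barycentre -/
theorem bar_est {c s : ℝ} {S : Set (W b)} (hb : 1 ≤ b) (hc : 0 < c) (hs : |s| = 1)
    (hSo : IsOpen S) (hSΩ : S ⊆ Om b 1) (hpos : ∀ z ∈ S, 0 < s * z.fst.re)
    (hv : c / 2 * volume.real (Om b 1) ≤ volume.real S) :
    c * Real.pi / (16 * (b + 2)) ≤ ‖(bar S).fst‖ ∧ ‖(bar S).snd‖ ^ 2 ≤ 2 / (c * b) := by
  have hpi := Real.pi_pos
  have hb' : (0 : ℝ) < b := by exact_mod_cast hb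
  have hOmfin : volume (Om b 1) ≠ ⊤ := (bdd_Om b one_pos).measure_lt_top.ne
  have hfin : volume S ≠ ⊤ := ne_top_of_le_ne_top hOmfin (measure_mono hSΩ)
  have hSm := hSo.measurableSet
  have hS1 : S ⊆ ball 0 1 := hSΩ.trans (Om_sub_ball b)
  have hvb := vb_pos (b := b) one_pos
  have hV : volume.real (Om b 1) = vb b 1 * (2 * Real.pi / ((b + 1) * (b + 2))) := by
    unfold Measure.real
    rw [vol_Om hb one_pos, ENNReal.toReal_ofReal (by positivity)]
  set V := volume.real (Om b 1) with hVd
  have hVpos : 0 < V := by rw [hV]; positivity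
  set m := volume.real S with hm
  have hmpos : 0 < m := lt_of_lt_of_le (by positivity) hv
  constructor
  · -- first coordinate
    set m₁ : ℝ := c * Real.pi / (8 * (b + 2)) with hm₁
    have hm₁pos : 0 < m₁ := by positivity
    have e1 : s * (bar S).fst.re = m⁻¹ * ∫ z in S, s * z.fst.re := by
      have h1 := apply_bar hS1 hSm (reL b)
      rw [reL_apply] at h1
      rw [h1, smul_eq_mul, integral_const_mul]
      simp only [reL_apply]
      ring
    have hc1 : Continuous fun z : W b => s * z.fst.re :=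
      continuous_const.mul (reL b).continuous
    have hi1 : IntegrableOn (fun z : W b => s * z.fst.re) S :=
      (intOn_of_cont hc1).mono_set hSΩ
    set S' : Set (W b) := {z | z ∈ S ∧ m₁ ≤ s * z.fst.re} with hS'
    have hS'm : MeasurableSet S' := hSm.inter (measurableSet_le measurable_const hc1.measurable)
    have hS'fin : volume S' ≠ ⊤ := ne_top_of_le_ne_top hfin (measure_mono fun z hz => hz.1)
    have h2 : m₁ * volume.real S' ≤ ∫ z in S, s * z.fst.re := by
      have e2 : ∫ z in S, S'.indicator (fun _ => m₁) z = m₁ * volume.real S' := by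
        rw [setIntegral_indicator hS'm, setIntegral_const, smul_eq_mul, mul_comm]
        congr 2
        exact inter_eq_right.2 fun z hz => hz.1
      rw [← e2]
      refine setIntegral_mono_on ((integrable_indicator_iff hS'm).2
        (integrableOn_const hS'fin enorm_ne_top)).integrableOn hi1 hSm ?_
      intro z hz
      by_cases hz2 : z ∈ S'
      · rw [indicator_of_mem hz2]; exact hz2.2
      · rw [indicator_of_notMem hz2]; exact (hpos z hz).le
    have h3 : volume.real {z : W b | z ∈ Om b 1 ∧ |z.fst.re| < m₁} ≤ c / 4 * V := by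
      have h4 := ENNReal.toReal_mono ENNReal.ofReal_ne_top (strip hb hm₁pos)
      rw [ENNReal.toReal_ofReal (by positivity)] at h4
      refine h4.trans (le_of_eq ?_)
      rw [hV, hm₁]
      field_simp
      ring
    have h4 : m ≤ volume.real S' + volume.real {z : W b | z ∈ Om b 1 ∧ |z.fst.re| < m₁} := by
      rw [hm]
      refine le_trans (measureReal_mono (s₂ := S' ∪ {z : W b | z ∈ Om b 1 ∧ |z.fst.re| < m₁}) ?_ ?_)
        (measureReal_union_le _ _)
      · intro z hz
        by_cases hz2 : m₁ ≤ s * z.fst.re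
        · exact Or.inl ⟨hz, hz2⟩
        · right
          refine ⟨hSΩ hz, ?_⟩
          rw [not_le] at hz2
          have : |s * z.fst.re| = |z.fst.re| := by rw [abs_mul, hs, one_mul]
          rw [← this, abs_of_pos (hpos z hz)]
          exact hz2
      · refine ne_top_of_le_ne_top ?_ (measure_union_le _ _)
        exact ENNReal.add_ne_top.2 ⟨hS'fin, ne_top_of_le_ne_top hOmfin (measure_mono fun z hz => hz.1)⟩
    have h5 : m / 2 ≤ volume.real S' := by nlinarith
    have h6 : m₁ / 2 ≤ s * (bar S).fst.re := by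
      rw [e1]
      rw [inv_mul_eq_div, le_div_iff₀ hmpos]
      calc m₁ / 2 * m = m₁ * (m / 2) := by ring
        _ ≤ m₁ * volume.real S' := mul_le_mul_of_nonneg_left h5 hm₁pos.le
        _ ≤ _ := h2
    calc c * Real.pi / (16 * (b + 2)) = m₁ / 2 := by rw [hm₁]; field_simp; norm_num
      _ ≤ s * (bar S).fst.re := h6
      _ ≤ |s * (bar S).fst.re| := le_abs_self _
      _ = |(bar S).fst.re| := by rw [abs_mul, hs, one_mul]
      _ ≤ ‖(bar S).fst‖ := Complex.abs_re_le_norm _
  · -- second coordinate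
    set w : B b := (bar S).snd with hw
    set T : ℝ := ‖w‖ ^ 2 with hT
    have hT0 : 0 ≤ T := by positivity
    have e1 : m * T = ∫ z in S, ⟪z.snd, w⟫ := by
      have h1 := apply_bar hS1 hSm ((innerSL ℝ w).comp (sndL b))
      have h2 : ((innerSL ℝ w).comp (sndL b)) (bar S) = T := by
        change ⟪w, (bar S).snd⟫ = T
        rw [← hw, real_inner_self_eq_norm_sq]
      have h3 : ∫ z in S, ((innerSL ℝ w).comp (sndL b)) z = ∫ z in S, ⟪z.snd, w⟫ := by
        congr 1
        funext z
        change ⟪w, z.snd⟫ = ⟪z.snd, w⟫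
        exact real_inner_comm _ _
      rw [h2, h3, smul_eq_mul] at h1
      rw [h1]
      rw [← hm]
      field_simp
    have hc1 : Continuous fun z : W b => ⟪z.snd, w⟫ := cont_snd.inner continuous_const
    set lam : ℝ := m * b / (2 * V) with hlam
    have hlampos : 0 < lam := by positivity
    have h2 : ∫ z in S, ⟪z.snd, w⟫ ≤ ∫ z in S, (lam * ⟪z.snd, w⟫ ^ 2 + 1 / (4 * lam)) := by
      refine setIntegral_mono_on ((intOn_of_cont hc1).mono_set hSΩ) ?_ hSm ?_
      · exact (intOn_of_cont (by fun_prop)).mono_set hSΩ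
      · intro z _
        have h3 : 0 ≤ (2 * lam * ⟪z.snd, w⟫ - 1) ^ 2 / (4 * lam) := by positivity
        have h4 : (2 * lam * ⟪z.snd, w⟫ - 1) ^ 2 / (4 * lam) =
            lam * ⟪z.snd, w⟫ ^ 2 + 1 / (4 * lam) - ⟪z.snd, w⟫ := by
          field_simp
          ring
        rw [h4] at h3
        linarith
    have h3 : ∫ z in S, (lam * ⟪z.snd, w⟫ ^ 2 + 1 / (4 * lam)) =
        lam * (∫ z in S, ⟪z.snd, w⟫ ^ 2) + m / (4 * lam) := by
      have hi : IntegrableOn (fun z : W b => lam * ⟪z.snd, w⟫ ^ 2) S :=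
        (intOn_of_cont (continuous_const.mul (hc1.pow 2))).mono_set hSΩ
      have e2 : ∫ z in S, (lam * ⟪z.snd, w⟫ ^ 2 + 1 / (4 * lam)) =
          (∫ z in S, lam * ⟪z.snd, w⟫ ^ 2) + ∫ z in S, (1 / (4 * lam)) :=
        integral_add hi (integrableOn_const hfin enorm_ne_top)
      rw [e2, integral_const_mul, setIntegral_const, smul_eq_mul, ← hm]
      ring
    have h4 : ∫ z in S, ⟪z.snd, w⟫ ^ 2 ≤ T * (V / b) := by
      refine le_trans ?_ (secmom hb w)
      exact setIntegral_mono_set (intOn_of_cont (hc1.pow 2)) (Eventually.of_forall fun z => sq_nonneg _)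
        (LE.le.eventuallyLE hSΩ)
    have h5 : m * T ≤ lam * (T * (V / b)) + m / (4 * lam) := by
      rw [e1]
      calc _ ≤ _ := h2
        _ = _ := h3
        _ ≤ _ := by
          have := mul_le_mul_of_nonneg_left h4 hlampos.le
          linarith
    have h6 : lam * (T * (V / b)) = m * T / 2 := by
      rw [hlam]; field_simp
    have h7 : m / (4 * lam) = V / (2 * b) := by
      rw [hlam]; field_simp; norm_num
    rw [h6, h7] at h5
    have h8 : m * T ≤ V / b := by
      have : V / (2 * b) = V / b / 2 := by field_simp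
      rw [this] at h5
      linarith
    have h9 : c / 2 * V * T ≤ V / b := le_trans (mul_le_mul_of_nonneg_right hv hT0) h8
    rw [le_div_iff₀ (by positivity)]
    rw [le_div_iff₀ hb'] at h9
    have h10 : V * (T * (c * b)) ≤ V * 2 := by nlinarith
    exact le_of_mul_le_mul_left h10 hVpos

end Pool.Agent.H1.CN
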