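import Pool.Agent.H1.CN.G3

/-!
# MP_65ff7c_an, part G4: geometry of cones (T6), conclusion
-/

set_option autoImplicit false

namespace Pool.Agent.H1.CN

open MeasureTheory Set Metric Pool.Agent.TH703.Cone Filter Topology
open scoped ENNReal RealInnerProductSpace ComplexConjugate

variable {b : ℕ}

theorem cone_convex {G : Set (W b)} (h1 : ∀ z ∈ G, ∀ t : ℝ, 0 < t → t • z ∈ G)
    (h2 : ∀ z ∈ G, ∀ w ∈ G, z + w ∈ G) : Convex ℝ G := by
  intro z hz w hw s t hs ht hst
  rcases hs.eq_or_lt with h | h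
  · subst h
    have : t = 1 := by linarith
    subst this
    simpa using hw
  rcases ht.eq_or_lt with h' | h'
  · subst h'
    have : s = 1 := by linarith
    subst this
    simpa using hz
  exact h2 _ (h1 z hz s h) _ (h1 w hw t h')

theorem close_est {x X u : ℂ} {a σ : ℝ} (ha : a = ‖X‖) (ha0 : 0 < a) (hu : u = conj X / a)
    (hx : 0 < ‖x‖) (hre : 0 < (x * u).re) (him : |(x * u).im| ≤ σ * ‖x‖) :
    ‖((a / ‖x‖ : ℝ) : ℂ) * x - X‖ ^ 2 ≤ 2 * a ^ 2 * σ ^ 2 := by
  have hun : ‖u‖ = 1 := by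
    rw [hu, norm_div, Complex.norm_conj, Complex.norm_real, Real.norm_of_nonneg ha0.le, ← ha,
      div_self ha0.ne']
  have hXu : X * u = a := by
    rw [hu, mul_div_assoc', Complex.mul_conj, Complex.normSq_eq_norm_sq, ← ha]
    have : (a : ℂ) ≠ 0 := by exact_mod_cast ha0.ne'
    push_cast
    field_simp
  have h1 : ‖((a / ‖x‖ : ℝ) : ℂ) * x - X‖ = ‖((a / ‖x‖ : ℝ) : ℂ) * (x * u) - a‖ := by
    rw [← hXu, ← mul_assoc, ← sub_mul, norm_mul, hun, mul_one]
  have hn : ‖x * u‖ = ‖x‖ := by rw [norm_mul, hun, mul_one]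
  set n := ‖x‖ with hnd
  have h2 : (x * u).re ^ 2 + (x * u).im ^ 2 = n ^ 2 := by
    rw [← hn, ← Complex.normSq_eq_norm_sq, Complex.normSq_apply]; ring
  rw [h1, ← Complex.normSq_eq_norm_sq, Complex.normSq_apply]
  set p := (x * u).re with hp
  set q := (x * u).im with hq
  have e1 : (((a / n : ℝ) : ℂ) * (x * u) - a).re = a / n * p - a := by
    rw [Complex.sub_re, Complex.re_ofReal_mul, Complex.ofReal_re]
  have e2 : (((a / n : ℝ) : ℂ) * (x * u) - a).im = a / n * q := by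
    rw [Complex.sub_im, Complex.im_ofReal_mul, Complex.ofReal_im, sub_zero]
  rw [e1, e2]
  set P := p / n with hP
  set Q := q / n with hQ
  have hPQ : P ^ 2 + Q ^ 2 = 1 := by
    rw [hP, hQ, div_pow, div_pow, ← add_div, h2, div_self (by positivity)]
  have hP0 : 0 < P := by positivity
  have hQ1 : Q ^ 2 ≤ σ ^ 2 := by
    have : |Q| ≤ σ := by
      rw [hQ, abs_div, abs_of_pos hx, div_le_iff₀ hx]; exact him
    have h3 := abs_nonneg Q
    rw [← sq_abs Q]
    exact pow_le_pow_left₀ h3 this 2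
  have hP1 : P ≤ 1 := by nlinarith [sq_nonneg Q]
  have e3 : a / n * p = a * P := by rw [hP]; ring
  have e4 : a / n * q = a * Q := by rw [hQ]; ring
  rw [e3, e4]
  have h4 : 1 - P ≤ σ ^ 2 := by nlinarith
  have h5 : (a * P - a) * (a * P - a) + a * Q * (a * Q) = 2 * a ^ 2 * (1 - P) := by
    have : Q ^ 2 = 1 - P ^ 2 := by linarith
    have h6 : (a * P - a) * (a * P - a) + a * Q * (a * Q) = a ^ 2 * ((P - 1) ^ 2 + Q ^ 2) := by ring
    rw [h6, this]; ring
  rw [h5]
  exact mul_le_mul_of_nonneg_left h4 (by positivity)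

theorem t6one (hb : 1 ≤ b) {c R r₀ : ℝ} (hc : 0 < c) (hr₀ : 0 < r₀) (hR : 0 < R)
    (hcond : R + (16 * R * (b + 2) / (c * Real.pi)) * √(2 / (c * b)) < 1) :
    ∃ σ η : ℝ, 0 < σ ∧ σ ≤ 1 / 2 ∧ 0 < η ∧ ∀ G : Set (W b),
      IsOpen G → (∀ z ∈ G, ∀ t : ℝ, 0 < t → t • z ∈ G) → (∀ z ∈ G, ∀ w ∈ G, z + w ∈ G) →
      ENNReal.ofReal c * volume (Om b 1) ≤ volume (Om b 1 ∩ G) →
      ∃ u : ℂ, ‖u‖ = 1 ∧ ∀ x ∈ Wp u σ r₀ R,
        ENNReal.ofReal (η * vb b 1) ≤ volume (fib (Om b 1 ∩ G) x) := by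
  have hpi := Real.pi_pos
  have hb' : (0 : ℝ) < b := by exact_mod_cast hb
  have hOmfin : volume (Om b 1) ≠ ⊤ := (bdd_Om b one_pos).measure_lt_top.ne
  have hVpos : 0 < volume.real (Om b 1) := by
    unfold Measure.real
    have := vb_pos (b := b) one_pos
    rw [vol_Om hb one_pos, ENNReal.toReal_ofReal (by positivity)]
    positivity
  set V := volume.real (Om b 1) with hVd
  set L : ℝ := 16 * R * (b + 2) / (c * Real.pi) with hL
  have hLpos : 0 < L := by positivity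
  obtain ⟨N, hN⟩ := exists_nat_gt (volume.real (ball (0 : W b) 2) / (4 / 5 * (c / 2 * V)))
  have hN0 : (0 : ℝ) < N := lt_of_le_of_lt (by positivity) hN
  have hN0' : 0 < N := by exact_mod_cast hN0
  rw [div_lt_iff₀ (by positivity)] at hN
  set ρ : ℝ := 1 / (8 * N) with hρ
  have hρ0 : 0 < ρ := by positivity
  have hρ1 : ρ ≤ 1 := by
    rw [hρ, div_le_one (by positivity)]
    have : (1 : ℝ) ≤ N := by exact_mod_cast hN0'
    linarith
  set δ : ℝ := 1 - (R + L * √(2 / (c * b))) with hδ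
  have hδ0 : 0 < δ := by rw [hδ]; linarith
  set ρ' : ℝ := min ρ (δ / L) with hρ'
  have hρ'0 : 0 < ρ' := lt_min hρ0 (by positivity)
  have hρ'1 : ρ' ≤ ρ := min_le_left _ _
  have hρ'2 : L * ρ' ≤ δ := by
    calc L * ρ' ≤ L * (δ / L) := mul_le_mul_of_nonneg_left (min_le_right _ _) hLpos.le
      _ = δ := by field_simp
  refine ⟨ρ / 4, (r₀ * (ρ' / 2)) ^ b, by positivity, by linarith, by positivity, ?_⟩
  intro G hGo hG1 hG2 hGv
  obtain ⟨s, hs, hsv⟩ := half hGv
  set S : Set (W b) := Om b 1 ∩ G ∩ {z | 0 < s * z.fst.re} with hS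
  have hc1 : Continuous fun z : W b => s * z.fst.re := continuous_const.mul (reL b).continuous
  have hSo : IsOpen S := ((isOpen_Om b 1).inter hGo).inter (isOpen_lt continuous_const hc1)
  have hSc : Convex ℝ S := by
    refine ((convex_Om b one_pos).inter (cone_convex hG1 hG2)).inter ?_
    intro z hz w hw p q hp hq hpq
    have hz' : 0 < s * z.fst.re := hz
    have hw' : 0 < s * w.fst.re := hw
    change 0 < s * (reL b (p • z + q • w))
    rw [map_add, map_smul, map_smul, reL_apply, reL_apply, smul_eq_mul, smul_eq_mul]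
    have e : s * (p * z.fst.re + q * w.fst.re) = p * (s * z.fst.re) + q * (s * w.fst.re) := by ring
    rw [e]
    rcases hp.eq_or_lt with h | h
    · subst h
      have : q = 1 := by linarith
      subst this
      linarith
    · have := mul_pos h hz'
      have := mul_nonneg hq hw'.le
      linarith
  have hSΩ : S ⊆ Om b 1 := fun z hz => hz.1.1
  have hS1 : S ⊆ ball 0 1 := hSΩ.trans (Om_sub_ball b)
  obtain ⟨hx0, hy0⟩ := bar_est hb hc hs hSo hSΩ (fun z hz => hz.2) hsv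
  have hSpos : 0 < volume.real S := lt_of_lt_of_le (by positivity) hsv
  have hne : S.Nonempty := by
    by_contra h
    rw [not_nonempty_iff_eq_empty] at h
    rw [h] at hSpos
    simp at hSpos
  have hball : ball (bar S) ρ ⊆ S := by
    apply inrad hSo hSc hS1 hne N hN0'
    refine hN.trans_le ?_
    have h1 : 4 / 5 * (c / 2 * V) ≤ 4 / 5 * volume.real S := mul_le_mul_of_nonneg_left hsv (by norm_num)
    exact mul_le_mul_of_nonneg_left h1 hN0.le
  set X : ℂ := (bar S).fst with hX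
  set Y : B b := (bar S).snd with hY
  set a : ℝ := ‖X‖ with ha
  have ha0 : 0 < a := lt_of_lt_of_le (by positivity) hx0
  have ha1 : a < 1 := fst_lt_of_mem one_pos (hSΩ (hball (mem_ball_self hρ0)))
  have hYn : ‖Y‖ ≤ √(2 / (c * b)) := Real.le_sqrt_of_sq_le hy0
  refine ⟨conj X / a, ?_, ?_⟩
  · rw [norm_div, Complex.norm_conj, Complex.norm_real, Real.norm_of_nonneg ha0.le, ← ha,
      div_self ha0.ne']
  intro x hx
  obtain ⟨hx1, hx2, hx3, hx4⟩ := hx
  have hxn : 0 < ‖x‖ := lt_of_lt_of_le hr₀ hx1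
  have hclose := close_est ha ha0 rfl hxn hx3 hx4
  set lam : ℝ := ‖x‖ / a with hlam
  have hlam0 : 0 < lam := by positivity
  have hlam1 : r₀ ≤ lam := by
    rw [hlam, le_div_iff₀ ha0]
    nlinarith
  have hlam2 : lam ≤ L := by
    rw [hlam, hL, div_le_div_iff₀ ha0 (by positivity)]
    rw [div_le_iff₀ (by positivity)] at hx0
    calc ‖x‖ * (c * Real.pi) ≤ R * (c * Real.pi) := by gcongr
      _ ≤ R * (a * (16 * (b + 2))) := by gcongr
      _ = 16 * R * (b + 2) * a := by ring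
  have hsub : ball (lam • Y) (1 * (r₀ * (ρ' / 2))) ⊆ fib (Om b 1 ∩ G) x := by
    intro y hy
    rw [mem_ball, dist_eq_norm, one_mul] at hy
    set y' : B b := lam⁻¹ • y with hy'
    have hyy : y = lam • y' := by rw [hy', smul_smul, mul_inv_cancel₀ hlam0.ne', one_smul]
    have hy'Y : ‖y' - Y‖ < ρ' / 2 := by
      have e : y - lam • Y = lam • (y' - Y) := by rw [hyy, smul_sub]
      rw [e, norm_smul, Real.norm_of_nonneg hlam0.le] at hy
      have h1 : lam * ‖y' - Y‖ < lam * (ρ' / 2) :=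
        hy.trans_le (mul_le_mul_of_nonneg_right hlam1 (by positivity))
      exact lt_of_mul_lt_mul_left h1 hlam0.le
    set x' : ℂ := ((a / ‖x‖ : ℝ) : ℂ) * x with hx'
    have hmem : (WithLp.toLp 2 (x', y') : W b) ∈ ball (bar S) ρ := by
      rw [mem_ball, dist_eq_norm, WithLp.prod_norm_eq_of_L2]
      rw [Real.sqrt_lt' hρ0]
      change ‖x' - X‖ ^ 2 + ‖y' - Y‖ ^ 2 < ρ ^ 2
      have h1 : ‖y' - Y‖ ^ 2 ≤ (ρ / 2) ^ 2 :=
        pow_le_pow_left₀ (norm_nonneg _) (by linarith) 2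
      have h2 : 2 * a ^ 2 * (ρ / 4) ^ 2 ≤ 2 * 1 ^ 2 * (ρ / 4) ^ 2 := by gcongr
      nlinarith
    have hS' := hball hmem
    have hG' := hG1 _ hS'.1.2 lam hlam0
    have e1 : lam • (WithLp.toLp 2 (x', y') : W b) = WithLp.toLp 2 (x, y) := by
      apply WithLp.ofLp_injective
      refine Prod.ext ?_ ?_
      · change lam • x' = x
        rw [hx', Complex.real_smul, ← mul_assoc, ← Complex.ofReal_mul]
        have : lam * (a / ‖x‖) = 1 := by rw [hlam]; field_simp
        rw [this]; simp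
      · exact hyy.symm
    rw [e1] at hG'
    refine ⟨?_, hG'⟩
    rw [mem_Om]
    change ‖x‖ + ‖y‖ / 1 < 1
    rw [div_one, hyy, norm_smul, Real.norm_of_nonneg hlam0.le]
    have h3 : ‖y'‖ ≤ √(2 / (c * b)) + ρ' / 2 := by
      calc ‖y'‖ = ‖(y' - Y) + Y‖ := by rw [sub_add_cancel]
        _ ≤ ‖y' - Y‖ + ‖Y‖ := norm_add_le _ _
        _ ≤ _ := by linarith
    have h4 : lam * ‖y'‖ ≤ L * (√(2 / (c * b)) + ρ' / 2) :=
      mul_le_mul hlam2 h3 (norm_nonneg _) hLpos.le
    rw [hδ] at hρ'2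
    have h5 : L * (√(2 / (c * b)) + ρ' / 2) = L * √(2 / (c * b)) + L * ρ' / 2 := by ring
    rw [h5] at h4
    linarith
  refine le_trans ?_ (measure_mono hsub)
  rw [Measure.addHaar_ball_center, vol_ball (by positivity)]

end Pool.Agent.H1.CN
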