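import Pool.Agent.H1.CN.G4

/-!
# MP_65ff7c_an, part G5: scaling in the geometry of cones (T6)
-/

set_option autoImplicit false

namespace Pool.Agent.H1.CN

open MeasureTheory Set Metric Pool.Agent.TH703.Cone Filter Topology
open scoped ENNReal RealInnerProductSpace ComplexConjugate

variable {b : ℕ}

/-- vertical scaling -/
noncomputable def DD (b : ℕ) (ε : ℝ) : W b →L[ℝ] W b :=
  (WithLp.prodContinuousLinearEquiv 2 ℝ ℂ (B b)).symm.toContinuousLinearMap.comp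
    ((fstL b).prod (ε • sndL b))

theorem DD_apply (ε : ℝ) (z : W b) : DD b ε z = WithLp.toLp 2 (z.fst, ε • z.snd) := rfl

theorem vb_scale {ε : ℝ} (hε : 0 < ε) : vb b ε = ε ^ b * vb b 1 := by
  have h := vol_ball (b := b) (ε := 1) hε
  rw [one_mul] at h
  have hv := (vb_pos (b := b) one_pos).le
  have h1 : vb b ε = (volume (ball (0 : B b) ε)).toReal := rfl
  rw [h1, h, ENNReal.toReal_ofReal (by positivity)]

theorem fib_scale {ε : ℝ} (hε : 0 < ε) (G : Set (W b)) (x : ℂ) :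
    volume (fib (Om b 1 ∩ (DD b ε) ⁻¹' G) x) =
      ENNReal.ofReal ((ε ^ b)⁻¹) * volume (fib (Om b ε ∩ G) x) := by
  have h1 : fib (Om b 1 ∩ (DD b ε) ⁻¹' G) x = (ε • ·) ⁻¹' (fib (Om b ε ∩ G) x) := by
    ext y
    change (‖x‖ + ‖y‖ / 1 < 1 ∧ (WithLp.toLp 2 (x, ε • y) : W b) ∈ G) ↔
      (‖x‖ + ‖ε • y‖ / ε < 1 ∧ (WithLp.toLp 2 (x, ε • y) : W b) ∈ G)
    rw [norm_smul, Real.norm_of_nonneg hε.le, mul_div_cancel_left₀ _ hε.ne', div_one]
  rw [h1, Measure.addHaar_preimage_smul _ hε.ne', finrank_euclideanSpace, Fintype.card_fin,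
    abs_of_nonneg (by positivity)]

theorem vol_scale {ε : ℝ} (hε : 0 < ε) {G : Set (W b)} (hG : MeasurableSet G) :
    volume (Om b 1 ∩ (DD b ε) ⁻¹' G) =
      ENNReal.ofReal ((ε ^ b)⁻¹) * volume (Om b ε ∩ G) := by
  rw [vol_fib ((isOpen_Om b 1).measurableSet.inter ((DD b ε).continuous.measurable hG)),
    vol_fib ((isOpen_Om b ε).measurableSet.inter hG)]
  simp_rw [fib_scale hε]
  rw [lintegral_const_mul' _ _ ENNReal.ofReal_ne_top]

/-- **T6.** -/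
theorem t6 (hb : 1 ≤ b) {c R r₀ : ℝ} (hc : 0 < c) (hr₀ : 0 < r₀) (hR : 0 < R)
    (hcond : R + (16 * R * (b + 2) / (c * Real.pi)) * √(2 / (c * b)) < 1) :
    ∃ σ η : ℝ, 0 < σ ∧ σ ≤ 1 / 2 ∧ 0 < η ∧ ∀ (ε : ℝ) (G : Set (W b)), 0 < ε →
      IsOpen G → (∀ z ∈ G, ∀ t : ℝ, 0 < t → t • z ∈ G) → (∀ z ∈ G, ∀ w ∈ G, z + w ∈ G) →
      ENNReal.ofReal c * volume (Om b ε) ≤ volume (Om b ε ∩ G) →
      ∃ u : ℂ, ‖u‖ = 1 ∧ ∀ x ∈ Wp u σ r₀ R,
        ENNReal.ofReal (η * vb b ε) ≤ volume (fib (Om b ε ∩ G) x) := by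
  obtain ⟨σ, η, hσ, hσ1, hη, h⟩ := t6one hb hc hr₀ hR hcond
  refine ⟨σ, η, hσ, hσ1, hη, fun ε G hε hGo hG1 hG2 hGv => ?_⟩
  have hεb : 0 < ε ^ b := by positivity
  have hne : ENNReal.ofReal ((ε ^ b)⁻¹) ≠ 0 := by
    rw [ne_eq, ENNReal.ofReal_eq_zero, not_le]; positivity
  have k1 : ∀ z ∈ (DD b ε) ⁻¹' G, ∀ t : ℝ, 0 < t → t • z ∈ (DD b ε) ⁻¹' G := by
    intro z hz t ht
    change DD b ε (t • z) ∈ G
    rw [map_smul]
    exact hG1 _ hz t ht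
  have k2 : ∀ z ∈ (DD b ε) ⁻¹' G, ∀ w ∈ (DD b ε) ⁻¹' G, z + w ∈ (DD b ε) ⁻¹' G := by
    intro z hz w hw
    change DD b ε (z + w) ∈ G
    rw [map_add]
    exact hG2 _ hz _ hw
  have k3 : ENNReal.ofReal c * volume (Om b 1) ≤ volume (Om b 1 ∩ (DD b ε) ⁻¹' G) := by
    rw [vol_scale hε hGo.measurableSet]
    have h1 := vol_scale (b := b) hε (G := univ) MeasurableSet.univ
    rw [preimage_univ, inter_univ, inter_univ] at h1
    rw [h1, mul_left_comm]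
    gcongr
  obtain ⟨u, hu, hx⟩ := h ((DD b ε) ⁻¹' G) (hGo.preimage (DD b ε).continuous) k1 k2 k3
  · refine ⟨u, hu, fun x hxW => ?_⟩
    have h1 := hx x hxW
    rw [fib_scale hε] at h1
    have h2 : ENNReal.ofReal (η * vb b ε) = ENNReal.ofReal (ε ^ b) * ENNReal.ofReal (η * vb b 1) := by
      rw [← ENNReal.ofReal_mul hεb.le, vb_scale hε]
      congr 1
      ring
    have h3 : ENNReal.ofReal (ε ^ b) * (ENNReal.ofReal ((ε ^ b)⁻¹) * volume (fib (Om b ε ∩ G) x)) =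
        volume (fib (Om b ε ∩ G) x) := by
      rw [← mul_assoc, ← ENNReal.ofReal_mul hεb.le, mul_inv_cancel₀ hεb.ne']
      simp
    rw [h2, ← h3]
    exact mul_le_mul' le_rfl h1

end Pool.Agent.H1.CN
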