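import Mathlib

/-!
# MP_65ff7c_an: numerics
-/

set_option autoImplicit false

namespace Pool.Agent.H1.CN

open Set

theorem exp17 : (5.4 : ℝ) < Real.exp 1.7 := by
  have h := Real.sum_le_exp_of_nonneg (x := 1.7) (by norm_num) 7
  refine lt_of_lt_of_le ?_ h
  norm_num [Finset.sum_range_succ, Nat.factorial]

theorem exp8 : (1000 : ℝ) < Real.exp 8 := by
  have h := Real.exp_one_gt_d9
  have h2 : Real.exp 8 = Real.exp 1 ^ 8 := by rw [← Real.exp_nat_mul]; norm_num
  rw [h2]
  calc (1000 : ℝ) < 2.7 ^ 8 := by norm_num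
    _ ≤ Real.exp 1 ^ 8 := pow_le_pow_left₀ (by norm_num) (by linarith) 8

/-- the half-volume radius -/
theorem exists_r (b : ℕ) (hb : 1000 ≤ b) : ∃ r : ℝ, 0 < r ∧ r ≤ 1.7 / (b + 1) ∧
    (1 - r) ^ (b + 1) * (1 + (b + 1) * r) = 1 / 2 := by
  have hb' : (1000 : ℝ) ≤ b := by exact_mod_cast hb
  set r₁ : ℝ := 1.7 / (b + 1) with hr₁
  have hr₁0 : 0 < r₁ := by positivity
  have hr₁1 : r₁ ≤ 1 := by rw [hr₁, div_le_one (by positivity)]; linarith
  have hc : ContinuousOn (fun r : ℝ => (1 - r) ^ (b + 1) * (1 + (b + 1) * r)) (Icc 0 r₁) := by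
    fun_prop
  have h1 : (1 - r₁) ^ (b + 1) * (1 + (b + 1) * r₁) ≤ 1 / 2 := by
    have e1 : ((b : ℝ) + 1) * r₁ = 1.7 := by rw [hr₁]; field_simp
    rw [e1]
    have h2 : (1 - r₁) ^ (b + 1) ≤ Real.exp (-1.7) := by
      have h3 : 1 - r₁ ≤ Real.exp (-r₁) := by
        have := Real.add_one_le_exp (-r₁); linarith
      calc (1 - r₁) ^ (b + 1) ≤ Real.exp (-r₁) ^ (b + 1) :=
            pow_le_pow_left₀ (by linarith) h3 _
        _ = Real.exp (-1.7) := by
            rw [← Real.exp_nat_mul]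
            congr 1
            push_cast
            linarith
    have h4 : Real.exp (-1.7) < 1 / 5.4 := by
      rw [Real.exp_neg, inv_eq_one_div]
      exact one_div_lt_one_div_of_lt (by norm_num) exp17
    nlinarith
  have hmem : (1 / 2 : ℝ) ∈ Icc ((1 - r₁) ^ (b + 1) * (1 + (b + 1) * r₁))
      ((1 - (0 : ℝ)) ^ (b + 1) * (1 + (b + 1) * 0)) := by
    refine ⟨h1, ?_⟩
    simp
    norm_num
  obtain ⟨r, hr, hreq⟩ := intermediate_value_Icc' hr₁0.le hc hmem
  refine ⟨r, ?_, hr.2, hreq⟩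
  rcases hr.1.eq_or_lt with h | h
  · exfalso
    rw [← h] at hreq
    simp at hreq
  · exact h

theorem int_pow (b : ℕ) (x y : ℝ) : ∫ s in x..y, (1 - s) ^ b =
    ((1 - x) ^ (b + 1) - (1 - y) ^ (b + 1)) / (b + 1) := by
  have hd : ∀ x : ℝ, HasDerivAt (fun s : ℝ => -(1 - s) ^ (b + 1) / (b + 1)) ((1 - x) ^ b) x := by
    intro x
    have h1 : HasDerivAt (fun r : ℝ => (1 - r) ^ (b + 1)) (((b + 1 : ℕ) : ℝ) * (1 - x) ^ b * (-1)) x := by
      have := ((hasDerivAt_id' x).const_sub 1).fun_pow (b + 1)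
      simpa using this
    refine (h1.neg.div_const ((b : ℝ) + 1)).congr_deriv ?_
    have : ((b : ℝ) + 1) ≠ 0 := by positivity
    push_cast
    field_simp
  rw [intervalIntegral.integral_eq_sub_of_hasDerivAt (fun x _ => hd x)
      ((by fun_prop : Continuous fun v : ℝ => (1 - v) ^ b).intervalIntegrable _ _)]
  ring

/-- the gap -/
theorem gap (b : ℕ) (hb : 1000 ≤ b) {r : ℝ} (hr0 : 0 < r) (hr1 : r ≤ 1.7 / (b + 1))
    (hr : (1 - r) ^ (b + 1) * (1 + (b + 1) * r) = 1 / 2) :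
    2 * Real.pi * r * (1 - r) ^ b < 2 * ∫ s in (1 / (1000 * ((b : ℝ) + 1)))..(8 / b), (1 - s) ^ b := by
  have hb' : (1000 : ℝ) ≤ b := by exact_mod_cast hb
  have hb0 : (0 : ℝ) < b := by linarith
  have hpi := Real.pi_pos
  have hpi2 := Real.pi_lt_d2
  have hb1 : (0 : ℝ) < (b : ℝ) + 1 := by linarith
  have hr2 : r ≤ 0.0017 := by
    refine hr1.trans ?_
    rw [div_le_iff₀ hb1]; linarith
  have h1r : 0 < 1 - r := by linarith
  set t : ℝ := ((b : ℝ) + 1) * r with ht
  have ht0 : 0 < t := by positivity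
  have ht1 : t ≤ 1.7 := by
    rw [le_div_iff₀ hb1] at hr1
    linarith
  -- left side
  have hl : 2 * Real.pi * r * (1 - r) ^ b ≤ 1.99 / (b + 1) := by
    have e1 : (1 - r) ^ b * (2 * (1 - r) * (1 + t)) = 1 := by
      rw [pow_succ] at hr; linarith
    have e2 : (1 - r) ^ b = 1 / (2 * (1 - r) * (1 + t)) := by
      rw [eq_div_iff (by positivity)]; exact e1
    have e3 : r = t / (b + 1) := by rw [ht]; field_simp
    have e4 : 2 * Real.pi * r * (1 - r) ^ b = Real.pi * t / ((1 - r) * (1 + t)) / (b + 1) := by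
      rw [e2]
      have : 2 * Real.pi * r = 2 * Real.pi * (t / (b + 1)) := by rw [← e3]
      rw [this]
      field_simp
    rw [e4]
    apply div_le_div_of_nonneg_right _ hb1.le
    rw [div_le_iff₀ (by positivity)]
    have h2 : 0.9983 * (1 + t) ≤ (1 - r) * (1 + t) := by
      apply mul_le_mul_of_nonneg_right _ (by positivity)
      linarith
    nlinarith
  have hrr : 1.99 / ((b : ℝ) + 1) < 2 * ∫ s in (1 / (1000 * ((b : ℝ) + 1)))..(8 / b), (1 - s) ^ b := by
    rw [int_pow]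
    have h2 : 0.999 ≤ (1 - 1 / (1000 * ((b : ℝ) + 1))) ^ (b + 1) := by
      have h3 : (-2 : ℝ) ≤ -(1 / (1000 * ((b : ℝ) + 1))) := by
        have : 1 / (1000 * ((b : ℝ) + 1)) ≤ 1 := by
          rw [div_le_one (by positivity)]; linarith
        linarith
      have h4 := one_add_mul_le_pow h3 (b + 1)
      have h5 : (1 : ℝ) + ((b + 1 : ℕ) : ℝ) * -(1 / (1000 * ((b : ℝ) + 1))) = 0.999 := by
        push_cast
        field_simp
        ring
      rw [h5, ← sub_eq_add_neg] at h4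
      exact h4
    have h3 : (1 - 8 / (b : ℝ)) ^ (b + 1) ≤ 0.001 := by
      have h4 : 0 ≤ 1 - 8 / (b : ℝ) := by
        rw [sub_nonneg, div_le_one hb0]; linarith
      have h5 : 1 - 8 / (b : ℝ) ≤ Real.exp (-(8 / b)) := by
        have := Real.add_one_le_exp (-(8 / (b : ℝ))); linarith
      have h6 : (1 - 8 / (b : ℝ)) ^ (b + 1) ≤ Real.exp (-8) := by
        calc (1 - 8 / (b : ℝ)) ^ (b + 1) ≤ Real.exp (-(8 / b)) ^ (b + 1) :=
              pow_le_pow_left₀ h4 h5 _
          _ = Real.exp (((b + 1 : ℕ) : ℝ) * (-(8 / b))) := by rw [← Real.exp_nat_mul]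
          _ ≤ Real.exp (-8) := by
              apply Real.exp_le_exp.2
              push_cast
              have : ((b : ℝ) + 1) * (-(8 / b)) = -8 - 8 / b := by field_simp; ring
              rw [this]
              have : 0 < 8 / (b : ℝ) := by positivity
              linarith
      have h7 : Real.exp (-8) < 1 / 1000 := by
        rw [Real.exp_neg, inv_eq_one_div]
        exact one_div_lt_one_div_of_lt (by norm_num) exp8
      linarith
    rw [mul_div_assoc']
    apply div_lt_div_of_pos_right _ hb1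
    linarith
  linarith

end Pool.Agent.H1.CN
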