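import Pool.Agent.H1.CN.G5
import Pool.Agent.H1.CN.F
import Pool.Agent.H1.CN.N

/-!
# MP_65ff7c_an, part H: the main argument
-/

set_option autoImplicit false

namespace Pool.Agent.H1.CN

open MeasureTheory Set Metric Pool.Agent.TH703.Cone Filter Topology
open scoped ENNReal RealInnerProductSpace ComplexConjugate

variable {b : ℕ}

/-- Markov type estimate -/
theorem fibre_markov {ε P η : ℝ} {A D : Set (W b)} {Z : Set ℂ} (hb : 1 ≤ b) (hε : 0 < ε)
    (hη : 0 < η) (hA : MeasurableSet A) (hAΩ : A ⊆ Om b ε) (hP0 : 0 ≤ P) (hP : PLE (Om b ε) A P)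
    (hD : MeasurableSet D) (hZ : MeasurableSet Z)
    (h : ∀ᵐ x : ℂ, x ∈ Z → ENNReal.ofReal (η * vb b ε) * volume (fib D x) ≤
      volume (fib A x) * volume (fib (Om b ε \ A) x)) :
    volume.real {z : W b | z ∈ D ∧ z.fst ∈ Z} ≤ 2 ^ (b + 1) * ε * P / η := by
  have hvb := vb_pos (b := b) hε
  have h5 := t5 b ε P A hb hε hA hAΩ hP0 hP
  have hZm : MeasurableSet {z : W b | z.fst ∈ Z} := meas_fst hZ
  have e1 : volume {z : W b | z ∈ D ∧ z.fst ∈ Z} = ∫⁻ x in Z, volume (fib D x) := by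
    have e0 : {z : W b | z ∈ D ∧ z.fst ∈ Z} = D ∩ {z : W b | z.fst ∈ Z} := rfl
    rw [e0, vol_fib (hD.inter hZm), ← lintegral_indicator hZ]
    refine lintegral_congr fun x => ?_
    by_cases hx : x ∈ Z
    · rw [indicator_of_mem hx]
      congr 1
      ext y
      exact ⟨fun h => h.1, fun h => ⟨h, hx⟩⟩
    · rw [indicator_of_notMem hx]
      have : fib (D ∩ {z : W b | z.fst ∈ Z}) x = ∅ := by
        rw [eq_empty_iff_forall_notMem]
        intro y hy
        exact hx hy.2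
      rw [this, measure_empty]
  have h6 : ENNReal.ofReal (η * vb b ε) * volume {z : W b | z ∈ D ∧ z.fst ∈ Z} ≤
      ENNReal.ofReal (2 ^ (b + 1) * ε * vb b ε * P) := by
    rw [e1, ← lintegral_const_mul' _ _ ENNReal.ofReal_ne_top]
    refine le_trans ?_ h5
    refine le_trans ?_ (setLIntegral_le_lintegral Z _)
    refine lintegral_mono_ae ?_
    rw [ae_restrict_iff' hZ]
    exact h
  have h7 : volume {z : W b | z ∈ D ∧ z.fst ∈ Z} ≤ ENNReal.ofReal (2 ^ (b + 1) * ε * P / η) := by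
    have hne : ENNReal.ofReal (η * vb b ε) ≠ 0 := by
      rw [ne_eq, ENNReal.ofReal_eq_zero, not_le]; positivity
    rw [← ENNReal.mul_le_mul_iff_right hne ENNReal.ofReal_ne_top,
      ← ENNReal.ofReal_mul (by positivity)]
    refine h6.trans (ENNReal.ofReal_le_ofReal (le_of_eq ?_))
    field_simp
  exact ENNReal.toReal_le_of_le_ofReal (by positivity) h7

theorem ae_fib_null {N : Set (W b)} (hN : MeasurableSet N) (h : volume N = 0) :
    ∀ᵐ x : ℂ, volume (fib N x) = 0 := by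
  rw [vol_fib hN, lintegral_eq_zero_iff (meas_fib_vol hN)] at h
  exact h

theorem fib_neg {G : Set (W b)} {ε : ℝ} (x : ℂ) :
    volume (fib (Om b ε ∩ {z | -z ∈ G}) x) = volume (fib (Om b ε ∩ G) (-x)) := by
  have h1 : fib (Om b ε ∩ {z | -z ∈ G}) x = (fun y : B b => -y) ⁻¹' (fib (Om b ε ∩ G) (-x)) := by
    ext y
    change (‖x‖ + ‖y‖ / ε < 1 ∧ -(WithLp.toLp 2 (x, y) : W b) ∈ G) ↔
      (‖-x‖ + ‖-y‖ / ε < 1 ∧ (WithLp.toLp 2 (-x, -y) : W b) ∈ G)
    rw [norm_neg, norm_neg]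
    exact Iff.rfl
  rw [h1]
  exact (Measure.measurePreserving_neg (volume : Measure (B b))).measure_preimage_emb
    (Homeomorph.neg (B b)).measurableEmbedding _

/-- the main inequality for trapped sets -/
theorem trapped {R r₀ σ η ε P : ℝ} {A G : Set (W b)} (hb : 1 ≤ b) (hε : 0 < ε)
    (hη : 0 < η) (hσ : 0 < σ) (hσ1 : σ ≤ 1 / 2) (hr₀ : 0 < r₀) (hR : r₀ < R) (hR1 : R < 1)
    (hA : MeasurableSet A) (hAΩ : A ⊆ Om b ε) (hP0 : 0 ≤ P) (hP : PLE (Om b ε) A P)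
    (hG : IsOpen G) (h1 : volume ((Om b ε ∩ G) \ A) = 0)
    (h2 : volume ((Om b ε ∩ {z | -z ∈ G}) ∩ A) = 0)
    (hu : ∃ u : ℂ, ‖u‖ = 1 ∧ ∀ x ∈ Wp u σ r₀ R,
        ENNReal.ofReal (η * vb b ε) ≤ volume (fib (Om b ε ∩ G) x)) :
    vb b ε * (2 * ∫ ρ in r₀..R, (1 - ρ) ^ b) ≤
      P + 3 / (2 * σ * r₀) * (2 * (2 ^ (b + 1) * ε * P / η)) := by
  obtain ⟨u, hu1, hu2⟩ := hu
  have hOm := (isOpen_Om b ε).measurableSet
  have hGm := hG.measurableSet
  have hGn : MeasurableSet {z : W b | -z ∈ G} := (hG.preimage continuous_neg).measurableSet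
  have h4 := t4 b ε P A u σ r₀ R hb hε hA hAΩ hP hu1 hσ hσ1 hr₀ hR hR1
  -- first error term
  have ha1 : ∀ᵐ x : ℂ, volume (fib (Om b ε ∩ G) x) ≤ volume (fib A x) := by
    filter_upwards [ae_fib_null ((hOm.inter hGm).diff hA) h1] with x hx
    have hsub : fib (Om b ε ∩ G) x ⊆ fib A x ∪ fib ((Om b ε ∩ G) \ A) x := by
      intro y hy
      by_cases hyA : y ∈ fib A x
      · exact Or.inl hyA
      · exact Or.inr ⟨hy, hyA⟩
    calc volume (fib (Om b ε ∩ G) x) ≤ volume (fib A x ∪ fib ((Om b ε ∩ G) \ A) x) := measure_mono hsub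
      _ ≤ volume (fib A x) + volume (fib ((Om b ε ∩ G) \ A) x) := measure_union_le _ _
      _ = volume (fib A x) := by rw [hx, add_zero]
  have ha2 : ∀ᵐ x : ℂ, volume (fib (Om b ε ∩ G) (-x)) ≤ volume (fib (Om b ε \ A) x) := by
    filter_upwards [ae_fib_null ((hOm.inter hGn).inter hA) h2] with x hx
    rw [← fib_neg]
    have hsub : fib (Om b ε ∩ {z | -z ∈ G}) x ⊆
        fib (Om b ε \ A) x ∪ fib ((Om b ε ∩ {z | -z ∈ G}) ∩ A) x := by
      intro y hy
      by_cases hyA : y ∈ fib A x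
      · exact Or.inr ⟨hy, hyA⟩
      · exact Or.inl ⟨hy.1, hyA⟩
    calc volume (fib (Om b ε ∩ {z | -z ∈ G}) x)
        ≤ volume (fib (Om b ε \ A) x ∪ fib ((Om b ε ∩ {z | -z ∈ G}) ∩ A) x) := measure_mono hsub
      _ ≤ volume (fib (Om b ε \ A) x) + volume (fib ((Om b ε ∩ {z | -z ∈ G}) ∩ A) x) :=
          measure_union_le _ _
      _ = volume (fib (Om b ε \ A) x) := by rw [hx, add_zero]
  have e1 : volume.real {z : W b | z ∈ Om b ε \ A ∧ z.fst ∈ Wp u σ r₀ R} ≤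
      2 ^ (b + 1) * ε * P / η := by
    refine fibre_markov hb hε hη hA hAΩ hP0 hP (hOm.diff hA) (meas_Wp u σ r₀ R) ?_
    filter_upwards [ha1] with x hx hxW
    exact mul_le_mul' ((hu2 x hxW).trans hx) le_rfl
  have e2 : volume.real {z : W b | z ∈ A ∧ -z.fst ∈ Wp u σ r₀ R} ≤
      2 ^ (b + 1) * ε * P / η := by
    refine fibre_markov (Z := {x | -x ∈ Wp u σ r₀ R}) hb hε hη hA hAΩ hP0 hP hA
      (measurable_neg (meas_Wp u σ r₀ R)) ?_
    filter_upwards [ha2] with x hx hxW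
    rw [mul_comm (volume (fib A x))]
    exact mul_le_mul' ((hu2 (-x) hxW).trans hx) le_rfl
  refine h4.trans ?_
  have : 0 ≤ 3 / (2 * σ * r₀) := by positivity
  have h7 : volume.real {z : W b | z ∈ Om b ε \ A ∧ z.fst ∈ Wp u σ r₀ R} +
      volume.real {z : W b | z ∈ A ∧ -z.fst ∈ Wp u σ r₀ R} ≤ 2 * (2 ^ (b + 1) * ε * P / η) := by
    linarith
  have := mul_le_mul_of_nonneg_left h7 this
  linarith

/-- the interior of a convex cone -/
theorem cone_int (Γ : ConvexCone ℝ (W b)) :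
    (∀ z ∈ interior (Γ : Set (W b)), ∀ t : ℝ, 0 < t → t • z ∈ interior (Γ : Set (W b))) ∧
    (∀ z ∈ interior (Γ : Set (W b)), ∀ w ∈ interior (Γ : Set (W b)),
      z + w ∈ interior (Γ : Set (W b))) := by
  constructor
  · intro z hz t ht
    have h1 : IsOpen ((fun w : W b => t⁻¹ • w) ⁻¹' interior (Γ : Set (W b))) :=
      isOpen_interior.preimage (continuous_const_smul _)
    have h2 : (fun w : W b => t⁻¹ • w) ⁻¹' interior (Γ : Set (W b)) ⊆ (Γ : Set (W b)) := by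
      intro w hw
      have h3 : t⁻¹ • w ∈ Γ := interior_subset hw
      have h4 := Γ.smul_mem ht h3
      rwa [smul_smul, mul_inv_cancel₀ ht.ne', one_smul] at h4
    refine interior_maximal h2 h1 ?_
    change t⁻¹ • t • z ∈ interior (Γ : Set (W b))
    rwa [smul_smul, inv_mul_cancel₀ ht.ne', one_smul]
  · intro z hz w hw
    have h1 : IsOpen ((fun p : W b => p - w) ⁻¹' interior (Γ : Set (W b))) :=
      isOpen_interior.preimage (continuous_sub_right w)
    have h2 : (fun p : W b => p - w) ⁻¹' interior (Γ : Set (W b)) ⊆ (Γ : Set (W b)) := by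
      intro p hp
      have h3 : p - w ∈ Γ := interior_subset hp
      have h4 := Γ.add_mem h3 (interior_subset hw)
      rwa [sub_add_cancel] at h4
    refine interior_maximal h2 h1 ?_
    change z + w - w ∈ interior (Γ : Set (W b))
    rwa [add_sub_cancel_right]

theorem exists_b {c : ℝ} (hc : 0 < c) (hc1 : c ≤ 1) : ∃ b : ℕ, 1000 ≤ b ∧
    8 / (b : ℝ) + (16 * (8 / b) * (b + 2) / (c * Real.pi)) * √(2 / (c * b)) < 1 := by
  obtain ⟨b, hb⟩ := exists_nat_gt (8192 / c ^ 3)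
  have hc3 : c ^ 3 ≤ 1 := pow_le_one₀ hc.le hc1
  have hb1 : (8192 : ℝ) < b := by
    refine lt_of_le_of_lt ?_ hb
    rw [le_div_iff₀ (by positivity)]
    linarith
  have hb0 : (0 : ℝ) < b := by linarith
  refine ⟨b, ?_, ?_⟩
  · have : (1000 : ℝ) ≤ b := by linarith
    exact_mod_cast this
  have hpi := Real.pi_gt_three
  have h1 : √(2 / (c * b)) ≤ c / 64 := by
    rw [Real.sqrt_le_left (by positivity)]
    rw [div_lt_iff₀ (by positivity)] at hb
    rw [div_pow, div_le_div_iff₀ (by positivity) (by positivity)]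
    nlinarith
  have h2 : 8 / (b : ℝ) ≤ 0.001 := by
    rw [div_le_iff₀ hb0]; linarith
  have h3 : (16 * (8 / (b : ℝ)) * (b + 2) / (c * Real.pi)) * √(2 / (c * b)) ≤
      (16 * (8 / (b : ℝ)) * (b + 2) / (c * Real.pi)) * (c / 64) :=
    mul_le_mul_of_nonneg_left h1 (by positivity)
  have h4 : (16 * (8 / (b : ℝ)) * (b + 2) / (c * Real.pi)) * (c / 64) = 2 * (b + 2) / (b * Real.pi) := by
    field_simp
    ring
  have h5 : 2 * ((b : ℝ) + 2) / (b * Real.pi) ≤ 0.9 := by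
    rw [div_le_iff₀ (by positivity)]
    nlinarith
  linarith

/-- **The core**: counterexamples in `W b`. -/
theorem core {c : ℝ} (hc : 0 < c) (hc1 : c ≤ 1) : ∃ (b : ℕ) (ε : ℝ), 1 ≤ b ∧ 0 < ε ∧
    ∃ (A : Set (W b)) (I : ℝ), MeasurableSet A ∧ A ⊆ Om b ε ∧ volume A = volume (Om b ε) / 2 ∧
      PLE (Om b ε) A I ∧
      (∀ (F : Set (W b)) (Q : ℝ), MeasurableSet F → F ⊆ Om b ε → volume F = volume A →
        PLE (Om b ε) F Q → I ≤ Q) ∧
      ¬ ∃ Γ : ConvexCone ℝ (W b), volume ((Om b ε ∩ (Γ : Set (W b))) \ A) = 0 ∧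
        volume ((Om b ε ∩ {x | -x ∈ Γ}) ∩ A) = 0 ∧
        ENNReal.ofReal c * volume (Om b ε) ≤ volume (Om b ε ∩ (Γ : Set (W b))) := by
  obtain ⟨b, hb, hcond⟩ := exists_b hc hc1
  have hb1 : 1 ≤ b := by omega
  have hb' : (1000 : ℝ) ≤ b := by exact_mod_cast hb
  have hb0 : (0 : ℝ) < b := by linarith
  have hpi := Real.pi_pos
  obtain ⟨r, hr0, hr1, hr⟩ := exists_r b hb
  have hr2 : r < 1 := by
    refine lt_of_le_of_lt hr1 ?_
    rw [div_lt_one (by positivity)]; linarith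
  have hgap := gap b hb hr0 hr1 hr
  set r₀ : ℝ := 1 / (1000 * ((b : ℝ) + 1)) with hr₀
  set R : ℝ := 8 / b with hR
  have hr₀0 : 0 < r₀ := by positivity
  have hR0 : 0 < R := by positivity
  have hr₀R : r₀ < R := by
    rw [hr₀, hR, div_lt_div_iff₀ (by positivity) hb0]
    linarith
  have hR1 : R < 1 := by rw [hR, div_lt_one hb0]; linarith
  obtain ⟨σ, η, hσ, hσ1, hη, h6⟩ := t6 (b := b) hb1 hc hr₀0 hR0 hcond
  set q : ℝ := 2 * Real.pi * r * (1 - r) ^ b with hq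
  have h1r : 0 < 1 - r := by linarith
  have hq0 : 0 < q := by positivity
  set J : ℝ := ∫ s in r₀..R, (1 - s) ^ b with hJ
  set C : ℝ := 3 / (2 * σ * r₀) * (2 * (2 ^ (b + 1) / η)) with hC
  have hC0 : 0 < C := by positivity
  set ε : ℝ := (2 * J - q) / (2 * q * C) with hε
  have hε0 : 0 < ε := div_pos (by linarith) (by positivity)
  have hvb := vb_pos (b := b) hε0
  have hP := t3 b ε r hb1 hε0 hr0 hr2
  set Cy : Set (W b) := {z | z ∈ Om b ε ∧ ‖z.fst‖ < r} with hCy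
  have hCym : MeasurableSet Cy := (isOpen_Om b ε).measurableSet.inter
    (isOpen_lt cont_fst_norm continuous_const).measurableSet
  have h0mem : (0 : W b) ∈ Om b ε := by
    rw [mem_Om]
    simp
  obtain ⟨A, I, hAm, hAΩ, hAv, hAI, hAmin⟩ := exist (W b) (t1 (W b)) (Om b ε) Cy
    (vb b ε * (2 * Real.pi * r * (1 - r) ^ b)) (isOpen_Om b ε) (convex_Om b hε0) h0mem
    (bdd_Om b hε0) hCym (fun z hz => hz.1) hP
  have hIle : I ≤ vb b ε * q := hAmin Cy _ hCym (fun z hz => hz.1) rfl hP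
  have hCyv : volume Cy = volume (Om b ε) / 2 := by
    rw [t7b b ε r hb1 hε0 hr0.le hr2.le, vol_Om hb1 hε0, hr]
    have h2 : (2 : ℝ≥0∞) = ENNReal.ofReal 2 := by simp
    rw [h2, ← ENNReal.ofReal_div_of_pos two_pos]
    congr 1
    ring
  refine ⟨b, ε, hb1, hε0, A, I, hAm, hAΩ, hAv.trans hCyv, hAI, ?_, ?_⟩
  · intro F Q hF hFΩ hFv hFQ
    exact hAmin F Q hF hFΩ (hFv.trans hAv) hFQ
  rintro ⟨Γ, hΓ1, hΓ2, hΓ3⟩
  set G : Set (W b) := interior (Γ : Set (W b)) with hG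
  have hGΓ : G ⊆ (Γ : Set (W b)) := interior_subset
  obtain ⟨hG1, hG2⟩ := cone_int Γ
  have hv1 : volume ((Om b ε ∩ G) \ A) = 0 := by
    refine measure_mono_null ?_ hΓ1
    intro z hz
    exact ⟨⟨hz.1.1, hGΓ hz.1.2⟩, hz.2⟩
  have hv2 : volume ((Om b ε ∩ {z | -z ∈ G}) ∩ A) = 0 := by
    refine measure_mono_null ?_ hΓ2
    intro z hz
    exact ⟨⟨hz.1.1, hGΓ hz.1.2⟩, hz.2⟩
  have hv3 : ENNReal.ofReal c * volume (Om b ε) ≤ volume (Om b ε ∩ G) := by
    refine hΓ3.trans ?_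
    have h1 : Om b ε ∩ (Γ : Set (W b)) ⊆ (Om b ε ∩ G) ∪ frontier (Γ : Set (W b)) := by
      intro z hz
      by_cases hzG : z ∈ G
      · exact Or.inl ⟨hz.1, hzG⟩
      · exact Or.inr ⟨subset_closure hz.2, hzG⟩
    have h2 : volume (frontier (Γ : Set (W b))) = 0 := Γ.convex.addHaar_frontier volume
    calc volume (Om b ε ∩ (Γ : Set (W b))) ≤ volume ((Om b ε ∩ G) ∪ frontier (Γ : Set (W b))) :=
          measure_mono h1
      _ ≤ volume (Om b ε ∩ G) + volume (frontier (Γ : Set (W b))) := measure_union_le _ _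
      _ = volume (Om b ε ∩ G) := by rw [h2, add_zero]
  have hu := h6 ε G hε0 isOpen_interior hG1 hG2 hv3
  have hPq : PLE (Om b ε) A (vb b ε * q) := fun φ hφ => (hAI φ hφ).trans hIle
  have hfin := trapped hb1 hε0 hη hσ hσ1 hr₀0 hr₀R hR1 hAm hAΩ (by positivity) hPq
    isOpen_interior hv1 hv2 hu
  have e1 : vb b ε * q + 3 / (2 * σ * r₀) * (2 * (2 ^ (b + 1) * ε * (vb b ε * q) / η)) =
      vb b ε * (q * (1 + C * ε)) := by
    rw [hC]; field_simp
  rw [e1] at hfin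
  have h8 := le_of_mul_le_mul_left hfin hvb
  have h9 : q * (1 + C * ε) = q + (2 * J - q) / 2 := by
    rw [hε]; field_simp
  rw [h9] at h8
  linarith

end Pool.Agent.H1.CN
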