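import Pool.Agent.H1.CN.H

/-!
# MP_65ff7c_an, part I: transfer to Euclidean space
-/

set_option autoImplicit false

namespace Pool.Agent.H1.CN

open MeasureTheory Set Metric Pool.Agent.TH703.Cone Filter Topology
open scoped ENNReal

section general

variable {E₁ E₂ : Type*} [NormedAddCommGroup E₁] [InnerProductSpace ℝ E₁] [FiniteDimensional ℝ E₁]
  [MeasurableSpace E₁] [BorelSpace E₁] [NormedAddCommGroup E₂] [InnerProductSpace ℝ E₂]
  [FiniteDimensional ℝ E₂] [MeasurableSpace E₂] [BorelSpace E₂]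

/-- conjugated field -/
def cj (s : E₁ ≃ₗᵢ[ℝ] E₂) (ψ : E₂ → E₂) : E₁ → E₁ := fun x => s.symm (ψ (s x))

omit [FiniteDimensional ℝ E₁] [MeasurableSpace E₁] [BorelSpace E₁] [FiniteDimensional ℝ E₂]
  [MeasurableSpace E₂] [BorelSpace E₂] in
theorem tst_cj (s : E₁ ≃ₗᵢ[ℝ] E₂) {ψ : E₂ → E₂} {Ω : Set E₂} (h : Tst Ω ψ) :
    Tst (s ⁻¹' Ω) (cj s ψ) := by
  have hsup : tsupport (cj s ψ) ⊆ s ⁻¹' (tsupport ψ) := by
    refine closure_minimal ?_ ((isClosed_tsupport _).preimage s.continuous)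
    intro x hx
    refine subset_tsupport _ ?_
    intro h0
    apply hx
    change s.symm (ψ (s x)) = 0
    rw [h0, map_zero]
  refine ⟨?_, ?_, ?_, ?_⟩
  · exact s.symm.contDiff.comp (h.c1.comp s.contDiff)
  · have h1 : IsCompact (s ⁻¹' (tsupport ψ)) := s.toHomeomorph.isClosedEmbedding.isCompact_preimage h.cs
    exact h1.of_isClosed_subset (isClosed_tsupport _) hsup
  · exact hsup.trans (preimage_mono h.sub)
  · intro x
    change ‖s.symm (ψ (s x))‖ ≤ 1
    rw [LinearIsometryEquiv.norm_map]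
    exact h.le _

omit [FiniteDimensional ℝ E₁] [MeasurableSpace E₁] [BorelSpace E₁] [FiniteDimensional ℝ E₂]
  [MeasurableSpace E₂] [BorelSpace E₂] in
theorem dv_cj (s : E₁ ≃ₗᵢ[ℝ] E₂) {ψ : E₂ → E₂} (h : ContDiff ℝ 1 ψ) (x : E₁) :
    dv (cj s ψ) x = dv ψ (s x) := by
  have h1 : HasFDerivAt (cj s ψ)
      ((s.symm.toContinuousLinearEquiv.toContinuousLinearMap.comp
        ((fderiv ℝ ψ (s x)).comp s.toContinuousLinearEquiv.toContinuousLinearMap))) x := by
    have h2 : HasFDerivAt s (s.toContinuousLinearEquiv.toContinuousLinearMap) x :=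
      s.toContinuousLinearEquiv.toContinuousLinearMap.hasFDerivAt
    have h3 : HasFDerivAt ψ (fderiv ℝ ψ (s x)) (s x) := (h.differentiable (by norm_num) _).hasFDerivAt
    have h4 : HasFDerivAt s.symm (s.symm.toContinuousLinearEquiv.toContinuousLinearMap) (ψ (s x)) :=
      s.symm.toContinuousLinearEquiv.toContinuousLinearMap.hasFDerivAt
    exact h4.comp x (h3.comp x h2)
  unfold dv
  rw [h1.fderiv]
  have h5 := LinearMap.trace_conj' (R := ℝ) ((fderiv ℝ ψ (s x)) : E₂ →ₗ[ℝ] E₂) s.symm.toLinearEquiv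
  rw [← h5]
  congr 1

theorem int_cj (s : E₁ ≃ₗᵢ[ℝ] E₂) {ψ : E₂ → E₂} (h : ContDiff ℝ 1 ψ) (F : Set E₂) :
    ∫ x in s ⁻¹' F, dv (cj s ψ) x = ∫ x in F, dv ψ x := by
  have h1 := s.measurePreserving.setIntegral_preimage_emb
    s.toHomeomorph.measurableEmbedding (dv ψ) F
  rw [← h1]
  congr 1
  funext x
  exact dv_cj s h x

end general

/-- **The result.** -/
theorem final (c : ℝ) (hc : 0 < c) :
      ¬ ∀ (n : ℕ) (Ω E : Set (EuclideanSpace ℝ (Fin n))),
        IsOpen Ω → Ω.Nonempty → Convex ℝ Ω → Bornology.IsBounded Ω →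
        (∀ x ∈ Ω, -x ∈ Ω) →
        MeasurableSet E → E ⊆ Ω →
        MeasureTheory.volume E = MeasureTheory.volume Ω / 2 →
        (∀ F : Set (EuclideanSpace ℝ (Fin n)), MeasurableSet F → F ⊆ Ω →
          MeasureTheory.volume F = MeasureTheory.volume E →
          ∀ φ : EuclideanSpace ℝ (Fin n) → EuclideanSpace ℝ (Fin n),
            ContDiff ℝ 1 φ → HasCompactSupport φ → tsupport φ ⊆ Ω →
            (∀ x, ‖φ x‖ ≤ 1) →
            ∀ ε : ℝ, 0 < ε →
              ∃ ψ : EuclideanSpace ℝ (Fin n) → EuclideanSpace ℝ (Fin n),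
                ContDiff ℝ 1 ψ ∧ HasCompactSupport ψ ∧ tsupport ψ ⊆ Ω ∧
                (∀ x, ‖ψ x‖ ≤ 1) ∧
                (∫ x in E, LinearMap.trace ℝ (EuclideanSpace ℝ (Fin n))
                    (fderiv ℝ φ x).toLinearMap) ≤
                  (∫ x in F, LinearMap.trace ℝ (EuclideanSpace ℝ (Fin n))
                    (fderiv ℝ ψ x).toLinearMap) + ε) →
        ∃ Γ : ConvexCone ℝ (EuclideanSpace ℝ (Fin n)),
          MeasureTheory.volume ((Ω ∩ (Γ : Set (EuclideanSpace ℝ (Fin n)))) \ E) = 0 ∧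
          MeasureTheory.volume ((Ω ∩ {x | -x ∈ Γ}) ∩ E) = 0 ∧
          ENNReal.ofReal c * MeasureTheory.volume Ω ≤
            MeasureTheory.volume (Ω ∩ (Γ : Set (EuclideanSpace ℝ (Fin n)))) := by
  intro H
  obtain ⟨b, ε, hb, hε, A, I, hA, hAΩ, hAv, hAI, hAmin, hno⟩ := core (c := min c 1)
    (lt_min hc one_pos) (min_le_right _ _)
  set e : W b ≃ₗᵢ[ℝ] EuclideanSpace ℝ (Fin (Module.finrank ℝ (W b))) :=
    (stdOrthonormalBasis ℝ (W b)).repr with he
  set s := e.symm with hs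
  have hse : ∀ S : Set (W b), e ⁻¹' (s ⁻¹' S) = S := by
    intro S
    ext z
    rw [mem_preimage, mem_preimage, hs, LinearIsometryEquiv.symm_apply_apply]
  have hes : ∀ S : Set (EuclideanSpace ℝ (Fin (Module.finrank ℝ (W b)))), s ⁻¹' (e ⁻¹' S) = S := by
    intro S
    ext z
    rw [mem_preimage, mem_preimage, hs, LinearIsometryEquiv.apply_symm_apply]
  have hvs : ∀ S : Set (W b), volume (s ⁻¹' S) = volume S := fun S =>
    s.measurePreserving.measure_preimage_emb s.toHomeomorph.measurableEmbedding S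
  have hve : ∀ S : Set (EuclideanSpace ℝ (Fin (Module.finrank ℝ (W b)))),
      volume (e ⁻¹' S) = volume S := fun S =>
    e.measurePreserving.measure_preimage_emb e.toHomeomorph.measurableEmbedding S
  have hOmo := isOpen_Om b ε
  have k1 : (s ⁻¹' Om b ε).Nonempty := by
    refine ⟨0, ?_⟩
    rw [mem_preimage, map_zero, mem_Om]
    simp
  have k2 : Convex ℝ (s ⁻¹' Om b ε) := (convex_Om b hε).linear_preimage s.toLinearEquiv.toLinearMap
  have k3 : Bornology.IsBounded (s ⁻¹' Om b ε) := by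
    obtain ⟨C, hC⟩ := (bdd_Om b hε).exists_norm_le
    rw [isBounded_iff_forall_norm_le]
    refine ⟨C, fun x hx => ?_⟩
    rw [← s.norm_map]
    exact hC _ hx
  have k4 : ∀ x ∈ s ⁻¹' Om b ε, -x ∈ s ⁻¹' Om b ε := by
    intro x hx
    rw [mem_preimage, mem_Om] at hx ⊢
    rw [map_neg]
    simpa using hx
  have k5 : volume (s ⁻¹' A) = volume (s ⁻¹' Om b ε) / 2 := by rw [hvs, hvs, hAv]
  obtain ⟨Γ, h1, h2, h3⟩ := H _ (s ⁻¹' Om b ε) (s ⁻¹' A) (hOmo.preimage s.continuous) k1 k2 k3 k4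
    (s.continuous.measurable hA) (preimage_mono hAΩ) k5 (by
      intro F hF hFΩ hFv φ hφ1 hφ2 hφ3 hφ4 δ hδ
      set F₀ : Set (W b) := e ⁻¹' F with hF₀
      have hF₀m : MeasurableSet F₀ := e.continuous.measurable hF
      have hF₀Ω : F₀ ⊆ Om b ε := by
        rw [← hse (Om b ε)]
        exact preimage_mono hFΩ
      have hF₀v : volume F₀ = volume A := by rw [hF₀, hve, hFv, hvs]
      have hT : Tst (s ⁻¹' Om b ε) φ := ⟨hφ1, hφ2, hφ3, hφ4⟩
      have hT0 : Tst (Om b ε) (cj e φ) := by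
        have := tst_cj e hT
        rwa [hse] at this
      have h5 := hAI _ hT0
      have h6 := int_cj e hφ1 (s ⁻¹' A)
      rw [hse] at h6
      rw [h6] at h5
      have h7 : ∃ ψ₀ : W b → W b, Tst (Om b ε) ψ₀ ∧ I - δ < ∫ x in F₀, dv ψ₀ x := by
        by_contra hcon
        push Not at hcon
        have := hAmin F₀ (I - δ) hF₀m hF₀Ω hF₀v (fun ψ hψ => hcon ψ hψ)
        linarith
      obtain ⟨ψ₀, hψ₀, hψ₀I⟩ := h7
      have h8 := tst_cj s hψ₀
      have h9 := int_cj s hψ₀.c1 F₀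
      rw [hF₀, hes] at h9
      refine ⟨cj s ψ₀, h8.c1, h8.cs, h8.sub, h8.le, ?_⟩
      change (∫ x in s ⁻¹' A, dv φ x) ≤ (∫ x in F, dv (cj s ψ₀) x) + δ
      rw [h9]
      linarith)
  apply hno
  refine ⟨Γ.comap e.toLinearEquiv.toLinearMap, ?_, ?_, ?_⟩
  · rw [← h1, ← hve]
    congr 1
    rw [preimage_sdiff, preimage_inter, hse, hse]
    rfl
  · rw [← h2, ← hve]
    congr 1
    rw [preimage_inter, preimage_inter, hse, hse]
    congr 2
    ext z
    change e (-z) ∈ Γ ↔ -(e z) ∈ Γ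
    rw [map_neg]
  · have h4 : volume (Om b ε ∩ (Γ.comap e.toLinearEquiv.toLinearMap : Set (W b))) =
        volume (s ⁻¹' Om b ε ∩ (Γ : Set (EuclideanSpace ℝ (Fin (Module.finrank ℝ (W b)))))) := by
      rw [← hve]
      congr 1
      rw [preimage_inter, hse]
      rfl
    rw [h4]
    refine le_trans ?_ h3
    rw [hvs]
    gcongr
    exact min_le_left _ _

end Pool.Agent.H1.CN
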